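import Pool.Agent.Lib_MP_af4de1_u.Defs

/-!
# Elementary inequalities for `V`
-/

namespace SokalU

open Complex

variable {k : ℝ} {t : ℂ}

theorem V_eq (hk : 0 < k) (ht : 0 ≤ t.re) :
    V k t = (1 / k + t.re) + t.im ^ 2 / (1 / k + t.re) := by
  have h1 : 0 < 1 + t.re * k := by positivity
  have h2 : ‖1 + t * (k : ℂ)‖ ^ 2 = (1 + t.re * k) ^ 2 + (t.im * k) ^ 2 := by
    rw [← Complex.normSq_eq_norm_sq, Complex.normSq_apply]
    simp
    ring
  unfold V
  rw [h2]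
  have h3 : 0 < 1 / k + t.re := by positivity
  field_simp

theorem V_pos (hk : 0 < k) (ht : 0 ≤ t.re) : 0 < V k t := by
  rw [V_eq hk ht]
  positivity

theorem inv_V_le (hk : 0 < k) (ht : 0 ≤ t.re) : (V k t)⁻¹ ≤ k := by
  have h3 : 0 < 1 / k + t.re := by positivity
  have h1 : 1 / k ≤ V k t := by
    rw [V_eq hk ht]
    have : 0 ≤ t.im ^ 2 / (1 / k + t.re) := by positivity
    linarith
  rw [inv_le_comm₀ (V_pos hk ht) hk]
  rwa [one_div] at h1

theorem norm_t_le (hk : 0 < k) (ht : 0 ≤ t.re) : ‖t‖ ≤ 2 * V k t := by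
  have h3 : 0 < 1 / k + t.re := by positivity
  have h1 : ‖t‖ ≤ |t.re| + |t.im| := Complex.norm_le_abs_re_add_abs_im t
  rw [abs_of_nonneg ht] at h1
  have h4 : |t.im| ≤ V k t := by
    rw [V_eq hk ht, ← sq_abs t.im]
    set y := |t.im| with hy
    have hy0 : 0 ≤ y := abs_nonneg _
    set u := 1 / k + t.re with hu
    have h5 : y ≤ u + y ^ 2 / u ↔ y * u ≤ u ^ 2 + y ^ 2 := by
      rw [← sub_nonneg, ← sub_nonneg (b := y * u)]
      have : u + y ^ 2 / u - y = (u ^ 2 + y ^ 2 - y * u) / u := by field_simp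
      rw [this]
      constructor
      · intro h
        exact (div_nonneg_iff.1 h).elim (fun h => h.1) (fun h => absurd h.2 (by linarith))
      · intro h; exact div_nonneg h h3.le
    rw [h5]
    nlinarith [sq_nonneg (u - y), sq_nonneg u, sq_nonneg y]
  have h6 : t.re ≤ V k t := by
    rw [V_eq hk ht]
    have : 0 ≤ t.im ^ 2 / (1 / k + t.re) := by positivity
    have : 0 < 1 / k := by positivity
    linarith
  linarith

theorem re_one_add (k : ℝ) (t : ℂ) : (1 + t * (k : ℂ)).re = 1 + t.re * k := by simp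

theorem im_one_add (k : ℝ) (t : ℂ) : (1 + t * (k : ℂ)).im = t.im * k := by simp

theorem one_le_norm (hk : 0 < k) (ht : 0 ≤ t.re) : 1 ≤ ‖1 + t * (k : ℂ)‖ := by
  have h1 : (1 + t * (k : ℂ)).re ≤ ‖1 + t * (k : ℂ)‖ := Complex.re_le_norm _
  rw [re_one_add] at h1
  have : 0 ≤ t.re * k := by positivity
  linarith

theorem tk_le (hk : 0 < k) (ht : 0 ≤ t.re) : ‖t‖ * k ≤ ‖1 + t * (k : ℂ)‖ := by
  have h1 : ‖t‖ * k = ‖t * (k : ℂ)‖ := by
    rw [norm_mul, Complex.norm_real, Real.norm_of_nonneg hk.le]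
  rw [h1]
  rw [Complex.norm_def, Complex.norm_def]
  apply Real.sqrt_le_sqrt
  rw [Complex.normSq_apply, Complex.normSq_apply, re_one_add, im_one_add]
  have h2 : (t * (k : ℂ)).re = t.re * k := by simp
  have h3 : (t * (k : ℂ)).im = t.im * k := by simp
  rw [h2, h3]
  have : 0 ≤ t.re * k := by positivity
  nlinarith

theorem k_div_le (hk : 0 < k) (ht : 0 ≤ t.re) : k / ‖1 + t * (k : ℂ)‖ ^ 2 ≤ (V k t)⁻¹ := by
  have h1 := one_le_norm hk ht
  unfold V
  rw [inv_div]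
  have h2 : 0 ≤ t.re * k := by positivity
  gcongr
  nlinarith

theorem V_compare {k' : ℝ} (hk : 0 < k) (ht : 0 ≤ t.re) (h1 : 9 / 10 * k ≤ k')
    (h2 : k' ≤ 11 / 10 * k) : V k' t ≤ 6 / 5 * V k t := by
  have hk' : 0 < k' := by linarith
  rw [V_eq hk ht, V_eq hk' ht]
  have h3 : 1 / k' ≤ 10 / 9 * (1 / k) := by
    rw [mul_one_div, div_div, div_le_div_iff₀ hk' (by positivity)]
    linarith
  have h4 : 10 / 11 * (1 / k) ≤ 1 / k' := by
    rw [mul_one_div, div_div, div_le_div_iff₀ (by positivity) hk']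
    linarith
  have h5 : 0 < 1 / k := by positivity
  have h6 : 0 < 1 / k' := by positivity
  have h7 : t.im ^ 2 / (1 / k' + t.re) ≤ 6 / 5 * (t.im ^ 2 / (1 / k + t.re)) := by
    have h8 : 10 / 11 * (1 / k + t.re) ≤ 1 / k' + t.re := by linarith
    calc t.im ^ 2 / (1 / k' + t.re) ≤ t.im ^ 2 / (10 / 11 * (1 / k + t.re)) := by gcongr
      _ = 11 / 10 * (t.im ^ 2 / (1 / k + t.re)) := by field_simp
      _ ≤ 6 / 5 * (t.im ^ 2 / (1 / k + t.re)) := by
          have : 0 ≤ t.im ^ 2 / (1 / k + t.re) := by positivity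
          linarith
  linarith

/-- `Re k/(1+tk) = 1/V`. -/
theorem re_div (hk : 0 < k) (ht : 0 ≤ t.re) :
    ((k : ℂ) / (1 + t * (k : ℂ))).re = (V k t)⁻¹ := by
  have h1 := one_le_norm hk ht
  rw [Complex.div_re, re_one_add, im_one_add]
  simp only [Complex.ofReal_re, Complex.ofReal_im, zero_mul, zero_div, add_zero]
  unfold V
  rw [inv_div, Complex.normSq_eq_norm_sq]

/-- The elementary inequality behind the path. -/
theorem inv_V_le_path (hk : 0 < k) (ht : 0 < t.re) (hti : t.im ≤ 0) :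
    (V k t)⁻¹ ≤ 4 * ((t⁻¹).re + cc k t * (t⁻¹).im) := by
  have hD : 0 < t.re ^ 2 + t.im ^ 2 := by positivity
  have hA : (t⁻¹).re = t.re / (t.re ^ 2 + t.im ^ 2) := by
    rw [Complex.inv_re, Complex.normSq_apply]; ring_nf
  have hB : (t⁻¹).im = -t.im / (t.re ^ 2 + t.im ^ 2) := by
    rw [Complex.inv_im, Complex.normSq_apply]; ring_nf
  have hA0 : 0 ≤ (t⁻¹).re := by rw [hA]; positivity
  have hB0 : 0 ≤ (t⁻¹).im := by rw [hB]; exact div_nonneg (by linarith) hD.le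
  have hkey : (V k t)⁻¹ ≤ (t⁻¹).re + (t⁻¹).im ^ 2 / k := by
    rw [V_eq hk ht.le, hA, hB]
    set s : ℝ := 1 / k with hs
    have hs0 : 0 < s := by positivity
    have hks : ∀ x : ℝ, x / k = x * s := fun x => by rw [hs]; ring
    rw [hks]
    set p := t.re with hp
    set e := t.im with he
    have hu : 0 < s + p := by positivity
    have h1 : ((s + p) + e ^ 2 / (s + p))⁻¹ = (s + p) / ((s + p) ^ 2 + e ^ 2) := by
      field_simp
    rw [h1]
    have h2 : p / (p ^ 2 + e ^ 2) + (-e / (p ^ 2 + e ^ 2)) ^ 2 * s =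
        (p * (p ^ 2 + e ^ 2) + e ^ 2 * s) / (p ^ 2 + e ^ 2) ^ 2 := by
      field_simp
    rw [h2, div_le_div_iff₀ (by positivity) (by positivity)]
    have h3 : (p * (p ^ 2 + e ^ 2) + e ^ 2 * s) * ((s + p) ^ 2 + e ^ 2) -
        (s + p) * (p ^ 2 + e ^ 2) ^ 2 = s * (p ^ 2 * (p ^ 2 + e ^ 2) + p * s * (p ^ 2 + e ^ 2) +
        2 * p * e ^ 2 * s + e ^ 2 * s ^ 2) := by ring
    have h4 : 0 ≤ s * (p ^ 2 * (p ^ 2 + e ^ 2) + p * s * (p ^ 2 + e ^ 2) +
        2 * p * e ^ 2 * s + e ^ 2 * s ^ 2) := by positivity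
    linarith
  have hVk := inv_V_le hk ht.le
  unfold cc
  rcases le_total k (t⁻¹).im with h | h
  · rw [min_eq_left]
    · linarith
    · rw [div_le_div_iff₀ (by norm_num) (by positivity)]; linarith
  · rw [min_eq_right]
    · have h5 : 4 * ((t⁻¹).re + (t⁻¹).im / (4 * k) * (t⁻¹).im) =
          4 * (t⁻¹).re + (t⁻¹).im ^ 2 / k := by
        field_simp
      rw [h5]
      linarith
    · rw [div_le_div_iff₀ (by positivity) (by norm_num)]; linarith

theorem inv_im_nonneg (ht : 0 < t.re) (hti : t.im ≤ 0) : 0 ≤ (t⁻¹).im := by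
  rw [Complex.inv_im]
  exact div_nonneg (by linarith) (Complex.normSq_nonneg _)

theorem inv_re_pos (ht : 0 < t.re) : 0 < (t⁻¹).re := by
  rw [Complex.inv_re]
  refine div_pos ht (Complex.normSq_pos.2 ?_)
  rintro rfl
  simp at ht

theorem cc_nonneg (hk : 0 < k) (ht : 0 < t.re) (hti : t.im ≤ 0) : 0 ≤ cc k t := by
  unfold cc
  have := inv_im_nonneg ht hti
  exact le_min (by norm_num) (by positivity)

theorem cc_le (k : ℝ) (t : ℂ) : cc k t ≤ 1 / 4 := min_le_left _ _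

theorem cc_le' (k : ℝ) (t : ℂ) : cc k t ≤ (t⁻¹).im / (4 * k) := min_le_right _ _

end SokalU
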