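import Pool.Agent.Lib_MP_af4de1_u.Sym

/-!
# Choice of the parameters [SU-PAR]

`exists_k`: `k ↦ k exp(τk - τ/2)` is continuous, `0` at `0` and `≥ k exp(-τ/2)`-unbounded: intermediate value theorem; if `k ≤ K`
then `ρ ≤ K exp(τ K)`.
`params`: `τ = -log‖q‖`, `α = arg q`, `q = cexp(-τ + iα)`; `n = ⌊√(2π)σ⌋ ≥ 1`, `Real.exists_rat_abs_sub_le_and_den_le` for `α/(2π)`:
`x = a/N` in lowest terms, `N ≤ n`, `|α/(2π) - a/N| ≤ 1/((n+1)N)`.  `δ = α - 2πa/N`, `t = τ - iδ`: `q = cexp(2πi a/N) cexp(-t)`.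
`N|δ| ≤ 2π/(n+1) ≤ 2π/(√(2π)σ) = √(2π)/σ`, `N² ≤ 2πσ²`, `V = 1/σ² + δ²σ²` (`V_eq`, `1/σ² = 1/k+τ`), so `N²V ≤ 4π`.
`‖zp t k‖ = k exp(τk - τ/2) = ‖z‖`, so `z = zp t k · cexp(iβ)` for some real `β`.
-/

namespace SokalU

open Complex

theorem exists_k {τ ρ : ℝ} (hτ : 0 ≤ τ) (hρ : 0 < ρ) :
    ∃ k : ℝ, 0 < k ∧ k * Real.exp (τ * k - τ / 2) = ρ := by
  set K : ℝ := ρ * Real.exp (τ / 2) with hK
  have hK0 : 0 < K := by positivity
  have hc : ContinuousOn (fun k : ℝ => k * Real.exp (τ * k - τ / 2)) (Set.Icc 0 K) :=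
    Continuous.continuousOn (by fun_prop)
  have h0 : (fun k : ℝ => k * Real.exp (τ * k - τ / 2)) 0 ≤ ρ := by
    simp only [zero_mul]
    exact hρ.le
  have h1 : ρ ≤ (fun k : ℝ => k * Real.exp (τ * k - τ / 2)) K := by
    have e1 : K * Real.exp (τ * K - τ / 2) = ρ * Real.exp (τ * K) := by
      rw [hK, mul_assoc, ← Real.exp_add]
      congr 2
      ring
    change ρ ≤ K * Real.exp (τ * K - τ / 2)
    rw [e1]
    have e2 : 1 ≤ Real.exp (τ * K) := Real.one_le_exp (by positivity)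
    nlinarith
  obtain ⟨k, hk, hkρ⟩ := intermediate_value_Icc hK0.le hc ⟨h0, h1⟩
  refine ⟨k, lt_of_le_of_ne hk.1 ?_, hkρ⟩
  rintro rfl
  simp only [zero_mul] at hkρ
  exact hρ.ne hkρ

theorem k_large {τ ρ k K : ℝ} (hτ : 0 ≤ τ) (hτ1 : τ ≤ 1) (hK : 0 < K) (hk : 0 < k)
    (h : k * Real.exp (τ * k - τ / 2) = ρ) (hρ : K * Real.exp K < ρ) : K < k := by
  by_contra hle
  push Not at hle
  have h1 : τ * k - τ / 2 ≤ K := by nlinarith
  have h2 := Real.exp_le_exp.2 h1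
  have h3 : k * Real.exp (τ * k - τ / 2) ≤ K * Real.exp K :=
    mul_le_mul hle h2 (Real.exp_pos _).le hK.le
  linarith

theorem params (q z : ℂ) (hq : q ≠ 0) (hq1 : ‖q‖ ≤ 1) (k σ : ℝ) (hk : 0 < k)
    (hkz : k * Real.exp (-Real.log ‖q‖ * k - -Real.log ‖q‖ / 2) = ‖z‖) (hσ0 : 0 < σ)
    (hσ : 1 / σ ^ 2 = 1 / k + -Real.log ‖q‖) (hσ1 : 1 ≤ √(2 * Real.pi) * σ) :
    ∃ (N : ℕ) (a : ℤ) (t : ℂ) (β : ℝ), 0 < N ∧ IsCoprime a (N : ℤ) ∧ t.re = -Real.log ‖q‖ ∧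
      q = cexp (2 * Real.pi * I * a / N) * cexp (-t) ∧ z = zp t k * cexp (β * I) ∧
      (N : ℝ) ^ 2 * V k t ≤ 4 * Real.pi ∧ |t.im| * σ ≤ √(2 * Real.pi) := by
  have hπ := Real.pi_pos
  have hqn : 0 < ‖q‖ := norm_pos_iff.2 hq
  set τ : ℝ := -Real.log ‖q‖ with hτ
  have hτ0 : 0 ≤ τ := by
    rw [hτ, neg_nonneg]
    exact Real.log_nonpos hqn.le hq1
  set α : ℝ := Complex.arg q with hα
  set n : ℕ := ⌊√(2 * Real.pi) * σ⌋₊ with hn
  have hs0 : 0 < √(2 * Real.pi) := Real.sqrt_pos.2 (by positivity)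
  have hss : √(2 * Real.pi) ^ 2 = 2 * Real.pi := Real.sq_sqrt (by positivity)
  have hn1 : 0 < n := Nat.floor_pos.2 hσ1
  have hnle : (n : ℝ) ≤ √(2 * Real.pi) * σ := Nat.floor_le (by positivity)
  have hnlt : √(2 * Real.pi) * σ < n + 1 := Nat.lt_floor_add_one _
  obtain ⟨r, hr1, hr2⟩ := Real.exists_rat_abs_sub_le_and_den_le (α / (2 * Real.pi)) hn1
  have hN0 : 0 < r.den := r.pos
  have hNr : (0 : ℝ) < (r.den : ℝ) := by exact_mod_cast hN0
  have hN1 : (1 : ℝ) ≤ (r.den : ℝ) := by exact_mod_cast hN0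
  have hrr : (r : ℝ) = (r.num : ℝ) / (r.den : ℝ) := by
    rw [Rat.cast_def]
  set δ : ℝ := α - 2 * Real.pi * ((r.num : ℝ) / (r.den : ℝ)) with hδ
  have hδle : (r.den : ℝ) * |δ| ≤ √(2 * Real.pi) / σ := by
    have h1 : δ = 2 * Real.pi * (α / (2 * Real.pi) - r) := by
      rw [hδ, hrr]
      field_simp
    rw [h1, abs_mul, abs_of_pos (by positivity : (0 : ℝ) < 2 * Real.pi)]
    have h2 : (r.den : ℝ) * (2 * Real.pi * |α / (2 * Real.pi) - r|) ≤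
        (r.den : ℝ) * (2 * Real.pi * (1 / ((n + 1) * r.den))) := by
      gcongr
    refine h2.trans ?_
    have h3 : (r.den : ℝ) * (2 * Real.pi * (1 / ((n + 1) * r.den))) = 2 * Real.pi / (n + 1) := by
      field_simp
    rw [h3, div_le_div_iff₀ (by positivity) hσ0]
    calc 2 * Real.pi * σ = √(2 * Real.pi) * (√(2 * Real.pi) * σ) := by
          rw [← mul_assoc, ← sq, hss]
      _ ≤ √(2 * Real.pi) * (n + 1) := mul_le_mul_of_nonneg_left hnlt.le hs0.le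
  set t : ℂ := (τ : ℂ) - (δ : ℂ) * I with ht
  have htre : t.re = τ := by simp [ht]
  have htim : t.im = -δ := by simp [ht]
  have hnormzp : ‖zp t k‖ = ‖z‖ := by
    unfold zp
    rw [norm_mul, Complex.norm_real, Real.norm_of_nonneg hk.le, Complex.norm_exp]
    have h1 : (t * (k : ℂ) - t / 2).re = τ * k - τ / 2 := by
      have h2 : (t / 2).re = t.re / 2 := by
        rw [show (2 : ℂ) = ((2 : ℝ) : ℂ) by norm_num, Complex.div_ofReal_re]
      rw [Complex.sub_re, h2, Complex.re_mul_ofReal, htre]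
    rw [h1]
    exact hkz
  have hzp0 : zp t k ≠ 0 := by
    unfold zp
    exact mul_ne_zero (by exact_mod_cast hk.ne') (Complex.exp_ne_zero _)
  refine ⟨r.den, r.num, t, Complex.arg (z / zp t k), hN0, ?_, htre, ?_, ?_, ?_, ?_⟩
  · rw [Int.isCoprime_iff_gcd_eq_one]
    have := r.reduced
    rw [Int.gcd_def, Int.natAbs_natCast]
    exact this
  · have h1 : q = (‖q‖ : ℂ) * cexp (α * I) := (Complex.norm_mul_exp_arg_mul_I q).symm
    have h2 : (‖q‖ : ℂ) = cexp (-(τ : ℂ)) := by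
      rw [hτ]
      push_cast
      rw [neg_neg, ← Complex.ofReal_exp, Real.exp_log hqn]
    rw [← Complex.exp_add]
    conv_lhs => rw [h1, h2, ← Complex.exp_add]
    congr 1
    rw [ht, hδ]
    push_cast
    ring
  · have h1 : z / zp t k = (‖z / zp t k‖ : ℂ) * cexp (Complex.arg (z / zp t k) * I) :=
      (Complex.norm_mul_exp_arg_mul_I _).symm
    have h2 : ‖z / zp t k‖ = 1 := by
      rw [norm_div, hnormzp]
      have h3 : ‖z‖ ≠ 0 := by
        rw [← hnormzp]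
        exact (norm_pos_iff.2 hzp0).ne'
      exact div_self h3
    rw [h2, Complex.ofReal_one, one_mul] at h1
    rw [← h1]
    field_simp
  · rw [V_eq hk (by rw [htre]; exact hτ0), htre, ← hσ, htim]
    have h1 : (r.den : ℝ) ^ 2 * (1 / σ ^ 2 + (-δ) ^ 2 / (1 / σ ^ 2)) =
        (r.den : ℝ) ^ 2 / σ ^ 2 + ((r.den : ℝ) * |δ|) ^ 2 * σ ^ 2 := by
      rw [mul_pow, sq_abs]
      field_simp
    rw [h1]
    have hden : (r.den : ℝ) ≤ √(2 * Real.pi) * σ := le_trans (by exact_mod_cast hr2) hnle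
    have h2 : (r.den : ℝ) ^ 2 / σ ^ 2 ≤ 2 * Real.pi := by
      rw [div_le_iff₀ (by positivity)]
      calc (r.den : ℝ) ^ 2 ≤ (√(2 * Real.pi) * σ) ^ 2 := pow_le_pow_left₀ hNr.le hden 2
        _ = 2 * Real.pi * σ ^ 2 := by rw [mul_pow, hss]
    have h3 : ((r.den : ℝ) * |δ|) ^ 2 * σ ^ 2 ≤ 2 * Real.pi := by
      calc ((r.den : ℝ) * |δ|) ^ 2 * σ ^ 2 ≤ (√(2 * Real.pi) / σ) ^ 2 * σ ^ 2 :=
            mul_le_mul_of_nonneg_right (pow_le_pow_left₀ (by positivity) hδle 2) (by positivity)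
        _ = 2 * Real.pi := by
            rw [div_pow, hss]
            field_simp
    linarith
  · rw [htim, abs_neg]
    have h1 : |δ| ≤ √(2 * Real.pi) / σ := by
      refine le_trans ?_ hδle
      have := abs_nonneg δ
      nlinarith
    rwa [le_div_iff₀ hσ0] at h1

end SokalU
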