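import Pool.Agent.Lib_MP_af4de1_u.Lifts

/-!
# Roots of unity: all large zeros are simple [SU-ROOT]

`q = cexp(2πi a/N)` in lowest terms (`Complex.isPrimitiveRoot_iff`), `lifts` with `t = 0` (`E 0 z = cexp z`, `DE 0 z = z cexp z`):
`F q z = ∑ g_m exp(ζ_m z)`, `z F q (qz) = ∑ g_m ζ_m z exp(ζ_m z)`, `‖g_m‖ = g0`.  `N = 1`: `F q z = g exp(ζz) ≠ 0`.  `N ≥ 2`: write
`z = r e^{iβ}`; `arg(ζ_m z) = η_m := β + 2π(m+ε)/N`, window of `N` consecutive `m` with `η_m ∈ [-π, π)`; `h = 2π/N`, `|η_μ| ≤ h/2` for the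
nearest `μ`, `ν` the second nearest (`|η_ν| ≤ h`), all others have `|η_m| ≥ h`, so `‖T_m‖ ≤ g0 e^{r cos h} ≤ e^{-r(cos(h/2)-cos h)}‖T_μ‖`.
`0 = ∑(ζ_m z - ζ_ν z)T_m` gives `2r sin(h/2)‖T_μ‖ ≤ N · 2r · e^{-r(cos(h/2) - cos h)}‖T_μ‖`: impossible for large `r`.
(For `N = 2`, `h = π`, there are no other terms.)
-/

namespace SokalU

open Complex

private theorem RootUnity_re (θ : ℝ) (z : ℂ) :
    (cexp ((θ : ℂ) * I) * z).re = ‖z‖ * Real.cos (θ + arg z) := by
  have h : cexp ((θ : ℂ) * I) * z = (‖z‖ : ℂ) * cexp (((θ + arg z : ℝ) : ℂ) * I) := by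
    conv_lhs => rw [← Complex.norm_mul_exp_arg_mul_I z]
    push_cast
    rw [add_mul, Complex.exp_add]
    ring
  rw [h, Complex.re_ofReal_mul, Complex.exp_ofReal_mul_I_re]

private theorem RootUnity_E (z : ℂ) : E 0 z = cexp z := by
  unfold E SokalF.F
  rw [neg_zero, Complex.exp_zero, Complex.exp_eq_exp_ℂ, NormedSpace.exp_eq_tsum_div]
  refine tsum_congr fun k => ?_
  rw [one_pow, one_mul]

private theorem RootUnity_DE (z : ℂ) : DE 0 z = z * cexp z := by
  unfold DE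
  rw [neg_zero, Complex.exp_zero, one_mul, RootUnity_E]

/-- `cos η ≤ cos h` for `η ∈ [h, 2π - h]`. -/
private theorem RootUnity_cos {h η : ℝ} (h0 : 0 ≤ h) (hπ : h ≤ Real.pi) (h1 : h ≤ η)
    (h2 : η ≤ 2 * Real.pi - h) : Real.cos η ≤ Real.cos h := by
  rcases le_total η Real.pi with h3 | h3
  · exact Real.cos_le_cos_of_nonneg_of_le_pi h0 h3 h1
  · rw [← Real.cos_two_pi_sub η]
    exact Real.cos_le_cos_of_nonneg_of_le_pi h0 (by linarith) (by linarith)

/-- The main estimate: two consecutive terms, the first or the second is the large one. -/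
private theorem RootUnity_key {N : ℕ} (hN : 2 ≤ N) (g : ℤ → ℂ) {g0 : ℝ} (hg0 : 0 < g0)
    (hg : ∀ m, ‖g m‖ = g0) (θ : ℤ → ℝ) (hθ : ∀ m n : ℤ, θ n = θ m + (n - m) * (2 * Real.pi / N))
    (z : ℂ) (m0 : ℤ)
    (h1 : ∑ m ∈ Finset.Ico m0 (m0 + N), g m * cexp (cexp ((θ m : ℂ) * I) * z) = 0)
    (h2 : ∑ m ∈ Finset.Ico m0 (m0 + N), g m *
      ((cexp ((θ m : ℂ) * I) * z) * cexp (cexp ((θ m : ℂ) * I) * z)) = 0)
    (hm1 : -(2 * Real.pi / N) ≤ θ m0 + arg z) (hm2 : θ m0 + arg z ≤ 0)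
    (μ ν : ℤ) (hμ : μ ∈ Finset.Ico m0 (m0 + N)) (hμν : |(μ : ℝ) - ν| = 1)
    (hoth : ∀ m ∈ Finset.Ico m0 (m0 + N), m ≠ μ → m ≠ ν → m0 + 2 ≤ m)
    (hμ2 : |θ μ + arg z| ≤ (2 * Real.pi / N) / 2) (hz : z ≠ 0) :
    Real.sin (2 * Real.pi / N / 2) * Real.exp (‖z‖ * (Real.cos (2 * Real.pi / N / 2)
      - Real.cos (2 * Real.pi / N))) ≤ N := by
  have hπ := Real.pi_pos
  have hNpos : (0 : ℝ) < N := by positivity
  have hN2 : (2 : ℝ) ≤ N := by exact_mod_cast hN
  set h : ℝ := 2 * Real.pi / N with hh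
  have hh0 : 0 < h := by positivity
  have hhπ : h ≤ Real.pi := by
    rw [hh, div_le_iff₀ hNpos]
    nlinarith
  have hNh : N * h = 2 * Real.pi := by
    rw [hh]; field_simp
  have hr : 0 < ‖z‖ := norm_pos_iff.2 hz
  set w : ℤ → ℂ := fun m => cexp ((θ m : ℂ) * I) * z with hw
  have hwn : ∀ m, ‖w m‖ = ‖z‖ := by
    intro m
    rw [hw]
    simp only [norm_mul, Complex.norm_exp_ofReal_mul_I, one_mul]
  have hT : ∀ m, ‖g m * cexp (w m)‖ = g0 * Real.exp (‖z‖ * Real.cos (θ m + arg z)) := by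
    intro m
    rw [norm_mul, hg, Complex.norm_exp, hw, RootUnity_re]
  -- the combination
  have h3 : ∑ m ∈ Finset.Ico m0 (m0 + N), (w m - w ν) * (g m * cexp (w m)) = 0 := by
    have h4 : ∀ m, (w m - w ν) * (g m * cexp (w m))
        = g m * (w m * cexp (w m)) - w ν * (g m * cexp (w m)) := fun m => by ring
    simp only [h4, Finset.sum_sub_distrib, ← Finset.mul_sum]
    rw [h1, h2]
    ring
  have h5 : (w μ - w ν) * (g μ * cexp (w μ))
      = - ∑ m ∈ (Finset.Ico m0 (m0 + N)).erase μ, (w m - w ν) * (g m * cexp (w m)) := by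
    rw [← Finset.add_sum_erase _ _ hμ] at h3
    exact eq_neg_of_add_eq_zero_left h3
  have h6 : ∀ m ∈ (Finset.Ico m0 (m0 + N)).erase μ,
      ‖(w m - w ν) * (g m * cexp (w m))‖ ≤ 2 * ‖z‖ * (g0 * Real.exp (‖z‖ * Real.cos h)) := by
    intro m hm
    rw [Finset.mem_erase] at hm
    by_cases hmν : m = ν
    · rw [hmν, sub_self, zero_mul, norm_zero]
      positivity
    · rw [norm_mul, hT]
      have h7 := hoth m hm.2 hm.1 hmν
      have h8 := (Finset.mem_Ico.1 hm.2).2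
      have h9 : ‖w m - w ν‖ ≤ 2 * ‖z‖ := by
        refine (norm_sub_le _ _).trans ?_
        rw [hwn, hwn]
        linarith
      have h10 : Real.cos (θ m + arg z) ≤ Real.cos h := by
        have h7' : (2 : ℝ) ≤ (m : ℝ) - m0 := by
          have : ((m0 + 2 : ℤ) : ℝ) ≤ m := by exact_mod_cast h7
          push_cast at this
          linarith
        have h8' : (m : ℝ) - m0 ≤ N - 1 := by
          have : ((m + 1 : ℤ) : ℝ) ≤ ((m0 + N : ℤ) : ℝ) := by exact_mod_cast h8
          push_cast at this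
          linarith
        rw [hθ m0 m]
        apply RootUnity_cos hh0.le hhπ
        · nlinarith
        · nlinarith
      gcongr
  have h11 : ‖(w μ - w ν) * (g μ * cexp (w μ))‖
      ≤ N * (2 * ‖z‖ * (g0 * Real.exp (‖z‖ * Real.cos h))) := by
    rw [h5, norm_neg]
    refine (norm_sum_le_of_le _ h6).trans ?_
    rw [Finset.sum_const, nsmul_eq_mul]
    have h12 : ((Finset.Ico m0 (m0 + (N : ℤ))).erase μ).card ≤ N := by
      refine (Finset.card_erase_le).trans ?_
      simp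
    have h13 : ((((Finset.Ico m0 (m0 + (N : ℤ))).erase μ).card : ℕ) : ℝ) ≤ N := by
      exact_mod_cast h12
    exact mul_le_mul_of_nonneg_right h13 (by positivity)
  have h14 : ‖w μ - w ν‖ = ‖z‖ * (2 * Real.sin (h / 2)) := by
    have h15 : w μ - w ν = (cexp ((θ μ : ℂ) * I) - cexp ((θ ν : ℂ) * I)) * z := by
      rw [hw]; ring
    have h16 : ‖cexp ((θ μ : ℂ) * I) - cexp ((θ ν : ℂ) * I)‖ = 2 * Real.sin (h / 2) := by
      have h17 : cexp ((θ μ : ℂ) * I) - cexp ((θ ν : ℂ) * I)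
          = cexp ((((θ μ + θ ν) / 2 : ℝ) : ℂ) * I) *
            (2 * (Real.sin ((θ μ - θ ν) / 2) : ℂ) * I) := by
        rw [Complex.ofReal_sin, Complex.sin]
        push_cast
        have h18 : cexp ((θ μ : ℂ) * I) = cexp (((θ μ : ℂ) + θ ν) / 2 * I) *
            cexp (((θ μ : ℂ) - θ ν) / 2 * I) := by
          rw [← Complex.exp_add]; congr 1; ring
        have h19 : cexp ((θ ν : ℂ) * I) = cexp (((θ μ : ℂ) + θ ν) / 2 * I) *
            cexp (-(((θ μ : ℂ) - θ ν) / 2) * I) := by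
          rw [← Complex.exp_add]; congr 1; ring
        rw [h18, h19]
        have h20 := Complex.I_mul_I
        linear_combination (-(cexp (((θ μ : ℂ) + θ ν) / 2 * I)) *
          (cexp (-(((θ μ : ℂ) - θ ν) / 2) * I) - cexp (((θ μ : ℂ) - θ ν) / 2 * I))) * h20
      rw [h17, norm_mul, Complex.norm_exp_ofReal_mul_I, one_mul, norm_mul, norm_mul,
        Complex.norm_I, mul_one, Complex.norm_ofNat, Complex.norm_real, Real.norm_eq_abs]
      congr 1
      rw [hθ ν μ]
      have h21 : (θ ν + ((μ : ℝ) - ν) * h - θ ν) / 2 = ((μ : ℝ) - ν) * (h / 2) := by ring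
      rw [h21]
      have h22 : 0 ≤ Real.sin (h / 2) :=
        Real.sin_nonneg_of_nonneg_of_le_pi (by positivity) (by linarith)
      rcases (abs_eq (zero_le_one)).1 hμν with h23 | h23
      · rw [h23, one_mul, abs_of_nonneg h22]
      · rw [h23, neg_one_mul, Real.sin_neg, abs_neg, abs_of_nonneg h22]
    rw [h15, norm_mul, h16, mul_comm]
  rw [norm_mul, h14, hT] at h11
  have h24 : Real.cos (h / 2) ≤ Real.cos (θ μ + arg z) := by
    rw [← Real.cos_abs (θ μ + arg z)]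
    exact Real.cos_le_cos_of_nonneg_of_le_pi (abs_nonneg _) (by linarith) hμ2
  have h25 : 0 < Real.sin (h / 2) :=
    Real.sin_pos_of_pos_of_lt_pi (by positivity) (by linarith)
  have h26 : ‖z‖ * (2 * Real.sin (h / 2)) * (g0 * Real.exp (‖z‖ * Real.cos (h / 2)))
      ≤ N * (2 * ‖z‖ * (g0 * Real.exp (‖z‖ * Real.cos h))) := by
    refine le_trans ?_ h11
    gcongr
  have h27 : Real.exp (‖z‖ * (Real.cos (h / 2) - Real.cos h))
      = Real.exp (‖z‖ * Real.cos (h / 2)) / Real.exp (‖z‖ * Real.cos h) := by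
    rw [← Real.exp_sub]; congr 1; ring
  rw [h27, ← mul_div_assoc, div_le_iff₀ (Real.exp_pos _)]
  have h28 : 0 < 2 * ‖z‖ * g0 := by positivity
  have h29 : 2 * ‖z‖ * g0 * (Real.sin (h / 2) * Real.exp (‖z‖ * Real.cos (h / 2)))
      ≤ 2 * ‖z‖ * g0 * (N * Real.exp (‖z‖ * Real.cos h)) := by
    calc _ = ‖z‖ * (2 * Real.sin (h / 2)) * (g0 * Real.exp (‖z‖ * Real.cos (h / 2))) := by ring
      _ ≤ _ := h26
      _ = _ := by ring
  exact le_of_mul_le_mul_left h29 h28

theorem rootUnity (q : ℂ) (hq : ∃ n : ℕ, 0 < n ∧ q ^ n = 1) : ∃ R : ℝ, ∀ z : ℂ,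
    SokalF.F q z = 0 → SokalF.F q (q * z) = 0 → ‖z‖ ≤ R := by
  obtain ⟨n, hn, hqn⟩ := hq
  have hfin : IsOfFinOrder q := isOfFinOrder_iff_pow_eq_one.2 ⟨n, hn, hqn⟩
  obtain ⟨N, hN⟩ : ∃ N, N = orderOf q := ⟨_, rfl⟩
  have hN0 : 0 < N := by rw [hN]; exact hfin.orderOf_pos
  have hprim : IsPrimitiveRoot q N := by rw [hN]; exact IsPrimitiveRoot.orderOf q
  obtain ⟨i, _, hcop, hexp⟩ := (Complex.isPrimitiveRoot_iff q N hN0.ne').1 hprim
  have ha : IsCoprime (i : ℤ) (N : ℤ) := Nat.isCoprime_iff_coprime.2 hcop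
  obtain ⟨g, ε, g0, hg0, hg, hlift⟩ := lifts N hN0 (i : ℤ) ha
  have hq2 : cexp (2 * Real.pi * I * ((i : ℤ) : ℂ) / N) * cexp (-0) = q := by
    rw [← hexp, neg_zero, Complex.exp_zero, mul_one]
    congr 1
    push_cast
    ring
  have hN0' : (N : ℂ) ≠ 0 := by exact_mod_cast hN0.ne'
  set θ : ℤ → ℝ := fun m => 2 * Real.pi * (m + ε) / N with hθdef
  have hcast : ∀ m : ℤ, (2 * Real.pi * ((m : ℂ) + ε) / N * I : ℂ) = (θ m : ℂ) * I := by
    intro m
    rw [hθdef]
    push_cast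
    ring
  have hF : ∀ (z : ℂ) (m0 : ℤ), SokalF.F q z =
      ∑ m ∈ Finset.Ico m0 (m0 + N), g m * cexp (cexp ((θ m : ℂ) * I) * z) := by
    intro z m0
    have h1 := (hlift 0 z m0 le_rfl).1
    rw [hq2] at h1
    simp only [RootUnity_E, hcast] at h1
    exact h1
  have hD : ∀ (z : ℂ) (m0 : ℤ), z * SokalF.F q (q * z) =
      ∑ m ∈ Finset.Ico m0 (m0 + N), g m *
        ((cexp ((θ m : ℂ) * I) * z) * cexp (cexp ((θ m : ℂ) * I) * z)) := by
    intro z m0
    have h1 := (hlift 0 z m0 le_rfl).2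
    rw [hq2] at h1
    simp only [RootUnity_DE, hcast] at h1
    exact h1
  rcases Nat.lt_or_ge N 2 with hN1 | hN2
  · obtain rfl : N = 1 := by omega
    refine ⟨0, fun z hz _ => ?_⟩
    exfalso
    rw [hF z 0] at hz
    have h1 : Finset.Ico (0 : ℤ) (0 + (1 : ℕ)) = {0} := by rfl
    rw [h1, Finset.sum_singleton] at hz
    rcases mul_eq_zero.1 hz with h2 | h2
    · have h3 := hg 0
      rw [h2, norm_zero] at h3
      exact hg0.ne h3
    · exact Complex.exp_ne_zero _ h2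
  · have hπ := Real.pi_pos
    have hNpos : (0 : ℝ) < N := by positivity
    have hN2' : (2 : ℝ) ≤ N := by exact_mod_cast hN2
    set h : ℝ := 2 * Real.pi / N with hh
    have hh0 : 0 < h := by positivity
    have hhπ : h ≤ Real.pi := by
      rw [hh, div_le_iff₀ hNpos]
      nlinarith
    have hsin : 0 < Real.sin (h / 2) :=
      Real.sin_pos_of_pos_of_lt_pi (by positivity) (by linarith)
    have hcos : 0 < Real.cos (h / 2) - Real.cos h :=
      sub_pos.2 (Real.cos_lt_cos_of_nonneg_of_le_pi (by positivity) hhπ (by linarith))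
    have hθ : ∀ m n : ℤ, θ n = θ m + (n - m) * (2 * Real.pi / N) := by
      intro m n
      simp only [hθdef]
      field_simp
      ring
    refine ⟨N / (Real.sin (h / 2) * (Real.cos (h / 2) - Real.cos h)), fun z hz1 hz2 => ?_⟩
    by_cases hz : z = 0
    · rw [hz, norm_zero]
      positivity
    -- the window
    set m0 : ℤ := ⌊-(θ 0 + arg z) / h⌋ with hm0
    have hm1 : θ m0 + arg z ≤ 0 := by
      have h1 : (m0 : ℝ) ≤ -(θ 0 + arg z) / h := Int.floor_le _
      rw [le_div_iff₀ hh0] at h1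
      rw [hθ 0 m0]
      push_cast
      rw [← hh]
      linarith
    have hm2 : -h ≤ θ m0 + arg z := by
      have h1 : -(θ 0 + arg z) / h < m0 + 1 := Int.lt_floor_add_one _
      rw [div_lt_iff₀ hh0] at h1
      rw [hθ 0 m0]
      push_cast
      rw [← hh]
      linarith
    have h1 : ∑ m ∈ Finset.Ico m0 (m0 + N), g m * cexp (cexp ((θ m : ℂ) * I) * z) = 0 := by
      rw [← hF, hz1]
    have h2 : ∑ m ∈ Finset.Ico m0 (m0 + N), g m *
        ((cexp ((θ m : ℂ) * I) * z) * cexp (cexp ((θ m : ℂ) * I) * z)) = 0 := by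
      rw [← hD, hz2, mul_zero]
    have hkey : Real.sin (h / 2) * Real.exp (‖z‖ * (Real.cos (h / 2) - Real.cos h)) ≤ N := by
      rcases le_total (-(h / 2)) (θ m0 + arg z) with hc | hc
      · refine RootUnity_key hN2 g hg0 hg θ hθ z m0 h1 h2 hm2 hm1 m0 (m0 + 1) ?_ ?_ ?_ ?_ hz
        · rw [Finset.mem_Ico]
          omega
        · push_cast
          rw [show (m0 : ℝ) - (m0 + 1) = -1 by ring, abs_neg, abs_one]
        · intro m hm h3 h4
          rw [Finset.mem_Ico] at hm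
          omega
        · rw [abs_le]
          constructor
          · exact hc
          · linarith
      · refine RootUnity_key hN2 g hg0 hg θ hθ z m0 h1 h2 hm2 hm1 (m0 + 1) m0 ?_ ?_ ?_ ?_ hz
        · rw [Finset.mem_Ico]
          omega
        · push_cast
          rw [show (m0 : ℝ) + 1 - m0 = 1 by ring, abs_one]
        · intro m hm h3 h4
          rw [Finset.mem_Ico] at hm
          omega
        · have h5 : θ (m0 + 1) = θ m0 + h := by
            rw [hθ m0 (m0 + 1)]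
            push_cast
            ring
          rw [h5, abs_le]
          constructor
          · linarith
          · linarith
    have h6 : ‖z‖ * (Real.cos (h / 2) - Real.cos h)
        ≤ Real.exp (‖z‖ * (Real.cos (h / 2) - Real.cos h)) := by
      have := Real.add_one_le_exp (‖z‖ * (Real.cos (h / 2) - Real.cos h))
      linarith
    rw [le_div_iff₀ (by positivity)]
    calc ‖z‖ * (Real.sin (h / 2) * (Real.cos (h / 2) - Real.cos h))
        = Real.sin (h / 2) * (‖z‖ * (Real.cos (h / 2) - Real.cos h)) := by ring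
      _ ≤ Real.sin (h / 2) * Real.exp (‖z‖ * (Real.cos (h / 2) - Real.cos h)) :=
          mul_le_mul_of_nonneg_left h6 hsin.le
      _ ≤ N := hkey

end SokalU
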