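import Pool.Agent.Lib_MP_af4de1_u.Core
import Pool.Agent.Lib_MP_af4de1_u.Param
import Pool.Agent.Lib_MP_af4de1_u.RootUnity

/-!
# Large multiple zeros: the two main statements
-/

namespace SokalU

open Complex

/-- `‖e^{-t} - 1‖ ≤ 2‖t‖` for `‖t‖ ≤ 1`. -/
theorem norm_exp_neg_sub_one_le {t : ℂ} (ht : ‖t‖ ≤ 1) : ‖cexp (-t) - 1‖ ≤ 2 * ‖t‖ := by
  have := Complex.norm_exp_sub_one_le (x := -t) (by rwa [norm_neg])
  rwa [norm_neg] at this

theorem norm_omega (N : ℕ) (a : ℤ) : ‖cexp (2 * Real.pi * I * a / N)‖ = 1 := by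
  have : (2 * Real.pi * I * a / N : ℂ) = ((2 * Real.pi * a / N : ℝ) : ℂ) * I := by
    push_cast; ring
  rw [this, Complex.norm_exp_ofReal_mul_I]

theorem omega_pow {N : ℕ} (hN : 0 < N) (a : ℤ) : cexp (2 * Real.pi * I * a / N) ^ N = 1 := by
  have hN' : (N : ℂ) ≠ 0 := by exact_mod_cast hN.ne'
  rw [← Complex.exp_nat_mul]
  have : (N : ℂ) * (2 * Real.pi * I * a / N) = a * (2 * Real.pi * I) := by
    field_simp
  rw [this, Complex.exp_int_mul, Complex.exp_two_pi_mul_I, one_zpow]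

/-- Near the circle and away from the roots of unity of order `< N0` there are no large multiple
zeros. -/
theorem mainA : ∃ N0 : ℕ, 0 < N0 ∧ ∀ ε : ℝ, 0 < ε → ∃ r : ℝ, r < 1 ∧ ∃ R : ℝ, ∀ q z : ℂ,
    r ≤ ‖q‖ → 0 < ‖q‖ → ‖q‖ ≤ 1 → R ≤ ‖z‖ →
    (∀ (n : ℕ) (ξ : ℂ), 0 < n → n < N0 → ξ ^ n = 1 → ε ≤ ‖q - ξ‖) →
    SokalF.F q z = 0 → SokalF.F q (q * z) = 0 → False := by
  obtain ⟨N0, hN0, hcore⟩ := core
  refine ⟨N0, hN0, fun ε hε => ?_⟩
  obtain ⟨δ, hδ, hδ1, hδε⟩ : ∃ δ : ℝ, 0 < δ ∧ δ ≤ 1 / 16 ∧ 8 * δ < ε := by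
    refine ⟨min (1 / 16) (ε / 16), by positivity, min_le_left _ _, ?_⟩
    have := min_le_right (1 / 16) (ε / 16)
    linarith
  refine ⟨Real.exp (-(δ ^ 2 / 2)), Real.exp_lt_one_iff.2 (by nlinarith [sq_nonneg δ, pow_pos hδ 2]),
    2 / δ ^ 2 * Real.exp (2 / δ ^ 2) + 1, ?_⟩
  intro q z hqr hq0 hq1 hz hroot hF hF'
  have hqne : q ≠ 0 := norm_pos_iff.1 hq0
  set τ : ℝ := -Real.log ‖q‖ with hτdef
  have hτ0 : 0 ≤ τ := by
    rw [hτdef]
    have := Real.log_nonpos hq0.le hq1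
    linarith
  have hτ1 : τ ≤ δ ^ 2 / 2 := by
    rw [hτdef]
    have := Real.log_le_log (Real.exp_pos _) hqr
    rw [Real.log_exp] at this
    linarith
  have hδ2 : δ ^ 2 ≤ 1 := by nlinarith
  have hK : 0 < 2 / δ ^ 2 := by positivity
  have hzpos : 0 < ‖z‖ := by
    have : 0 < 2 / δ ^ 2 * Real.exp (2 / δ ^ 2) := by positivity
    linarith
  obtain ⟨k, hk, hkz⟩ := exists_k hτ0 hzpos
  have hkK : 2 / δ ^ 2 < k := k_large hτ0 (by linarith) hK hk hkz (by linarith)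
  have hs0 : 0 < 1 / k + τ := by positivity
  have hs1 : 1 / k + τ ≤ δ ^ 2 := by
    have : 1 / k ≤ δ ^ 2 / 2 := by
      rw [div_lt_iff₀ (by positivity)] at hkK
      rw [div_le_iff₀ hk]
      linarith
    linarith
  set σ : ℝ := 1 / √(1 / k + τ) with hσdef
  have hsq : 0 < √(1 / k + τ) := Real.sqrt_pos.2 hs0
  have hσ0 : 0 < σ := by positivity
  have hσ : 1 / σ ^ 2 = 1 / k + τ := by
    rw [hσdef, div_pow, one_pow, one_div_one_div, Real.sq_sqrt hs0.le]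
  have hsqδ : √(1 / k + τ) ≤ δ := by
    rw [Real.sqrt_le_left hδ.le]
    exact hs1
  have hσδ : 1 ≤ δ * σ := by
    rw [hσdef, mul_one_div, le_div_iff₀ hsq]
    linarith
  have hpi := Real.pi_gt_three
  have h2pi : 1 ≤ √(2 * Real.pi) := by
    rw [Real.one_le_sqrt]; linarith
  have h2pi' : √(2 * Real.pi) ≤ 3 := by
    rw [Real.sqrt_le_left (by norm_num)]
    have := Real.pi_lt_d2
    linarith
  have hσ1 : 1 ≤ √(2 * Real.pi) * σ := by nlinarith
  obtain ⟨N, a, t, β, hN, ha, htre, hq, hzz, hNV, him⟩ :=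
    params q z hqne hq1 k σ hk hkz hσ0 hσ hσ1
  have htre0 : 0 ≤ t.re := by rw [htre]; exact hτ0
  rcases le_or_gt N0 N with hle | hlt
  · refine hcore N a t k β hle ha htre0 hk hNV ?_ ?_
    · rw [← hq, ← hzz]; exact hF
    · rw [← hq, ← hzz]; exact hF'
  · have h1 := hroot N (cexp (2 * Real.pi * I * a / N)) hN hlt (omega_pow hN a)
    have h2 : |t.im| ≤ 3 * δ := by
      have h3 : |t.im| * σ ≤ (3 * δ) * σ := by nlinarith
      exact le_of_mul_le_mul_right h3 hσ0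
    have h3 : ‖t‖ ≤ 4 * δ := by
      have := Complex.norm_le_abs_re_add_abs_im t
      rw [abs_of_nonneg htre0, htre] at this
      nlinarith
    have h4 : ‖q - cexp (2 * Real.pi * I * a / N)‖ ≤ 8 * δ := by
      have : q - cexp (2 * Real.pi * I * a / N) =
        cexp (2 * Real.pi * I * a / N) * (cexp (-t) - 1) := by rw [hq]; ring
      rw [this, norm_mul, norm_omega, one_mul]
      have := norm_exp_neg_sub_one_le (t := t) (by linarith)
      linarith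
    linarith

/-- For every `q` with `0 < |q| ≤ 1` the multiple zeros of `F(.;q)` are bounded. -/
theorem mainB (q : ℂ) (hq0 : 0 < ‖q‖) (hq1 : ‖q‖ ≤ 1) : ∃ R : ℝ, ∀ z : ℂ,
    SokalF.F q z = 0 → SokalF.F q (q * z) = 0 → ‖z‖ ≤ R := by
  rcases hq1.lt_or_eq with hlt | heq
  · obtain ⟨R, hR⟩ := SokalF.large_bound hlt
    exact ⟨R, fun z h1 h2 => hR q z hq0 le_rfl h1 h2⟩
  · by_cases hroot : ∃ n : ℕ, 0 < n ∧ q ^ n = 1
    · exact rootUnity q hroot
    · push Not at hroot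
      obtain ⟨N0, hN0, hA⟩ := mainA
      have hfin : {ξ : ℂ | ∃ n : ℕ, 0 < n ∧ n < N0 ∧ ξ ^ n = 1}.Finite := by
        have : {ξ : ℂ | ∃ n : ℕ, 0 < n ∧ n < N0 ∧ ξ ^ n = 1} ⊆
            ⋃ n ∈ Finset.Ioo 0 N0, ((Polynomial.nthRootsFinset n (1 : ℂ) : Finset ℂ) : Set ℂ) := by
          rintro ξ ⟨n, h1, h2, h3⟩
          refine Set.mem_biUnion (x := n) (by simpa using ⟨h1, h2⟩) ?_
          simpa [Polynomial.mem_nthRootsFinset h1] using h3
        refine Set.Finite.subset ?_ this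
        exact Set.Finite.biUnion (Finset.finite_toSet _) (fun n _ => Finset.finite_toSet _)
      have hq : q ∈ {ξ : ℂ | ∃ n : ℕ, 0 < n ∧ n < N0 ∧ ξ ^ n = 1}ᶜ := by
        rintro ⟨n, h1, _, h3⟩
        exact hroot n h1 h3
      obtain ⟨ε, hε, hball⟩ := Metric.isOpen_iff.1 hfin.isClosed.isOpen_compl q hq
      obtain ⟨r, hr, R, hR⟩ := hA ε hε
      refine ⟨R, fun z h1 h2 => ?_⟩
      by_contra hcon
      push Not at hcon
      refine hR q z (by rw [heq]; exact hr.le) hq0 hq1 hcon.le ?_ h1 h2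
      intro n ξ hn hn' hξ
      by_contra hlt
      push Not at hlt
      have : ξ ∈ Metric.ball q ε := by
        rw [Metric.mem_ball, dist_comm, dist_eq_norm]; exact hlt
      exact hball this ⟨n, hn, hn', hξ⟩

end SokalU
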