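import Pool.Agent.Lib_MP_af4de1_u.Sym

/-!
# `F(z; ω e^{-t})` for a root of unity `ω` as a sum over `N` rotated copies of `E t` [SU-LIFT]

`ω = cexp(2πi a/N)`, `gcd(a,N) = 1`, `ε = 0` (`N` odd) or `1/2` (`N` even), `ζ_m = cexp(2πi(m+ε)/N)`, `c_n = ω^{n(n-1)/2}`.
`c_{n+N} = ς c_n` with `ς = ω^{N(N-1)/2} = 1` (`N` odd), `-1` (`N` even: `a(N-1)` is odd), and `ζ_m^N = ς`.
`g_m := (1/N) ∑_{n<N} c_n ζ_m^{-n}`.  Inversion `∑_{m<N} g_m ζ_m^n = c_n` for `0 ≤ n < N` (geometric sum), then for all `n` by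
the two (anti)periodicities.  `c_n ζ_m^{-n}` has period `N` in `n`; `c_{n+1} = ω^n c_n`, `ω ζ_m = ζ_{m+a}`:
`g_{m-a} = (1/N)∑ c_n ω^n ζ_m^{-n} = ζ_m g_m`.  So `‖g_{m-a}‖ = ‖g_m‖`, and by coprimality and `g_{m+N} = g_m` all norms are equal;
they are not `0` since `∑ g_m = c_0 = 1`.
The two identities: `(ω e^{-t})^{n(n-1)/2} = ∑_m g_m ζ_m^n (e^{-t})^{n(n-1)/2}`, sum over `n` (finite sum over `m` outside); and
`z F(qz)` is the derivative `z d/dz` of both sides (`hasDerivAt_E`, `SokalF.hasDerivAt_F`).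
Window: the summand is `N`-periodic in `m`.
-/

namespace SokalU

open Complex

/-- the terms `c_n ζ_m^{-n}`, with `ε = a (N - 1) / 2` -/
private noncomputable def bb (N : ℕ) (a m n : ℤ) : ℂ :=
  cexp (Real.pi * I * (a * n * (n - N) - 2 * n * m) / N)

private theorem bb_period {N : ℕ} (hN : 0 < N) (a m n : ℤ) : bb N a m (n + N) = bb N a m n := by
  have hN' : (N : ℂ) ≠ 0 := by exact_mod_cast hN.ne'
  unfold bb
  rw [Complex.exp_eq_exp_iff_exists_int]
  refine ⟨a * n - m, ?_⟩
  push_cast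
  field_simp
  ring

private theorem bb_period' {N : ℕ} (hN : 0 < N) (a m n : ℤ) : bb N a (m + N) n = bb N a m n := by
  have hN' : (N : ℂ) ≠ 0 := by exact_mod_cast hN.ne'
  unfold bb
  rw [Complex.exp_eq_exp_iff_exists_int]
  refine ⟨-n, ?_⟩
  push_cast
  field_simp
  ring

private theorem bb_shift {N : ℕ} (hN : 0 < N) (a m n : ℤ) :
    bb N a m (n + 1) = cexp (((Real.pi * (a * (1 - N) - 2 * m) / N : ℝ) : ℂ) * I) *
      bb N a (m - a) n := by
  have hN' : (N : ℂ) ≠ 0 := by exact_mod_cast hN.ne'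
  unfold bb
  rw [← Complex.exp_add]
  congr 1
  push_cast
  field_simp
  ring

private theorem sum_shift {N : ℕ} {f : ℤ → ℂ} (hf : ∀ n, f (n + N) = f n) (n : ℕ) :
    ∑ j ∈ Finset.range N, f (n + j) = ∑ j ∈ Finset.range N, f j := by
  induction n with
  | zero => simp
  | succ n ih =>
    rw [← ih]
    have h1 := Finset.sum_range_succ (fun j : ℕ => f ((n : ℤ) + j)) N
    rw [Finset.sum_range_succ'] at h1
    have h2 : f ((n : ℤ) + (N : ℕ)) = f n := hf n
    rw [h2] at h1
    have h3 : f ((n : ℤ) + ((0 : ℕ) : ℤ)) = f n := by simp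
    rw [h3] at h1
    have h4 := add_right_cancel h1
    rw [← h4]
    refine Finset.sum_congr rfl fun j _ => ?_
    congr 1
    push_cast
    ring

/-- the coefficients -/
private noncomputable def gg (N : ℕ) (a m : ℤ) : ℂ := (∑ n ∈ Finset.range N, bb N a m n) / N

private theorem norm_gg {N : ℕ} (hN : 0 < N) (a : ℤ) (ha : IsCoprime a (N : ℤ)) (m : ℤ) :
    ‖gg N a m‖ = ‖gg N a 0‖ := by
  have h1 : Function.Periodic (fun m => ‖gg N a m‖) a := by
    intro m
    have h2 : gg N a (m + a) =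
        cexp (((Real.pi * (a * (1 - N) - 2 * (m + a : ℤ)) / N : ℝ) : ℂ) * I) * gg N a m := by
      unfold gg
      rw [← mul_div_assoc, Finset.mul_sum]
      congr 1
      rw [← sum_shift (fun n => bb_period hN a (m + a) n) 1]
      refine Finset.sum_congr rfl fun j _ => ?_
      rw [Nat.cast_one, add_comm (1 : ℤ) (j : ℤ), bb_shift hN, add_sub_cancel_right]
    show ‖gg N a (m + a)‖ = ‖gg N a m‖
    rw [h2, norm_mul, Complex.norm_exp_ofReal_mul_I, one_mul]
  have h2 : Function.Periodic (fun m => ‖gg N a m‖) (N : ℤ) := by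
    intro m
    have h3 : gg N a (m + N) = gg N a m := by
      unfold gg
      congr 1
      exact Finset.sum_congr rfl fun j _ => bb_period' hN a m j
    show ‖gg N a (m + N)‖ = ‖gg N a m‖
    rw [h3]
  obtain ⟨u, v, huv⟩ := ha
  have h3 : Function.Periodic (fun m => ‖gg N a m‖) 1 := by
    rw [← huv]
    exact (h1.int_mul u).add_period (h2.int_mul v)
  have h4 := h3.int_mul m 0
  simpa using h4

/-- geometric sums of roots of unity -/
private theorem sum_root {N : ℕ} (hN : 0 < N) (m0 : ℤ) (j : ℕ) (hj : j < N) :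
    ∑ m ∈ Finset.Ico m0 (m0 + N), cexp (-(2 * Real.pi * I * j * m / N)) =
      if j = 0 then (N : ℂ) else 0 := by
  have hN' : (N : ℂ) ≠ 0 := by exact_mod_cast hN.ne'
  split_ifs with h0
  · subst h0
    simp
  · have h1 : ∑ m ∈ Finset.Ico m0 (m0 + N), cexp (-(2 * Real.pi * I * j * m / N)) =
        ∑ i ∈ Finset.range N, cexp (-(2 * Real.pi * I * j * m0 / N)) *
          cexp (-(2 * Real.pi * I * j / N)) ^ i := by
      symm
      refine Finset.sum_bij (fun i _ => m0 + (i : ℤ)) ?_ ?_ ?_ ?_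
      · intro i hi
        rw [Finset.mem_range] at hi
        rw [Finset.mem_Ico]
        omega
      · intro i _ i' _ h
        have : (i : ℤ) = i' := by linarith
        exact_mod_cast this
      · intro m hm
        rw [Finset.mem_Ico] at hm
        refine ⟨(m - m0).toNat, ?_, ?_⟩
        · rw [Finset.mem_range]
          omega
        · rw [Int.toNat_of_nonneg (by omega)]
          ring
      · intro i _
        rw [← Complex.exp_nat_mul, ← Complex.exp_add]
        congr 1
        push_cast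
        field_simp
        ring
    rw [h1, ← Finset.mul_sum]
    have h2 : cexp (-(2 * Real.pi * I * j / N)) ≠ 1 := by
      intro h3
      rw [Complex.exp_eq_one_iff] at h3
      obtain ⟨k, hk⟩ := h3
      have h4 : (2 * Real.pi * I : ℂ) ≠ 0 := Complex.two_pi_I_ne_zero
      have h5 : (-(j : ℂ)) = k * N := by
        have h6 : (2 * Real.pi * I : ℂ) * (-(j : ℂ)) = 2 * Real.pi * I * (k * N) := by
          field_simp at hk
          linear_combination (2 * Real.pi * I) * hk
        exact mul_left_cancel₀ h4 h6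
      have h7 : (-(j : ℤ)) = k * N := by exact_mod_cast h5
      have h8 : (j : ℤ) < N := by exact_mod_cast hj
      have h9 : (0 : ℤ) < j := by exact_mod_cast Nat.pos_of_ne_zero h0
      have h10 : k < 0 := by
        by_contra hc
        push Not at hc
        have : 0 ≤ k * (N : ℤ) := by positivity
        omega
      have h11 : k * (N : ℤ) ≤ -1 * N := by
        have : k ≤ -1 := by omega
        exact mul_le_mul_of_nonneg_right this (by positivity)
      omega
    have h3 : cexp (-(2 * Real.pi * I * j / N)) ^ N = 1 := by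
      rw [← Complex.exp_nat_mul, Complex.exp_eq_one_iff]
      refine ⟨-j, ?_⟩
      push_cast
      field_simp
    have h4 := mul_geom_sum (cexp (-(2 * Real.pi * I * j / N))) N
    rw [h3, sub_self] at h4
    rcases mul_eq_zero.1 h4 with h5 | h5
    · exact absurd (sub_eq_zero.1 h5) h2
    · rw [h5, mul_zero]

/-- the inversion formula -/
private theorem inversion {N : ℕ} (hN : 0 < N) (a m0 : ℤ) (n : ℕ) :
    ∑ m ∈ Finset.Ico m0 (m0 + N), gg N a m *
      cexp (2 * Real.pi * (m + ((a * (N - 1) / 2 : ℝ) : ℂ)) / N * I) ^ n =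
      cexp (2 * Real.pi * I * a / N) ^ (n * (n - 1) / 2) := by
  have hN' : (N : ℂ) ≠ 0 := by exact_mod_cast hN.ne'
  have h1 : ∀ m : ℤ, gg N a m *
      cexp (2 * Real.pi * (m + ((a * (N - 1) / 2 : ℝ) : ℂ)) / N * I) ^ n =
      (∑ j ∈ Finset.range N,
        cexp (Real.pi * I * (a * (n + j) * (n + j - N) + n * a * (N - 1)) / N) *
        cexp (-(2 * Real.pi * I * j * m / N))) / N := by
    intro m
    unfold gg
    rw [div_mul_eq_mul_div, ← sum_shift (fun k => bb_period hN a m k) n, Finset.sum_mul]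
    congr 1
    refine Finset.sum_congr rfl fun j _ => ?_
    unfold bb
    rw [← Complex.exp_nat_mul, ← Complex.exp_add, ← Complex.exp_add]
    congr 1
    push_cast
    field_simp
    ring
  rw [Finset.sum_congr rfl fun m _ => h1 m, ← Finset.sum_div, Finset.sum_comm]
  rw [Finset.sum_congr rfl fun j hj => by
    rw [← Finset.mul_sum, sum_root hN m0 j (Finset.mem_range.1 hj)]]
  rw [Finset.sum_eq_single_of_mem 0 (Finset.mem_range.2 hN) fun j _ hj => by
    rw [if_neg hj, mul_zero]]
  rw [if_pos rfl, mul_div_assoc, div_self hN', mul_one, ← Complex.exp_nat_mul]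
  congr 1
  have h2 : ((n * (n - 1) / 2 : ℕ) : ℂ) * 2 = n * (n - 1) := by
    have h3 : n * (n - 1) / 2 * 2 = n * (n - 1) :=
      Nat.div_mul_cancel (even_iff_two_dvd.1 (Nat.even_mul_pred_self n))
    rcases Nat.eq_zero_or_pos n with h0 | h0
    · subst h0
      simp
    · have h4 : ((n * (n - 1) / 2 : ℕ) : ℂ) * 2 = ((n * (n - 1) : ℕ) : ℂ) := by
        exact_mod_cast h3
      rw [h4, Nat.cast_mul, Nat.cast_pred h0]
  have h3 : ((n * (n - 1) / 2 : ℕ) : ℂ) * (2 * Real.pi * I * a / N) =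
      (((n * (n - 1) / 2 : ℕ) : ℂ) * 2) * (Real.pi * I * a / N) := by ring
  rw [h3, h2]
  push_cast
  field_simp
  ring

theorem lifts (N : ℕ) (hN : 0 < N) (a : ℤ) (ha : IsCoprime a (N : ℤ)) :
    ∃ (g : ℤ → ℂ) (ε g0 : ℝ), 0 < g0 ∧ (∀ m, ‖g m‖ = g0) ∧
      ∀ (t z : ℂ) (m0 : ℤ), 0 ≤ t.re →
        SokalF.F (cexp (2 * Real.pi * I * a / N) * cexp (-t)) z =
          ∑ m ∈ Finset.Ico m0 (m0 + N), g m * E t (cexp (2 * Real.pi * (m + ε) / N * I) * z) ∧
        z * SokalF.F (cexp (2 * Real.pi * I * a / N) * cexp (-t))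
            (cexp (2 * Real.pi * I * a / N) * cexp (-t) * z) =
          ∑ m ∈ Finset.Ico m0 (m0 + N), g m * DE t (cexp (2 * Real.pi * (m + ε) / N * I) * z) := by
  refine ⟨gg N a, (a * (N - 1) / 2 : ℝ), ‖gg N a 0‖, ?_, norm_gg hN a ha, ?_⟩
  · rw [norm_pos_iff]
    intro h0
    have h1 : ∀ m, gg N a m = 0 := fun m => by
      rw [← norm_eq_zero, norm_gg hN a ha m, h0, norm_zero]
    have h2 := inversion hN a 0 0
    rw [Finset.sum_eq_zero fun m _ => by rw [h1 m, zero_mul]] at h2
    simp at h2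
  · intro t z m0 ht
    set ε : ℝ := (a * (N - 1) / 2 : ℝ) with hε
    have hq : ‖cexp (-t)‖ ≤ 1 := norm_exp_neg_le ht
    have hω : ‖cexp (2 * Real.pi * I * a / N)‖ = 1 := by
      have h1 : (2 * Real.pi * I * a / N : ℂ) = ((2 * Real.pi * a / N : ℝ) : ℂ) * I := by
        push_cast
        ring
      rw [h1, Complex.norm_exp_ofReal_mul_I]
    have hq' : ‖cexp (2 * Real.pi * I * a / N) * cexp (-t)‖ ≤ 1 := by
      rw [norm_mul, hω, one_mul]
      exact hq
    have key : ∀ z : ℂ, SokalF.F (cexp (2 * Real.pi * I * a / N) * cexp (-t)) z =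
        ∑ m ∈ Finset.Ico m0 (m0 + N), gg N a m * E t (cexp (2 * Real.pi * (m + ε) / N * I) * z) := by
      intro z
      have h1 : ∀ m ∈ Finset.Ico m0 (m0 + N), Summable fun k : ℕ => gg N a m *
          (cexp (-t) ^ (k * (k - 1) / 2) * (cexp (2 * Real.pi * (m + ε) / N * I) * z) ^ k /
            (Nat.factorial k : ℂ)) := fun m _ => (SokalF.summable_term hq _).mul_left _
      unfold E
      unfold SokalF.F
      rw [Finset.sum_congr rfl fun m _ => (tsum_mul_left).symm, ← Summable.tsum_finsetSum h1]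
      refine tsum_congr fun k => ?_
      rw [mul_pow, ← inversion hN a m0 k, Finset.sum_mul, Finset.sum_mul, Finset.sum_div]
      refine Finset.sum_congr rfl fun m _ => ?_
      rw [mul_pow]
      ring
    refine ⟨key z, ?_⟩
    have h1 := SokalF.hasDerivAt_F hq' z
    have h2 : HasDerivAt (fun z => ∑ m ∈ Finset.Ico m0 (m0 + N),
        gg N a m * E t (cexp (2 * Real.pi * (m + ε) / N * I) * z))
        (∑ m ∈ Finset.Ico m0 (m0 + N), gg N a m *
          (E t (cexp (-t) * (cexp (2 * Real.pi * (m + ε) / N * I) * z)) *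
            cexp (2 * Real.pi * (m + ε) / N * I))) z := by
      refine HasDerivAt.fun_sum fun m _ => ?_
      have h3 : HasDerivAt (fun z => cexp (2 * Real.pi * (m + ε) / N * I) * z)
          (cexp (2 * Real.pi * (m + ε) / N * I)) z := by
        simpa using (hasDerivAt_id z).const_mul (cexp (2 * Real.pi * (m + ε) / N * I))
      have h4 : HasDerivAt (E t) (E t (cexp (-t) * (cexp (2 * Real.pi * (m + ε) / N * I) * z)))
          (cexp (2 * Real.pi * (m + ε) / N * I) * z) := SokalF.hasDerivAt_F hq _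
      exact (h4.comp z h3).const_mul _
    have h3 : SokalF.F (cexp (2 * Real.pi * I * a / N) * cexp (-t)) = fun z =>
        ∑ m ∈ Finset.Ico m0 (m0 + N), gg N a m * E t (cexp (2 * Real.pi * (m + ε) / N * I) * z) :=
      funext key
    have h5 : HasDerivAt (SokalF.F (cexp (2 * Real.pi * I * a / N) * cexp (-t)))
        (∑ m ∈ Finset.Ico m0 (m0 + N), gg N a m *
          (E t (cexp (-t) * (cexp (2 * Real.pi * (m + ε) / N * I) * z)) *
            cexp (2 * Real.pi * (m + ε) / N * I))) z := by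
      rw [h3]
      exact h2
    have h4 := h1.unique h5
    rw [h4, Finset.mul_sum]
    refine Finset.sum_congr rfl fun m _ => ?_
    unfold DE
    ring

end SokalU
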