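import Mathlib

/-!
# The final inequality [SU-COMB]

Let `ν ∈ {μ-1, μ+1}` be the neighbour of `μ` with the larger `‖T‖`, say `ν = μ+1` (the other case by reflection).  With
`b_j = ‖T(μ+j)‖/‖T μ‖`: `b_0 = 1`, `b_1 ≤ 1`, `b_1 b_{-1} ≤ p` and `b_{-1} ≤ b_1`, so `b_{-1} ≤ √p`; by `hlc` the ratios decrease:
`b_{j+1}/b_j ≤ p b_j/b_{j-1}`, so `b_j ≤ p^{j-1}` (`j ≥ 1`) and `b_{-j} ≤ √p p^{j-1}` (`j ≥ 1`) as long as the index is in `[a,b]`.
`0 = ∑ (D m - M ν T m)`, the terms with `m ∈ [a,b]` are `(M m - M ν) T m`, so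
`‖M μ - M ν‖‖T μ‖ ≤ ∑_{m ∈ [a,b], m ≠ μ,ν} ‖M m - M ν‖‖T m‖ + ∑_{outside} ‖D m - M ν T m‖`.  Left side `≥ (87/100)λ‖T μ‖`, right side
`≤ (118/100)λ‖T μ‖ (∑_{j≥2}(j-1)p^{j-1} + √p ∑_{j≥1}(j+1)p^{j-1}) + λ‖T μ‖/10`, and with `p = 1/20`, `√p ≤ .2237`:
`p/(1-p)² = .0555`, `√p(2-p)/(1-p)² = .4834`: `1.18·.539+.1 = .736 < .87`.
-/

namespace SokalU

private theorem sum_le_of_inj (F : Finset ℤ) (f : ℤ → ℝ) (φ : ℤ → ℕ)
    (hinj : Set.InjOn φ F) (g : ℕ → ℝ) (hg : ∀ k, 0 ≤ g k) (C : ℝ)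
    (hC : ∀ n, ∑ k ∈ Finset.range n, g k ≤ C) (h : ∀ m ∈ F, f m ≤ g (φ m)) :
    ∑ m ∈ F, f m ≤ C := by
  classical
  calc ∑ m ∈ F, f m ≤ ∑ m ∈ F, g (φ m) := Finset.sum_le_sum h
    _ = ∑ k ∈ F.image φ, g k := by
        rw [Finset.sum_image]
        intro x hx y hy hxy
        exact hinj hx hy hxy
    _ ≤ ∑ k ∈ Finset.range ((F.image φ).sup id + 1), g k := by
        refine Finset.sum_le_sum_of_subset_of_nonneg ?_ (fun k _ _ => hg k)
        intro k hk
        rw [Finset.mem_range]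
        have : id k ≤ (F.image φ).sup id := Finset.le_sup hk
        simp only [id] at this
        omega
    _ ≤ C := hC _

private theorem geo1 (n : ℕ) : ∑ k ∈ Finset.range n, (k : ℝ) * (1 / 20) ^ k =
    20 / 361 - (1 / 20) ^ n * (380 * n + 20) / 361 := by
  induction n with
  | zero => simp
  | succ n ih =>
    rw [Finset.sum_range_succ, ih, pow_succ]
    push_cast
    ring

private theorem geo0 (n : ℕ) : ∑ k ∈ Finset.range n, ((1 : ℝ) / 20) ^ k =
    20 / 19 - (1 / 20) ^ n * (20 / 19) := by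
  induction n with
  | zero => simp
  | succ n ih =>
    rw [Finset.sum_range_succ, ih, pow_succ]
    ring

private theorem decay {b μ : ℤ} {T : ℤ → ℝ} (hT : ∀ m, μ ≤ m → m ≤ b → 0 < T m)
    (h0 : T (μ + 1) ≤ T μ)
    (hlc : ∀ m, μ < m → m < b → T (m + 1) * T (m - 1) ≤ 1 / 20 * T m ^ 2) (k : ℕ) :
    μ + 1 + k ≤ b → T (μ + 1 + k) ≤ (1 / 20) ^ k * T (μ + 1) ∧ T (μ + 1 + k) ≤ T (μ + k) := by
  induction k with
  | zero =>
    intro _
    simp only [Nat.cast_zero, add_zero, pow_zero, one_mul, le_refl, true_and]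
    exact h0
  | succ k ih =>
    intro hb
    push_cast at hb
    obtain ⟨h1, h2⟩ := ih (by omega)
    have h3 := hlc (μ + 1 + k) (by omega) (by omega)
    have e1 : μ + 1 + (k : ℤ) - 1 = μ + k := by ring
    have e2 : μ + 1 + ((k + 1 : ℕ) : ℤ) = μ + 1 + k + 1 := by push_cast; ring
    have e3 : μ + ((k + 1 : ℕ) : ℤ) = μ + 1 + k := by push_cast; ring
    rw [e1] at h3
    rw [e2, e3]
    have p0 := hT (μ + k) (by omega) (by omega)
    have p1 := hT (μ + 1 + k) (by omega) (by omega)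
    have h4 : T (μ + 1 + k + 1) ≤ 1 / 20 * T (μ + 1 + k) := by
      by_contra hcon
      push Not at hcon
      have h5 : 1 / 20 * T (μ + 1 + k) * T (μ + k) < T (μ + 1 + k + 1) * T (μ + k) :=
        mul_lt_mul_of_pos_right hcon p0
      nlinarith [mul_le_mul_of_nonneg_left h2 p1.le]
    constructor
    · rw [pow_succ]
      nlinarith
    · linarith

private theorem core {a b μ : ℤ} {T D M : ℤ → ℂ} {lam : ℝ} (S : Finset ℤ) (hlam : 0 < lam)
    (hS : ∀ m, a ≤ m → m ≤ b → m ∈ S)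
    (haμ : a < μ) (hμb : μ < b) (hμ : ∀ m, a ≤ m → m ≤ b → ‖T m‖ ≤ ‖T μ‖)
    (hT : ∀ m, a ≤ m → m ≤ b → T m ≠ 0) (hD : ∀ m, a ≤ m → m ≤ b → D m = M m * T m)
    (hlc : ∀ m, a < m → m < b → ‖T (m + 1)‖ * ‖T (m - 1)‖ ≤ 1 / 20 * ‖T m‖ ^ 2)
    (hM : ∀ m m', a ≤ m → m ≤ b → a ≤ m' → m' ≤ b → m ≠ m' →
      ‖M m - M m'‖ ≤ 118 / 100 * |(m : ℝ) - m'| * lam)
    (hM' : ∀ m, a ≤ m → m + 1 ≤ b → 87 / 100 * lam ≤ ‖M (m + 1) - M m‖)
    (hout : ∀ ν, a ≤ ν → ν ≤ b → ∑ m ∈ S.filter (fun m => ¬ (a ≤ m ∧ m ≤ b)),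
      ‖D m - M ν * T m‖ ≤ 1 / 10 * lam * ‖T μ‖)
    (hsT : ∑ m ∈ S, T m = 0) (hsD : ∑ m ∈ S, D m = 0)
    (hside : ‖T (μ - 1)‖ ≤ ‖T (μ + 1)‖) : False := by
  classical
  have hB : 0 < ‖T μ‖ := norm_pos_iff.mpr (hT μ haμ.le hμb.le)
  have hpos : ∀ m, a ≤ m → m ≤ b → 0 < ‖T m‖ := fun m h1 h2 => norm_pos_iff.mpr (hT m h1 h2)
  -- right decay
  have hR : ∀ k : ℕ, μ + 1 + k ≤ b → ‖T (μ + 1 + k)‖ ≤ (1 / 20) ^ k * ‖T μ‖ := by
    intro k hk
    have h1 := (decay (b := b) (μ := μ) (T := fun m => ‖T m‖)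
      (fun m h1 h2 => hpos m (by omega) h2) (hμ (μ + 1) (by omega) (by omega))
      (fun m h1 h2 => hlc m (by omega) h2) k hk).1
    have h2 := hμ (μ + 1) (by omega) (by omega)
    have h3 : (0 : ℝ) ≤ (1 / 20) ^ k := by positivity
    exact h1.trans (mul_le_mul_of_nonneg_left h2 h3)
  -- size of the left neighbour
  have hs : ‖T (μ - 1)‖ ≤ 2237 / 10000 * ‖T μ‖ := by
    have h1 := hlc μ haμ hμb
    have h2 : ‖T (μ - 1)‖ ^ 2 ≤ (2237 / 10000 * ‖T μ‖) ^ 2 := by
      have h3 : ‖T (μ - 1)‖ * ‖T (μ - 1)‖ ≤ ‖T (μ + 1)‖ * ‖T (μ - 1)‖ :=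
        mul_le_mul_of_nonneg_right hside (norm_nonneg _)
      nlinarith [sq_nonneg ‖T μ‖]
    exact (sq_le_sq₀ (norm_nonneg _) (by positivity)).mp h2
  -- left decay
  have hL : ∀ k : ℕ, a ≤ μ - 1 - k → ‖T (μ - 1 - k)‖ ≤ (1 / 20) ^ k * (2237 / 10000 * ‖T μ‖) := by
    intro k hk
    have h1 := (decay (b := -a) (μ := -μ) (T := fun m => ‖T (-m)‖)
      (fun m h1 h2 => hpos (-m) (by omega) (by omega))
      (by
        have e1 : -(-μ + 1) = μ - 1 := by ring
        simp only [e1, neg_neg]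
        exact hμ (μ - 1) (by omega) (by omega))
      (fun m h1 h2 => by
        have e1 : -(m + 1) = -m - 1 := by ring
        have e2 : -(m - 1) = -m + 1 := by ring
        simp only [e1, e2]
        rw [mul_comm]
        exact hlc (-m) (by omega) (by omega)) k (by omega)).1
    have e1 : -(-μ + 1 + (k : ℤ)) = μ - 1 - k := by ring
    have e2 : -(-μ + 1) = μ - 1 := by ring
    simp only [e1, e2] at h1
    have h3 : (0 : ℝ) ≤ (1 / 20) ^ k := by positivity
    exact h1.trans (mul_le_mul_of_nonneg_left hs h3)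
  set ν : ℤ := μ + 1 with hν
  have hνa : a ≤ ν := by omega
  have hνb : ν ≤ b := by omega
  set h : ℤ → ℂ := fun m => D m - M ν * T m with hh
  have hsum : ∑ m ∈ S, h m = 0 := by
    simp only [hh]
    rw [Finset.sum_sub_distrib, ← Finset.mul_sum, hsT, hsD]
    simp
  have hin : ∀ m, a ≤ m → m ≤ b → h m = (M m - M ν) * T m := by
    intro m h1 h2
    simp only [hh]
    rw [hD m h1 h2]
    ring
  set I := S.filter (fun m => a ≤ m ∧ m ≤ b) with hI
  have hμI : μ ∈ I := by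
    rw [hI, Finset.mem_filter]
    exact ⟨hS μ haμ.le hμb.le, haμ.le, hμb.le⟩
  have hdec : h μ + ∑ m ∈ I.erase μ, h m + ∑ m ∈ S.filter (fun m => ¬ (a ≤ m ∧ m ≤ b)), h m = 0 := by
    rw [Finset.add_sum_erase I h hμI, hI, Finset.sum_filter_add_sum_filter_not]
    exact hsum
  have hnorm : ‖h μ‖ ≤ ∑ m ∈ I.erase μ, ‖h m‖ +
      ∑ m ∈ S.filter (fun m => ¬ (a ≤ m ∧ m ≤ b)), ‖h m‖ := by
    have e : h μ = -(∑ m ∈ I.erase μ, h m + ∑ m ∈ S.filter (fun m => ¬ (a ≤ m ∧ m ≤ b)), h m) := by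
      linear_combination hdec
    rw [e, norm_neg]
    exact (norm_add_le _ _).trans (add_le_add (norm_sum_le _ _) (norm_sum_le _ _))
  have hlow : 87 / 100 * lam * ‖T μ‖ ≤ ‖h μ‖ := by
    rw [hin μ haμ.le hμb.le, norm_mul, norm_sub_rev]
    exact mul_le_mul_of_nonneg_right (hM' μ haμ.le hνb) (norm_nonneg _)
  have hcst : 0 ≤ 118 / 100 * lam * ‖T μ‖ := by positivity
  -- split the sum over `I.erase μ`
  have hsplit : ∑ m ∈ I.erase μ, ‖h m‖ = ∑ m ∈ (I.erase μ).filter (fun m => ν ≤ m), ‖h m‖ +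
      ∑ m ∈ (I.erase μ).filter (fun m => ¬ (ν ≤ m)), ‖h m‖ :=
    (Finset.sum_filter_add_sum_filter_not _ _ _).symm
  have hright : ∑ m ∈ (I.erase μ).filter (fun m => ν ≤ m), ‖h m‖ ≤
      118 / 100 * lam * ‖T μ‖ * (20 / 361) := by
    refine sum_le_of_inj _ _ (fun m => (m - ν).toNat) ?_
      (fun k => 118 / 100 * lam * ‖T μ‖ * ((k : ℝ) * (1 / 20) ^ k))
      (fun k => by positivity) _ ?_ ?_
    · intro x hx y hy hxy
      simp only [Finset.coe_filter, Set.mem_ofPred_eq] at hx hy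
      simp only at hxy
      omega
    · intro n
      rw [← Finset.mul_sum, geo1]
      refine mul_le_mul_of_nonneg_left ?_ hcst
      have : (0 : ℝ) ≤ (1 / 20) ^ n * (380 * n + 20) / 361 := by positivity
      linarith
    · intro m hm
      rw [Finset.mem_filter, Finset.mem_erase, hI, Finset.mem_filter] at hm
      obtain ⟨⟨hmμ, _, hma, hmb⟩, hmν⟩ := hm
      obtain ⟨k, hk⟩ := Int.eq_ofNat_of_zero_le (show 0 ≤ m - ν by omega)
      have hk' : (m - ν).toNat = k := by omega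
      simp only [hk']
      have hmk : m = μ + 1 + k := by omega
      by_cases hkz : k = 0
      · have : m = ν := by omega
        rw [hin m hma hmb, this]
        simp only [sub_self, zero_mul, norm_zero]
        positivity
      · rw [hin m hma hmb, norm_mul]
        have h1 := hM m ν hma hmb hνa hνb (by omega)
        have h2 : |(m : ℝ) - ν| = k := by
          have : (m : ℝ) - ν = k := by
            rw [← Int.cast_sub, hk]
            simp
          rw [this]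
          exact abs_of_nonneg (Nat.cast_nonneg k)
        rw [h2] at h1
        have h3 := hR k (by omega)
        rw [← hmk] at h3
        calc ‖M m - M ν‖ * ‖T m‖ ≤ (118 / 100 * k * lam) * ((1 / 20) ^ k * ‖T μ‖) :=
              mul_le_mul h1 h3 (norm_nonneg _) (by positivity)
          _ = _ := by ring
  have hleft : ∑ m ∈ (I.erase μ).filter (fun m => ¬ (ν ≤ m)), ‖h m‖ ≤
      118 / 100 * lam * ‖T μ‖ * (2237 / 10000 * (20 / 361 + 2 * (20 / 19))) := by
    refine sum_le_of_inj _ _ (fun m => (μ - 1 - m).toNat) ?_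
      (fun k => 118 / 100 * lam * ‖T μ‖ * (2237 / 10000 *
        ((k : ℝ) * (1 / 20) ^ k + 2 * (1 / 20) ^ k)))
      (fun k => by positivity) _ ?_ ?_
    · intro x hx y hy hxy
      simp only [Finset.coe_filter, Set.mem_ofPred_eq, Finset.mem_erase] at hx hy
      simp only at hxy
      omega
    · intro n
      rw [← Finset.mul_sum, ← Finset.mul_sum, Finset.sum_add_distrib, ← Finset.mul_sum, geo1, geo0]
      refine mul_le_mul_of_nonneg_left ?_ hcst
      refine mul_le_mul_of_nonneg_left ?_ (by norm_num)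
      have h1 : (0 : ℝ) ≤ (1 / 20) ^ n * (380 * n + 20) / 361 := by positivity
      have h2 : (0 : ℝ) ≤ (1 / 20) ^ n * (20 / 19) := by positivity
      linarith
    · intro m hm
      rw [Finset.mem_filter, Finset.mem_erase, hI, Finset.mem_filter] at hm
      obtain ⟨⟨hmμ, _, hma, hmb⟩, hmν⟩ := hm
      obtain ⟨k, hk⟩ := Int.eq_ofNat_of_zero_le (show 0 ≤ μ - 1 - m by omega)
      have hk' : (μ - 1 - m).toNat = k := by omega
      simp only [hk']
      have hmk : m = μ - 1 - k := by omega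
      rw [hin m hma hmb, norm_mul]
      have h1 := hM m ν hma hmb hνa hνb (by omega)
      have h2 : |(m : ℝ) - ν| = k + 2 := by
        have : (m : ℝ) - ν = -(k + 2) := by
          have e : m - ν = -((k : ℤ) + 2) := by omega
          rw [← Int.cast_sub, e]
          push_cast
          ring
        rw [this, abs_neg]
        exact abs_of_nonneg (by positivity)
      rw [h2] at h1
      have h3 := hL k (by omega)
      rw [← hmk] at h3
      calc ‖M m - M ν‖ * ‖T m‖ ≤ (118 / 100 * (k + 2) * lam) *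
            ((1 / 20) ^ k * (2237 / 10000 * ‖T μ‖)) :=
            mul_le_mul h1 h3 (norm_nonneg _) (by positivity)
        _ = _ := by ring
  have ho := hout ν hνa hνb
  have hfin : 87 / 100 * lam * ‖T μ‖ ≤ 118 / 100 * lam * ‖T μ‖ * (20 / 361) +
      118 / 100 * lam * ‖T μ‖ * (2237 / 10000 * (20 / 361 + 2 * (20 / 19))) +
      1 / 10 * lam * ‖T μ‖ := by
    rw [hsplit] at hnorm
    linarith
  have hpp : 0 < lam * ‖T μ‖ := by positivity
  nlinarith

theorem comb {a b m0 m1 μ : ℤ} {T D M : ℤ → ℂ} {lam : ℝ} (hlam : 0 < lam) (ha : m0 ≤ a)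
    (hb : b < m1) (haμ : a < μ) (hμb : μ < b) (hμ : ∀ m, a ≤ m → m ≤ b → ‖T m‖ ≤ ‖T μ‖)
    (hT : ∀ m, a ≤ m → m ≤ b → T m ≠ 0) (hD : ∀ m, a ≤ m → m ≤ b → D m = M m * T m)
    (hlc : ∀ m, a < m → m < b → ‖T (m + 1)‖ * ‖T (m - 1)‖ ≤ 1 / 20 * ‖T m‖ ^ 2)
    (hM : ∀ m m', a ≤ m → m ≤ b → a ≤ m' → m' ≤ b → m ≠ m' →
      ‖M m - M m'‖ ≤ 118 / 100 * |(m : ℝ) - m'| * lam)
    (hM' : ∀ m, a ≤ m → m + 1 ≤ b → 87 / 100 * lam ≤ ‖M (m + 1) - M m‖)
    (hout : ∀ ν, a ≤ ν → ν ≤ b → ∑ m ∈ (Finset.Ico m0 m1).filter (fun m => ¬ (a ≤ m ∧ m ≤ b)),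
      ‖D m - M ν * T m‖ ≤ 1 / 10 * lam * ‖T μ‖)
    (hsT : ∑ m ∈ Finset.Ico m0 m1, T m = 0) (hsD : ∑ m ∈ Finset.Ico m0 m1, D m = 0) : False := by
  have hS : ∀ m, a ≤ m → m ≤ b → m ∈ Finset.Ico m0 m1 := by
    intro m h1 h2
    rw [Finset.mem_Ico]
    omega
  rcases le_total ‖T (μ - 1)‖ ‖T (μ + 1)‖ with hside | hside
  · exact core (Finset.Ico m0 m1) hlam hS haμ hμb hμ hT hD hlc hM hM' hout hsT hsD hside
  · refine core (a := -b) (b := -a) (μ := -μ) (T := fun m => T (-m)) (D := fun m => D (-m))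
      (M := fun m => M (-m)) ((Finset.Ico m0 m1).map (Equiv.neg ℤ).toEmbedding) hlam
      ?_ (by omega) (by omega) ?_ ?_ ?_ ?_ ?_ ?_ ?_ ?_ ?_ ?_
    · intro m h1 h2
      rw [Finset.mem_map_equiv]
      exact hS _ (by simp; omega) (by simp; omega)
    · intro m h1 h2
      simp only [neg_neg]
      exact hμ (-m) (by omega) (by omega)
    · intro m h1 h2
      exact hT (-m) (by omega) (by omega)
    · intro m h1 h2
      exact hD (-m) (by omega) (by omega)
    · intro m h1 h2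
      have e1 : -(m + 1) = -m - 1 := by ring
      have e2 : -(m - 1) = -m + 1 := by ring
      simp only [e1, e2]
      rw [mul_comm]
      exact hlc (-m) (by omega) (by omega)
    · intro m m' h1 h2 h3 h4 h5
      have h6 := hM (-m) (-m') (by omega) (by omega) (by omega) (by omega) (by omega)
      have e : |((-m : ℤ) : ℝ) - ((-m' : ℤ) : ℝ)| = |(m : ℝ) - m'| := by
        push_cast
        rw [← abs_neg]
        congr 1
        ring
      rw [e] at h6
      exact h6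
    · intro m h1 h2
      have h3 := hM' (-(m + 1)) (by omega) (by omega)
      have e1 : -(m + 1) + 1 = -m := by ring
      rw [e1, norm_sub_rev] at h3
      exact h3
    · intro ν h1 h2
      have h3 := hout (-ν) (by omega) (by omega)
      rw [Finset.filter_map, Finset.sum_map]
      simp only [neg_neg]
      refine le_trans (le_of_eq ?_) h3
      refine Finset.sum_congr ?_ ?_
      · ext x
        simp only [Finset.mem_filter, Function.comp, Equiv.coe_toEmbedding, Equiv.neg_apply]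
        constructor
        · rintro ⟨h4, h5⟩
          exact ⟨h4, fun h6 => h5 ⟨by omega, by omega⟩⟩
        · rintro ⟨h4, h5⟩
          exact ⟨h4, fun h6 => h5 ⟨by omega, by omega⟩⟩
      · intro x _
        simp
    · rw [Finset.sum_map]
      simpa using hsT
    · rw [Finset.sum_map]
      simpa using hsD
    · have e1 : -(-μ - 1) = μ + 1 := by ring
      have e2 : -(-μ + 1) = μ - 1 := by ring
      simp only [e1, e2]
      exact hside

end SokalU
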