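import Pool.Agent.Lib_MP_af4de1_u.Basic

/-!
# Pointwise bounds on the path, outside case [SU-PATHO]

`A = Re(1/t) > 0`, `B = Im(1/t) ≥ 0`, `c = cc k t ≤ min(1/4, B/(4k))`, `κ = k` real, `ξ = iη`.
For `h = a+is`: `Re(h²/(2t)) = ((a²-s²)A - 2asB)/2`, `Re(k(e^{iη+h}-1-h)) = k(e^a-1-a) - k e^a (1-cos(s+η))`.

`|s| ≤ s1`, `a = cs`: `Re(h²/2t) = -s²((1-c²)A/2 + cB) ≤ -(23/50 A + cB)s²`; `s1 ≤ |s+η| ≤ π+s1`, so
`1-cos(s+η) ≥ 1-cos s1 ≥ .499 s1²`, `e^a ≥ .97`, `e^a-1-a ≤ .52a² ≤ .033 s1²`: total `k`-part `≤ -(2/5)k s1²`.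
`|s| ≥ s1`, `a = ± c s1`: `Re(h²/2t) ≤ -(15/32)A s² - c s1 B|s|`, `k(e^a-1-a) ≤ .52k c² s1² ≤ .13 c s1 B|s|`,
`e^a ≥ .97`.
-/

namespace SokalU

open Complex

/-- The real part of the exponent at `h = a + is`. -/
private theorem norm_f_eq (t : ℂ) (k η a s : ℝ) :
    ‖f t k (η * I) ((a : ℂ) + s * I)‖ =
      Real.exp (((a ^ 2 - s ^ 2) * (t⁻¹).re - 2 * (a * s) * (t⁻¹).im) / 2 +
        k * (Real.exp a - 1 - a) - k * Real.exp a * (1 - Real.cos (s + η))) := by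
  unfold f
  rw [Complex.norm_exp]
  congr 1
  have h1 : ((a : ℂ) + s * I) ^ 2 / (2 * t) =
      (((a ^ 2 - s ^ 2 : ℝ) : ℂ) + ((2 * (a * s) : ℝ) : ℂ) * I) * t⁻¹ / 2 := by
    rw [div_eq_mul_inv, mul_inv]
    have h2 : ((a : ℂ) + s * I) ^ 2 = ((a ^ 2 - s ^ 2 : ℝ) : ℂ) + ((2 * (a * s) : ℝ) : ℂ) * I := by
      push_cast
      linear_combination (s : ℂ) ^ 2 * I_sq
    rw [h2]
    ring
  have h3 : (η * I : ℂ) + ((a : ℂ) + s * I) = (a : ℂ) + ((s + η : ℝ) : ℂ) * I := by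
    push_cast
    ring
  rw [h1, h3, Complex.exp_add_mul_I, ← Complex.ofReal_cos, ← Complex.ofReal_sin,
    ← Complex.ofReal_exp]
  have h4 : ((((a ^ 2 - s ^ 2 : ℝ) : ℂ) + ((2 * (a * s) : ℝ) : ℂ) * I) * t⁻¹ / 2).re =
      ((a ^ 2 - s ^ 2) * (t⁻¹).re - 2 * (a * s) * (t⁻¹).im) / 2 := by
    have h5 : ∀ z : ℂ, (z / 2).re = z.re / 2 := fun z => by
      simpa using Complex.div_ofReal_re z 2
    rw [h5, Complex.mul_re, Complex.add_re, Complex.add_im, Complex.re_ofReal_mul,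
      Complex.im_ofReal_mul, Complex.ofReal_re, Complex.ofReal_im, Complex.I_re, Complex.I_im]
    ring
  rw [Complex.add_re, h4, Complex.re_ofReal_mul, Complex.sub_re, Complex.sub_re, Complex.add_re,
    Complex.re_ofReal_mul, Complex.re_ofReal_mul, Complex.add_re, Complex.re_ofReal_mul,
    Complex.ofReal_re, Complex.ofReal_re, Complex.I_re, Complex.one_re]
  ring

/-- The quadratic bound of `e^a - 1 - a`. -/
private theorem exp_quad {a : ℝ} (ha : |a| ≤ 1) : Real.exp a - 1 - a ≤ a ^ 2 :=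
  (le_abs_self _).trans (Real.abs_exp_sub_one_sub_id_le ha)

/-- The cosine away from `0`. -/
private theorem cos_away {s1 x : ℝ} (hs1 : 0 < s1) (hs1' : s1 ≤ 1 / 10) (h1 : s1 ≤ |x|)
    (h2 : |x| ≤ Real.pi + s1) : 499 / 1000 * s1 ^ 2 ≤ 1 - Real.cos x := by
  have hpi := Real.pi_gt_three
  have h3 : Real.cos x ≤ Real.cos s1 := by
    rw [← Real.cos_abs x]
    rcases le_total |x| Real.pi with h | h
    · exact Real.cos_le_cos_of_nonneg_of_le_pi hs1.le h h1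
    · have h4 : Real.cos |x| = Real.cos (2 * Real.pi - |x|) := by
        rw [Real.cos_two_pi_sub]
      rw [h4]
      exact Real.cos_le_cos_of_nonneg_of_le_pi hs1.le (by linarith) (by linarith)
  have h5 : Real.cos s1 ≤ 1 - s1 ^ 2 / 2 + s1 ^ 4 * (5 / 96) := by
    have h6 := Real.cos_bound (x := s1) (by rw [abs_of_pos hs1]; linarith)
    have h7 := (le_abs_self _).trans h6
    rw [abs_of_pos hs1] at h7
    linarith
  have h8 : s1 ^ 4 * (5 / 96) ≤ 1 / 1000 * s1 ^ 2 := by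
    have h9 : s1 ^ 2 ≤ 1 / 100 := by nlinarith
    nlinarith [sq_nonneg s1, mul_nonneg (sq_nonneg s1) (sub_nonneg.2 h9)]
  linarith

theorem out_main {t : ℂ} {k η s1 s : ℝ} (ht : 0 < t.re) (hti : t.im ≤ 0) (hk : 0 < k)
    (hs1 : 0 < s1) (hs1' : s1 ≤ 1 / 10) (hη : 2 * s1 ≤ |η|) (hη' : |η| ≤ Real.pi)
    (hs : |s| ≤ s1) :
    ‖f t k (η * I) ((cc k t + I) * s)‖ ≤
      Real.exp (-((23 / 50 * (t⁻¹).re + cc k t * (t⁻¹).im) * s ^ 2)) *
        Real.exp (-(2 / 5 * k * s1 ^ 2)) := by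
  have hc0 := cc_nonneg hk ht hti
  have hc1 := cc_le k t
  have hA := inv_re_pos ht
  have hB := inv_im_nonneg ht hti
  set c := cc k t with hc
  set A := (t⁻¹).re
  set B := (t⁻¹).im
  have h1 : ((c : ℂ) + I) * s = ((c * s : ℝ) : ℂ) + s * I := by
    push_cast
    ring
  rw [h1, norm_f_eq, ← Real.exp_add]
  apply Real.exp_le_exp.2
  have hcos : 499 / 1000 * s1 ^ 2 ≤ 1 - Real.cos (s + η) := by
    apply cos_away hs1 hs1'
    · have h2 : |η| ≤ |s + η| + |s| := by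
        have := abs_sub (s + η) s
        rwa [add_sub_cancel_left] at this
      linarith
    · have h2 := abs_add_le s η
      linarith
  have habs : |c * s| ≤ 1 / 40 := by
    rw [abs_mul, abs_of_nonneg hc0]
    calc c * |s| ≤ 1 / 4 * (1 / 10) := by gcongr; linarith
      _ = 1 / 40 := by norm_num
  have hexp1 := exp_quad (habs.trans (by norm_num))
  have hexp2 : 39 / 40 ≤ Real.exp (c * s) := by
    have := Real.add_one_le_exp (c * s)
    have := (abs_le.1 habs).1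
    linarith
  have hs2 : s ^ 2 ≤ s1 ^ 2 := by
    rw [← sq_abs s]
    gcongr
  have hcs : (c * s) ^ 2 ≤ 1 / 16 * s1 ^ 2 := by
    rw [mul_pow]
    have : c ^ 2 ≤ 1 / 16 := by nlinarith
    calc c ^ 2 * s ^ 2 ≤ 1 / 16 * s1 ^ 2 := by gcongr
      _ = _ := rfl
  have h5 : 39 / 40 * (499 / 1000 * s1 ^ 2) ≤ Real.exp (c * s) * (1 - Real.cos (s + η)) := by
    gcongr
  have h6 : (Real.exp (c * s) - 1 - c * s) - Real.exp (c * s) * (1 - Real.cos (s + η)) ≤
      -(2 / 5 * s1 ^ 2) := by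
    have : 0 ≤ s1 ^ 2 := sq_nonneg _
    linarith
  have h7 := mul_le_mul_of_nonneg_left h6 hk.le
  have h8 : (((c * s) ^ 2 - s ^ 2) * A - 2 * (c * s * s) * B) / 2 ≤
      -((23 / 50 * A + c * B) * s ^ 2) := by
    have h9 : c ^ 2 ≤ 1 / 16 := by nlinarith
    have h10 : 0 ≤ A * s ^ 2 := by positivity
    have h11 : c ^ 2 * (A * s ^ 2) ≤ 1 / 16 * (A * s ^ 2) := by gcongr
    have h12 : (((c * s) ^ 2 - s ^ 2) * A - 2 * (c * s * s) * B) / 2 =
        (c ^ 2 * (A * s ^ 2) - A * s ^ 2) / 2 - c * B * s ^ 2 := by ring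
    rw [h12]
    linarith
  have h13 : k * (Real.exp (c * s) - 1 - c * s - Real.exp (c * s) * (1 - Real.cos (s + η))) =
      k * (Real.exp (c * s) - 1 - c * s) - k * Real.exp (c * s) * (1 - Real.cos (s + η)) := by
    ring
  rw [h13] at h7
  linarith

/-- The common part of the outer bounds: `a = ± c s1`, with `a s ≥ 0`. -/
private theorem out_outer {t : ℂ} {k η s1 s a : ℝ} (ht : 0 < t.re) (hti : t.im ≤ 0) (hk : 0 < k)
    (hs1 : 0 < s1) (hs1' : s1 ≤ 1 / 10) (hs : s1 ≤ |s|) (ha : |a| = cc k t * s1)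
    (has : a * s = cc k t * s1 * |s|) :
    ‖f t k (η * I) ((a : ℂ) + s * I)‖ ≤
      Real.exp (-(2 / 5 * s1 * ((t⁻¹).re + cc k t * (t⁻¹).im) * |s|)) *
        Real.exp (-(9 / 10 * k * (1 - Real.cos (s + η)))) := by
  have hc0 := cc_nonneg hk ht hti
  have hc1 := cc_le k t
  have hc2 := cc_le' k t
  have hA := inv_re_pos ht
  have hB := inv_im_nonneg ht hti
  set c := cc k t with hc
  set A := (t⁻¹).re
  set B := (t⁻¹).im
  rw [norm_f_eq, ← Real.exp_add]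
  apply Real.exp_le_exp.2
  have habs : |a| ≤ 1 / 40 := by
    rw [ha]
    calc c * s1 ≤ 1 / 4 * (1 / 10) := by gcongr
      _ = 1 / 40 := by norm_num
  have hexp1 := exp_quad (habs.trans (by norm_num))
  have hexp2 : 9 / 10 ≤ Real.exp a := by
    have := Real.add_one_le_exp a
    have := (abs_le.1 habs).1
    linarith
  have hcos : 0 ≤ 1 - Real.cos (s + η) := by
    have := Real.cos_le_one (s + η)
    linarith
  have h5 : 9 / 10 * k * (1 - Real.cos (s + η)) ≤ k * Real.exp a * (1 - Real.cos (s + η)) := by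
    have : 9 / 10 * k ≤ k * Real.exp a := by nlinarith
    gcongr
  have ha2 : a ^ 2 = c ^ 2 * s1 ^ 2 := by rw [← sq_abs a, ha]; ring
  have hs0 : 0 ≤ |s| := abs_nonneg s
  have hs2 : s1 * |s| ≤ s ^ 2 := by
    rw [← sq_abs s]
    nlinarith
  have hs3 : s1 ^ 2 ≤ s ^ 2 := by
    rw [← sq_abs s]
    gcongr
  -- the quadratic part
  have h6 : ((a ^ 2 - s ^ 2) * A - 2 * (a * s) * B) / 2 ≤
      -(15 / 32 * A * (s1 * |s|)) - c * s1 * |s| * B := by
    rw [has, ha2]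
    have h7 : c ^ 2 ≤ 1 / 16 := by nlinarith
    have h8 : c ^ 2 * s1 ^ 2 ≤ 1 / 16 * s ^ 2 := by gcongr
    have h9 : (c ^ 2 * s1 ^ 2 - s ^ 2) * A ≤ (-(15 / 16) * s ^ 2) * A := by
      apply mul_le_mul_of_nonneg_right _ hA.le
      linarith
    have h10 : A * (s1 * |s|) ≤ A * s ^ 2 := by gcongr
    linarith
  -- the exponential part
  have h11 : k * (Real.exp a - 1 - a) ≤ 1 / 4 * (c * s1 * |s| * B) := by
    have h12 : k * c ≤ B / 4 := by
      have : c * (4 * k) ≤ B := by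
        rw [le_div_iff₀ (by positivity)] at hc2
        exact hc2
      linarith
    calc k * (Real.exp a - 1 - a) ≤ k * a ^ 2 := by gcongr
      _ = (k * c) * (c * s1) * s1 := by rw [ha2]; ring
      _ ≤ (B / 4) * (c * s1) * |s| := by gcongr
      _ = _ := by ring
  have h14 : 0 ≤ c * s1 * |s| * B := by positivity
  have h15 : 0 ≤ A * (s1 * |s|) := by positivity
  have h16 : 2 / 5 * s1 * (A + c * B) * |s| =
      2 / 5 * (A * (s1 * |s|)) + 2 / 5 * (c * s1 * |s| * B) := by ring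
  rw [h16]
  linarith

theorem out_outer_pos {t : ℂ} {k η s1 s : ℝ} (ht : 0 < t.re) (hti : t.im ≤ 0) (hk : 0 < k)
    (hs1 : 0 < s1) (hs1' : s1 ≤ 1 / 10) (hs : s1 ≤ s) :
    ‖f t k (η * I) (((cc k t * s1 : ℝ) : ℂ) + s * I)‖ ≤
      Real.exp (-(2 / 5 * s1 * ((t⁻¹).re + cc k t * (t⁻¹).im) * s)) *
        Real.exp (-(9 / 10 * k * (1 - Real.cos (s + η)))) := by
  have hc0 := cc_nonneg hk ht hti
  have hs' : 0 < s := hs1.trans_le hs
  have := out_outer (η := η) ht hti hk hs1 hs1' (s := s) (a := cc k t * s1)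
    (by rwa [abs_of_pos hs']) (abs_of_nonneg (by positivity)) (by rw [abs_of_pos hs'])
  rwa [abs_of_pos hs'] at this

theorem out_outer_neg {t : ℂ} {k η s1 s : ℝ} (ht : 0 < t.re) (hti : t.im ≤ 0) (hk : 0 < k)
    (hs1 : 0 < s1) (hs1' : s1 ≤ 1 / 10) (hs : s ≤ -s1) :
    ‖f t k (η * I) (-((cc k t * s1 : ℝ) : ℂ) + s * I)‖ ≤
      Real.exp (-(2 / 5 * s1 * ((t⁻¹).re + cc k t * (t⁻¹).im) * |s|)) *
        Real.exp (-(9 / 10 * k * (1 - Real.cos (s + η)))) := by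
  have hc0 := cc_nonneg hk ht hti
  have hs' : s < 0 := by linarith
  have := out_outer (η := η) ht hti hk hs1 hs1' (s := s) (a := -(cc k t * s1))
    (by rw [abs_of_neg hs']; linarith) (by rw [abs_neg]; exact abs_of_nonneg (by positivity))
    (by rw [abs_of_neg hs']; ring)
  rwa [Complex.ofReal_neg] at this

end SokalU
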