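import Pool.Agent.Lib_MP_af4de1_u.OuterInt
import Pool.Agent.Lib_MP_af4de1_u.PathO

/-!
# The total of the integrand on the path, outside case [SU-PT]

Let `s1 = min(η1/2, 1/10)`, `A = Re(1/t)`, `B = Im(1/t)`, `c = cc k t`, `Λ = 1/t + k`,
`ϱ = (2/5)s1(A+cB) ≥ (s1/10)/V ≥ 1` (`inv_V_le_path`, `V ≤ V0`), `k ≥ 1/V ≥ 1` (`inv_V_le`).
Outer parts: `out_outer_pos/neg` + `outer_int` (for `Iio` substitute `s ↦ -s`, `η ↦ -η`) give
`≤ C e^{-ϱs1/2} min(1/√k,1/ϱ)`, and `‖Λ‖ ≤ A+B+k ≤ (10/s1)ϱ + 2k` (`B ≤ k`, or `c = 1/4`), so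
`√‖Λ‖ · min(1/√k,1/ϱ) ≤ C'`.
Main part: `out_main`: `≤ 2·4 e^{-(2/5)k s1²} ∫_{|s|≤s1} e^{-(23/50 A + cB)s²} ds
≤ 8 e^{-(2/5)k s1²} min(2 s1, √(π/(23/50 A+cB)))`, and `√‖Λ‖ ≤ √A+√B+√k` (`√B ≤ √k`, or `cB = B/4`), `k ≥ 1/V`;
the factor `√k` is absorbed by half of the exponential.  `(1+|s|)² ≤ 2` for `|s| ≤ 1/10`.
-/

namespace SokalU

open Complex MeasureTheory

/-- `‖1/t + k‖ ≤ 4(A+cB) + 2k`. -/
private theorem PT_norm_le {t : ℂ} {k : ℝ} (ht : 0 < t.re) (hti : t.im ≤ 0) (hk : 0 < k) :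
    ‖t⁻¹ + (k : ℂ)‖ ≤ 4 * ((t⁻¹).re + cc k t * (t⁻¹).im) + 2 * k := by
  have hA := inv_re_pos ht
  have hB := inv_im_nonneg ht hti
  have hc0 := cc_nonneg hk ht hti
  have h1 : ‖t⁻¹ + (k : ℂ)‖ ≤ (t⁻¹).re + (t⁻¹).im + k := by
    calc ‖t⁻¹ + (k : ℂ)‖ ≤ ‖t⁻¹‖ + ‖(k : ℂ)‖ := norm_add_le _ _
      _ ≤ (|(t⁻¹).re| + |(t⁻¹).im|) + k := by
          rw [Complex.norm_real, Real.norm_of_nonneg hk.le]
          gcongr
          exact Complex.norm_le_abs_re_add_abs_im _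
      _ = _ := by rw [abs_of_pos hA, abs_of_nonneg hB]
  have hcB : 0 ≤ cc k t * (t⁻¹).im := mul_nonneg hc0 hB
  rcases le_total (t⁻¹).im k with h | h
  · linarith
  · have hc : cc k t = 1 / 4 := by
      unfold cc
      apply min_eq_left
      rw [div_le_div_iff₀ (by norm_num) (by positivity)]
      linarith
    rw [hc]
    linarith

/-- The outer parts. -/
private theorem PT_outer {C1 : ℝ} (hC1 : ∀ ϱ k s1 η : ℝ, 1 ≤ ϱ → 1 ≤ k → 0 ≤ s1 →
    IntegrableOn (fun s : ℝ => (1 + s) ^ 2 * (Real.exp (-(ϱ * s)) *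
      Real.exp (-(9 / 10 * k * (1 - Real.cos (s + η)))))) (Set.Ioi s1) ∧
    ∫ s in Set.Ioi s1, (1 + s) ^ 2 * (Real.exp (-(ϱ * s)) *
      Real.exp (-(9 / 10 * k * (1 - Real.cos (s + η))))) ≤
        C1 * Real.exp (-(ϱ * s1 / 2)) * min (1 / √k) (1 / ϱ))
    {t : ℂ} {k η s1 : ℝ} (ht : 0 < t.re) (hti : t.im ≤ 0) (hk : 1 ≤ k)
    (hs1 : 0 < s1) (hs1' : s1 ≤ 1 / 10)
    (hϱ : 1 ≤ 2 / 5 * s1 * ((t⁻¹).re + cc k t * (t⁻¹).im)) :
    (∫ s in Set.Ioi s1, (1 + |s|) ^ 2 * ‖f t k (η * I) (((cc k t * s1 : ℝ) : ℂ) + s * I)‖) ≤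
      C1 * Real.exp (-(2 / 5 * s1 * ((t⁻¹).re + cc k t * (t⁻¹).im) * s1 / 2)) *
        min (1 / √k) (1 / (2 / 5 * s1 * ((t⁻¹).re + cc k t * (t⁻¹).im))) ∧
    (∫ s in Set.Iio (-s1), (1 + |s|) ^ 2 * ‖f t k (η * I) (-((cc k t * s1 : ℝ) : ℂ) + s * I)‖) ≤
      C1 * Real.exp (-(2 / 5 * s1 * ((t⁻¹).re + cc k t * (t⁻¹).im) * s1 / 2)) *
        min (1 / √k) (1 / (2 / 5 * s1 * ((t⁻¹).re + cc k t * (t⁻¹).im))) := by
  have hk0 : 0 < k := by linarith
  constructor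
  · obtain ⟨h1, h2⟩ := hC1 (2 / 5 * s1 * ((t⁻¹).re + cc k t * (t⁻¹).im)) k s1 η hϱ hk hs1.le
    refine le_trans ?_ h2
    apply integral_mono_of_nonneg
    · exact Filter.Eventually.of_forall fun s => by positivity
    · exact h1
    · filter_upwards [ae_restrict_mem measurableSet_Ioi] with s hs
      have hs' : s1 < s := hs
      rw [abs_of_pos (hs1.trans hs')]
      apply mul_le_mul_of_nonneg_left _ (by positivity)
      exact out_outer_pos ht hti hk0 hs1 hs1' hs'.le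
  · obtain ⟨h1, h2⟩ := hC1 (2 / 5 * s1 * ((t⁻¹).re + cc k t * (t⁻¹).im)) k s1 (-η) hϱ hk hs1.le
    refine le_trans ?_ h2
    rw [← integral_Iic_eq_integral_Iio, ← integral_comp_neg_Ioi]
    apply integral_mono_of_nonneg
    · exact Filter.Eventually.of_forall fun s => by positivity
    · exact h1
    · filter_upwards [ae_restrict_mem measurableSet_Ioi] with s hs
      have hs' : s1 < s := hs
      have hs0 : 0 < s := hs1.trans hs'
      have h3 := out_outer_neg (η := η) ht hti hk0 hs1 hs1' (s := -s) (by linarith)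
      rw [abs_neg, abs_of_pos hs0] at h3 ⊢
      apply mul_le_mul_of_nonneg_left _ (by positivity)
      have h4 : Real.cos (-s + η) = Real.cos (s + -η) := by
        rw [← Real.cos_neg]; congr 1; ring
      rw [h4] at h3
      exact h3

/-- The main part. -/
private theorem PT_main {t : ℂ} {k η s1 : ℝ} (ht : 0 < t.re) (hti : t.im ≤ 0) (hk : 0 < k)
    (hs1 : 0 < s1) (hs1' : s1 ≤ 1 / 10) (hη : 2 * s1 ≤ |η|) (hη' : |η| ≤ Real.pi) :
    (∫ s in (-s1)..s1, (1 + |s|) ^ 2 * ‖f t k (η * I) ((cc k t + I) * s)‖) ≤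
      2 * Real.exp (-(2 / 5 * k * s1 ^ 2)) *
        min (2 * s1) (√(Real.pi / (23 / 50 * ((t⁻¹).re + cc k t * (t⁻¹).im)))) := by
  have hA := inv_re_pos ht
  have hB := inv_im_nonneg ht hti
  have hc0 := cc_nonneg hk ht hti
  have hcB : 0 ≤ cc k t * (t⁻¹).im := mul_nonneg hc0 hB
  set A' := (t⁻¹).re + cc k t * (t⁻¹).im with hA'
  have hA'0 : 0 < A' := by positivity
  set b := 23 / 50 * A' with hb
  have hb0 : 0 < b := by positivity
  have h1 : (∫ s in (-s1)..s1, (1 + |s|) ^ 2 * ‖f t k (η * I) ((cc k t + I) * s)‖) ≤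
      ∫ s in (-s1)..s1, 2 * Real.exp (-(2 / 5 * k * s1 ^ 2)) * Real.exp (-b * s ^ 2) := by
    apply intervalIntegral.integral_mono_on (by linarith)
    · apply Continuous.intervalIntegrable
      unfold f
      fun_prop
    · apply Continuous.intervalIntegrable
      fun_prop
    · intro s hs
      have hs' : |s| ≤ s1 := abs_le.2 hs
      have h2 := out_main ht hti hk hs1 hs1' hη hη' hs'
      have h3 : (1 + |s|) ^ 2 ≤ 2 := by
        have := abs_nonneg s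
        nlinarith
      have h4 : Real.exp (-((23 / 50 * (t⁻¹).re + cc k t * (t⁻¹).im) * s ^ 2)) ≤
          Real.exp (-b * s ^ 2) := by
        apply Real.exp_le_exp.2
        rw [hb, hA']
        nlinarith [sq_nonneg s, mul_nonneg hcB (sq_nonneg s)]
      calc (1 + |s|) ^ 2 * ‖f t k (η * I) ((cc k t + I) * s)‖
          ≤ 2 * (Real.exp (-b * s ^ 2) * Real.exp (-(2 / 5 * k * s1 ^ 2))) := by
            apply mul_le_mul h3 (h2.trans _) (norm_nonneg _) (by norm_num)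
            gcongr
        _ = _ := by ring
  refine h1.trans ?_
  rw [intervalIntegral.integral_const_mul]
  apply mul_le_mul_of_nonneg_left _ (by positivity)
  apply le_min
  · have h5 : ∫ s in (-s1)..s1, Real.exp (-b * s ^ 2) ≤ ∫ s in (-s1)..s1, (1 : ℝ) := by
      apply intervalIntegral.integral_mono_on (by linarith)
      · apply Continuous.intervalIntegrable
        fun_prop
      · exact intervalIntegrable_const
      · intro s _
        rw [Real.exp_le_one_iff]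
        nlinarith [sq_nonneg s, mul_nonneg hb0.le (sq_nonneg s)]
    rw [intervalIntegral.integral_const, smul_eq_mul, mul_one] at h5
    linarith
  · rw [intervalIntegral.integral_of_le (by linarith)]
    calc ∫ s in Set.Ioc (-s1) s1, Real.exp (-b * s ^ 2) ≤ ∫ s : ℝ, Real.exp (-b * s ^ 2) := by
          apply setIntegral_le_integral (integrable_exp_neg_mul_sq hb0)
          exact Filter.Eventually.of_forall fun s => (Real.exp_pos _).le
      _ = √(Real.pi / b) := integral_gaussian b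

theorem path_total (η1 : ℝ) (hη1 : 0 < η1) : ∃ s1 : ℝ, 0 < s1 ∧ s1 ≤ 1 / 10 ∧ 2 * s1 ≤ η1 ∧
    ∃ c2 : ℝ, 0 < c2 ∧ ∃ V0 : ℝ, 0 < V0 ∧ ∃ C : ℝ, 0 < C ∧
    ∀ (t : ℂ) (k η : ℝ), 0 < t.re → t.im ≤ 0 → 0 < k → V k t ≤ V0 → η1 ≤ |η| → |η| ≤ Real.pi →
    √‖t⁻¹ + (k : ℂ)‖ *
      ((∫ s in Set.Ioi s1, (1 + |s|) ^ 2 * ‖f t k (η * I) (((cc k t * s1 : ℝ) : ℂ) + s * I)‖) +
      (∫ s in Set.Iio (-s1), (1 + |s|) ^ 2 * ‖f t k (η * I) (-((cc k t * s1 : ℝ) : ℂ) + s * I)‖) +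
      2 * ∫ s in (-s1)..s1, (1 + |s|) ^ 2 * ‖f t k (η * I) ((cc k t + I) * s)‖) ≤
    C * Real.exp (-(c2 / V k t)) := by
  obtain ⟨C1, hC10, hC1⟩ := outer_int
  set s1 := min (η1 / 2) (1 / 10) with hs1def
  have hs1 : 0 < s1 := lt_min (by linarith) (by norm_num)
  have hs1' : s1 ≤ 1 / 10 := min_le_right _ _
  have hs1η : 2 * s1 ≤ η1 := by
    have : s1 ≤ η1 / 2 := min_le_left _ _
    linarith
  refine ⟨s1, hs1, hs1', hs1η, s1 ^ 2 / 20, by positivity, s1 / 10, by positivity,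
    2 * C1 * (√(10 / s1) + √2) + 4 * (√(4 * Real.pi / (23 / 50)) + √2 * (2 * √5)),
    by positivity, ?_⟩
  intro t k η ht hti hk hV hη hη'
  have hA := inv_re_pos ht
  have hB := inv_im_nonneg ht hti
  have hc0 := cc_nonneg hk ht hti
  have hcB : 0 ≤ cc k t * (t⁻¹).im := mul_nonneg hc0 hB
  have hVpos := V_pos hk ht.le
  have hpath := inv_V_le_path hk ht hti
  have hkV := inv_V_le hk ht.le
  have hL := PT_norm_le ht hti hk
  set A' := (t⁻¹).re + cc k t * (t⁻¹).im with hA'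
  have hA'0 : 0 < A' := by positivity
  have hVinv : 10 / s1 ≤ (V k t)⁻¹ := by
    rw [le_inv_comm₀ (by positivity) hVpos, inv_div]
    exact hV
  have hk1 : 1 ≤ k := by
    have : 1 ≤ 10 / s1 := by
      rw [le_div_iff₀ hs1]; linarith
    linarith
  set ϱ := 2 / 5 * s1 * A' with hϱdef
  have hϱV : s1 / 10 * (V k t)⁻¹ ≤ ϱ := by
    rw [hϱdef]
    have : s1 / 10 * (V k t)⁻¹ ≤ s1 / 10 * (4 * A') := by gcongr
    linarith
  have hϱ : 1 ≤ ϱ := by
    refine le_trans ?_ hϱV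
    calc (1 : ℝ) = s1 / 10 * (10 / s1) := by field_simp
      _ ≤ _ := by gcongr
  have hϱ0 : 0 < ϱ := by linarith
  obtain ⟨ho1, ho2⟩ := PT_outer hC1 (η := η) ht hti hk1 hs1 hs1' hϱ
  have hm := PT_main ht hti hk hs1 hs1' (hs1η.trans hη) hη'
  rw [← hA', ← hϱdef] at ho1 ho2
  rw [← hA'] at hm
  set X := ∫ s in Set.Ioi s1,
    (1 + |s|) ^ 2 * ‖f t k (η * I) (((cc k t * s1 : ℝ) : ℂ) + s * I)‖ with hX
  set Y := ∫ s in Set.Iio (-s1),
    (1 + |s|) ^ 2 * ‖f t k (η * I) (-((cc k t * s1 : ℝ) : ℂ) + s * I)‖ with hY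
  set Z := ∫ s in (-s1)..s1, (1 + |s|) ^ 2 * ‖f t k (η * I) ((cc k t + I) * s)‖ with hZ
  have hsq : √‖t⁻¹ + (k : ℂ)‖ ≤ √(4 * A') + √(2 * k) := by
    refine (Real.sqrt_le_sqrt hL).trans ?_
    apply Real.sqrt_le_iff.2
    refine ⟨by positivity, ?_⟩
    have e1 := Real.sq_sqrt (show 0 ≤ 4 * A' by positivity)
    have e2 := Real.sq_sqrt (show 0 ≤ 2 * k by positivity)
    have e3 : 0 ≤ √(4 * A') * √(2 * k) := by positivity
    nlinarith
  have hk0' : 0 < √k := Real.sqrt_pos.2 hk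
  -- the outer factor
  have hout : (√(4 * A') + √(2 * k)) * min (1 / √k) (1 / ϱ) ≤ √(10 / s1) + √2 := by
    have h1 : √(4 * A') * min (1 / √k) (1 / ϱ) ≤ √(10 / s1) := by
      have h2 : 4 * A' = 10 / s1 * ϱ := by
        rw [hϱdef]; field_simp; ring
      have h3 : √(4 * A') = √(10 / s1) * √ϱ := by
        rw [h2, Real.sqrt_mul (by positivity)]
      calc √(4 * A') * min (1 / √k) (1 / ϱ) ≤ √(4 * A') * (1 / ϱ) := by
            gcongr
            exact min_le_right _ _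
        _ = √(10 / s1) * (√ϱ / ϱ) := by rw [h3]; ring
        _ ≤ √(10 / s1) * 1 := by
            gcongr
            rw [div_le_one hϱ0]
            exact Real.sqrt_le_iff.2 ⟨hϱ0.le, by nlinarith⟩
        _ = _ := mul_one _
    have h4 : √(2 * k) * min (1 / √k) (1 / ϱ) ≤ √2 := by
      calc √(2 * k) * min (1 / √k) (1 / ϱ) ≤ √(2 * k) * (1 / √k) := by
            gcongr
            exact min_le_left _ _
        _ = √2 := by
            rw [Real.sqrt_mul (by norm_num)]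
            field_simp
    rw [add_mul]
    exact add_le_add h1 h4
  -- the main factor
  have hmain : (√(4 * A') + √(2 * k)) *
      min (2 * s1) (√(Real.pi / (23 / 50 * A'))) ≤
      (√(4 * Real.pi / (23 / 50)) + √2 * (2 * √5)) * Real.exp (k * s1 ^ 2 / 10) := by
    have hE1 : 1 ≤ Real.exp (k * s1 ^ 2 / 10) := Real.one_le_exp (by positivity)
    have h1 : √(4 * A') * min (2 * s1) (√(Real.pi / (23 / 50 * A'))) ≤
        √(4 * Real.pi / (23 / 50)) * Real.exp (k * s1 ^ 2 / 10) := by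
      calc √(4 * A') * min (2 * s1) (√(Real.pi / (23 / 50 * A')))
          ≤ √(4 * A') * √(Real.pi / (23 / 50 * A')) := by
            gcongr
            exact min_le_right _ _
        _ = √(4 * Real.pi / (23 / 50)) := by
            rw [← Real.sqrt_mul (by positivity)]
            congr 1
            field_simp
        _ = √(4 * Real.pi / (23 / 50)) * 1 := (mul_one _).symm
        _ ≤ _ := by gcongr
    have h2 : √(2 * k) * min (2 * s1) (√(Real.pi / (23 / 50 * A'))) ≤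
        √2 * (2 * √5) * Real.exp (k * s1 ^ 2 / 10) := by
      have h3 : √k * s1 ≤ √5 * Real.exp (k * s1 ^ 2 / 10) := by
        have h4 : k * s1 ^ 2 / 5 ≤ Real.exp (k * s1 ^ 2 / 5) := by
          have := Real.add_one_le_exp (k * s1 ^ 2 / 5)
          linarith
        have h5 : (√k * s1) ^ 2 ≤ (√5 * Real.exp (k * s1 ^ 2 / 10)) ^ 2 := by
          rw [mul_pow, mul_pow, Real.sq_sqrt hk.le, Real.sq_sqrt (by norm_num), ← Real.exp_nat_mul]
          have h6 : ((2 : ℕ) : ℝ) * (k * s1 ^ 2 / 10) = k * s1 ^ 2 / 5 := by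
            push_cast; ring
          rw [h6]
          linarith
        exact le_of_sq_le_sq h5 (by positivity)
      calc √(2 * k) * min (2 * s1) (√(Real.pi / (23 / 50 * A')))
          ≤ √(2 * k) * (2 * s1) := by
            gcongr
            exact min_le_left _ _
        _ = √2 * 2 * (√k * s1) := by
            rw [Real.sqrt_mul (by norm_num)]; ring
        _ ≤ √2 * 2 * (√5 * Real.exp (k * s1 ^ 2 / 10)) := by gcongr
        _ = _ := by ring
    rw [add_mul, add_mul]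
    exact add_le_add h1 h2
  have hX0 : 0 ≤ min (1 / √k) (1 / ϱ) := le_min (by positivity) (by positivity)
  have hZ0 : 0 ≤ min (2 * s1) (√(Real.pi / (23 / 50 * A'))) := le_min (by positivity) (by positivity)
  have hexp1 : Real.exp (-(ϱ * s1 / 2)) ≤ Real.exp (-(s1 ^ 2 / 20 / V k t)) := by
    apply Real.exp_le_exp.2
    have : s1 ^ 2 / 20 / V k t = (s1 / 10 * (V k t)⁻¹) * s1 / 2 := by
      rw [div_eq_mul_inv]; ring
    rw [this]
    have : (s1 / 10 * (V k t)⁻¹) * s1 ≤ ϱ * s1 := by gcongr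
    linarith
  have hexp2 : Real.exp (-(2 / 5 * k * s1 ^ 2)) * Real.exp (k * s1 ^ 2 / 10) ≤
      Real.exp (-(s1 ^ 2 / 20 / V k t)) := by
    rw [← Real.exp_add]
    apply Real.exp_le_exp.2
    have : s1 ^ 2 / 20 / V k t ≤ s1 ^ 2 / 20 * k := by
      rw [div_eq_mul_inv]; gcongr
    have : 0 ≤ k * s1 ^ 2 := by positivity
    nlinarith
  have hG0 : 0 ≤ √(4 * A') + √(2 * k) := by positivity
  calc √‖t⁻¹ + (k : ℂ)‖ * (X + Y + 2 * Z)
      ≤ √‖t⁻¹ + (k : ℂ)‖ * (C1 * Real.exp (-(ϱ * s1 / 2)) * min (1 / √k) (1 / ϱ) +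
          C1 * Real.exp (-(ϱ * s1 / 2)) * min (1 / √k) (1 / ϱ) +
          2 * (2 * Real.exp (-(2 / 5 * k * s1 ^ 2)) *
            min (2 * s1) (√(Real.pi / (23 / 50 * A'))))) := by
        gcongr
    _ ≤ (√(4 * A') + √(2 * k)) * (C1 * Real.exp (-(ϱ * s1 / 2)) * min (1 / √k) (1 / ϱ) +
          C1 * Real.exp (-(ϱ * s1 / 2)) * min (1 / √k) (1 / ϱ) +
          2 * (2 * Real.exp (-(2 / 5 * k * s1 ^ 2)) *
            min (2 * s1) (√(Real.pi / (23 / 50 * A'))))) := by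
        gcongr
    _ = 2 * C1 * ((√(4 * A') + √(2 * k)) * min (1 / √k) (1 / ϱ)) * Real.exp (-(ϱ * s1 / 2)) +
          4 * ((√(4 * A') + √(2 * k)) * min (2 * s1) (√(Real.pi / (23 / 50 * A')))) *
            Real.exp (-(2 / 5 * k * s1 ^ 2)) := by ring
    _ ≤ 2 * C1 * (√(10 / s1) + √2) * Real.exp (-(ϱ * s1 / 2)) +
          4 * ((√(4 * Real.pi / (23 / 50)) + √2 * (2 * √5)) * Real.exp (k * s1 ^ 2 / 10)) *
            Real.exp (-(2 / 5 * k * s1 ^ 2)) := by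
        gcongr
    _ = 2 * C1 * (√(10 / s1) + √2) * Real.exp (-(ϱ * s1 / 2)) +
          4 * (√(4 * Real.pi / (23 / 50)) + √2 * (2 * √5)) *
            (Real.exp (-(2 / 5 * k * s1 ^ 2)) * Real.exp (k * s1 ^ 2 / 10)) := by ring
    _ ≤ 2 * C1 * (√(10 / s1) + √2) * Real.exp (-(s1 ^ 2 / 20 / V k t)) +
          4 * (√(4 * Real.pi / (23 / 50)) + √2 * (2 * √5)) *
            Real.exp (-(s1 ^ 2 / 20 / V k t)) := by
        gcongr
    _ = _ := by ring

end SokalU
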