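import Pool.Agent.Lib_MP_af4de1_u.Gauss
import Pool.Agent.Lib_MP_af4de1_u.FContour
import Pool.Agent.Lib_MP_af4de1_u.PathTotal

/-!
# Lemma O: `E` away from the centre direction is exponentially smaller [SU-LO]

Let `s1, c2, V0, C` be as in `path_total`, `Λ = 1/t + k`, `A = Re(1/t) > 0`, `B = Im(1/t) ≥ 0`, `h` = the point of the path.
FIRST CLAIM.  `gauss_rep` (`κ = k`, `ξ = iη`), `f_contour` with `m = 1` (`‖1 - cI‖ ≤ 2`):
`‖E(zp t k e^{iη})‖ ≤ ‖e^{S}‖ |2πt|^{-1/2} · (total)` and `|t|^{-1/2} = √‖Λ‖ / √‖1+tk‖` (`tΛ = 1+tk`).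
SECOND CLAIM.  If `A + B ≤ k` use `gauss_rep_sub'`, `m = h/t`: on the path `‖h‖ ≤ 2|s|`,
`|1/t|·‖1+tk‖ = ‖Λ‖ |1/t| |t| = ‖Λ‖ ≤ A+B+k ≤ 2k`, so `‖m‖ ‖1+tk‖/k ≤ 4|s|`.
If `A + B > k` use `gauss_rep_sub`, `m = k(e^{iη+h} - 1)`, `‖m‖ ≤ k(e+1)`, `‖1+tk‖ ≤ 1 + k|t| ≤ 1 + √2 k/(A+B) ≤ 3`
(`1/|t| = √(A²+B²) ≥ (A+B)/√2`).
`lemmaO`: the case `Im t > 0` by conjugation (`conj_E`, `conj_DE`, `conj_zp`, `V_conj`, `Md_conj`; `η → -η`),
`Re t = 0` by the limits `tendsto_E`, `tendsto_DE`, `tendsto_Md`, `tendsto_V` at `t + ε` (take `V0/2`; the right side is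
continuous in `V`).
-/

namespace SokalU

open Complex MeasureTheory Filter Topology

/-- The integral of `m f` over the vertical line is bounded by the weighted total on the path. -/
private theorem LO_path {t : ℂ} {k η s1 : ℝ} (ht : 0 < t.re) (hti : t.im ≤ 0) (hk : 0 < k)
    (hs1 : 0 < s1) (hs1' : s1 ≤ 1 / 10) {m : ℂ → ℂ} (hm : Differentiable ℂ m) {K L : ℝ}
    (hK : ∀ x y : ℝ, |x| ≤ 1 → ‖m (x + y * I)‖ ≤ K * (1 + |y|) ^ 2) (hL0 : 0 ≤ L)
    (hL : ∀ x y : ℝ, |x| ≤ 1 → |x| ≤ |y| → ‖m (x + y * I)‖ ≤ L * (1 + |y|) ^ 2) :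
    ‖∫ s : ℝ, m (s * I) * f t k (η * I) (s * I)‖ ≤ L *
      ((∫ s in Set.Ioi s1, (1 + |s|) ^ 2 * ‖f t k (η * I) (((cc k t * s1 : ℝ) : ℂ) + s * I)‖) +
      (∫ s in Set.Iio (-s1), (1 + |s|) ^ 2 * ‖f t k (η * I) (-((cc k t * s1 : ℝ) : ℂ) + s * I)‖) +
      2 * ∫ s in (-s1)..s1, (1 + |s|) ^ 2 * ‖f t k (η * I) ((cc k t + I) * s)‖) := by
  have hc0 := cc_nonneg hk ht hti
  have hc1 := cc_le k t
  set c := cc k t with hc
  have hcs : c * s1 ≤ 1 := by nlinarith
  have hcs0 : 0 ≤ c * s1 := by positivity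
  have hcs1 : c * s1 ≤ s1 := by nlinarith
  have habs : |c * s1| ≤ 1 := by rw [abs_of_nonneg hcs0]; exact hcs
  rw [f_contour ht hm hK hc0 hs1 hcs]
  have hX : ‖∫ s in Set.Ioi s1, m (((c * s1 : ℝ) : ℂ) + s * I) *
      f t k (η * I) (((c * s1 : ℝ) : ℂ) + s * I)‖ ≤
      L * ∫ s in Set.Ioi s1, (1 + |s|) ^ 2 * ‖f t k (η * I) (((c * s1 : ℝ) : ℂ) + s * I)‖ := by
    rw [← integral_const_mul]
    apply norm_integral_le_of_norm_le
    · exact ((f_strip_integrable ht habs).integrableOn).const_mul L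
    · filter_upwards [ae_restrict_mem measurableSet_Ioi] with s hs
      have hs' : s1 < s := hs
      rw [norm_mul]
      have h1 := hL (c * s1) s habs (by
        rw [abs_of_nonneg hcs0, abs_of_pos (hs1.trans hs')]; linarith)
      calc _ ≤ (L * (1 + |s|) ^ 2) * ‖f t k (η * I) (((c * s1 : ℝ) : ℂ) + s * I)‖ := by gcongr
        _ = _ := by ring
  have hY : ‖∫ s in Set.Iio (-s1), m (-((c * s1 : ℝ) : ℂ) + s * I) *
      f t k (η * I) (-((c * s1 : ℝ) : ℂ) + s * I)‖ ≤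
      L * ∫ s in Set.Iio (-s1), (1 + |s|) ^ 2 *
        ‖f t k (η * I) (-((c * s1 : ℝ) : ℂ) + s * I)‖ := by
    rw [← integral_const_mul]
    apply norm_integral_le_of_norm_le
    · have h1 := (f_strip_integrable (κ := k) (ξ := η * I) ht (x := -(c * s1))
        (by rwa [abs_neg])).integrableOn (s := Set.Iio (-s1))
      rw [Complex.ofReal_neg] at h1
      exact h1.const_mul L
    · filter_upwards [ae_restrict_mem measurableSet_Iio] with s hs
      have hs' : s < -s1 := hs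
      have hs0 : s < 0 := by linarith
      rw [norm_mul]
      have h1 := hL (-(c * s1)) s (by rwa [abs_neg]) (by
        rw [abs_neg, abs_of_nonneg hcs0, abs_of_neg hs0]; linarith)
      rw [Complex.ofReal_neg] at h1
      calc _ ≤ (L * (1 + |s|) ^ 2) * ‖f t k (η * I) (-((c * s1 : ℝ) : ℂ) + s * I)‖ := by gcongr
        _ = _ := by ring
  have hZ : ‖∫ s in (-s1)..s1, m ((c + I) * s) * f t k (η * I) ((c + I) * s)‖ ≤
      L * ∫ s in (-s1)..s1, (1 + |s|) ^ 2 * ‖f t k (η * I) ((c + I) * s)‖ := by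
    rw [← intervalIntegral.integral_const_mul]
    apply intervalIntegral.norm_integral_le_of_norm_le (by linarith)
    · filter_upwards with s hs
      have hs' : |s| ≤ s1 := abs_le.2 ⟨hs.1.le, hs.2⟩
      have h0 : ((c : ℂ) + I) * s = ((c * s : ℝ) : ℂ) + s * I := by push_cast; ring
      have h2 : |c * s| ≤ |s| := by
        rw [abs_mul, abs_of_nonneg hc0]
        have := abs_nonneg s
        nlinarith
      rw [norm_mul]
      have h1 := hL (c * s) s (by linarith) h2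
      rw [← h0] at h1
      calc _ ≤ (L * (1 + |s|) ^ 2) * ‖f t k (η * I) ((c + I) * s)‖ := by gcongr
        _ = _ := by ring
    · apply Continuous.intervalIntegrable
      unfold f
      fun_prop
  have hn : ‖(1 : ℂ) - c * I‖ ≤ 2 := by
    refine (norm_sub_le _ _).trans ?_
    rw [norm_one, norm_mul, Complex.norm_I, mul_one, Complex.norm_real, Real.norm_of_nonneg hc0]
    linarith
  refine (norm_add_le _ _).trans ?_
  have h3 : ‖(1 - (c : ℂ) * I) * ∫ s in (-s1)..s1, m ((c + I) * s) * f t k (η * I) ((c + I) * s)‖ ≤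
      2 * (L * ∫ s in (-s1)..s1, (1 + |s|) ^ 2 * ‖f t k (η * I) ((c + I) * s)‖) := by
    rw [norm_mul]
    exact mul_le_mul hn hZ (norm_nonneg _) (by norm_num)
  have h4 := norm_add_le (∫ s in Set.Ioi s1, m (((c * s1 : ℝ) : ℂ) + s * I) *
      f t k (η * I) (((c * s1 : ℝ) : ℂ) + s * I)) (∫ s in Set.Iio (-s1),
      m (-((c * s1 : ℝ) : ℂ) + s * I) * f t k (η * I) (-((c * s1 : ℝ) : ℂ) + s * I))
  linarith

/-- From the total on the path to the value. -/
private theorem LO_core {t W G : ℂ} {k L T R : ℝ} (ht : 0 < t.re) (hk : 0 < k)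
    (hW : W * (2 * Real.pi * t) ^ (1 / 2 : ℂ) = cexp (S t k) * G) (hL : 0 ≤ L)
    (hG : ‖G‖ ≤ L * T) (hT : √‖t⁻¹ + (k : ℂ)‖ * T ≤ R) : ‖W‖ ≤ L * R * Md k t := by
  have ht0 : t ≠ 0 := by
    rintro rfl
    simp at ht
  have htn : 0 < ‖t‖ := norm_pos_iff.2 ht0
  have h1k := one_le_norm hk ht.le
  have hprod : ‖t‖ * ‖t⁻¹ + (k : ℂ)‖ = ‖1 + t * (k : ℂ)‖ := by
    rw [← norm_mul, mul_add, mul_inv_cancel₀ ht0]
  have hLam : 0 < ‖t⁻¹ + (k : ℂ)‖ := by
    by_contra h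
    have : ‖t⁻¹ + (k : ℂ)‖ = 0 := le_antisymm (not_lt.1 h) (norm_nonneg _)
    rw [this, mul_zero] at hprod
    linarith
  -- the norm of the square root
  have hsq : ‖((2 * Real.pi * t : ℂ)) ^ (1 / 2 : ℂ)‖ = √(2 * Real.pi * ‖t‖) := by
    have h2 : (((2 * Real.pi * t : ℂ)) ^ (1 / 2 : ℂ)) ^ 2 = 2 * Real.pi * t := by
      have := Complex.cpow_nat_inv_pow (2 * Real.pi * t : ℂ) (two_ne_zero)
      rw [one_div]
      exact_mod_cast this
    have h3 : ‖((2 * Real.pi * t : ℂ)) ^ (1 / 2 : ℂ)‖ ^ 2 = 2 * Real.pi * ‖t‖ := by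
      rw [← norm_pow, h2, norm_mul, norm_mul, Complex.norm_real, Real.norm_of_nonneg Real.pi_pos.le]
      norm_num
    rw [← h3, Real.sqrt_sq (norm_nonneg _)]
  have h5 : ‖W‖ * √(2 * Real.pi * ‖t‖) = ‖cexp (S t k)‖ * ‖G‖ := by
    rw [← hsq, ← norm_mul, hW, norm_mul]
  have h6 : √‖t‖ ≤ √(2 * Real.pi * ‖t‖) := by
    apply Real.sqrt_le_sqrt
    have := Real.pi_gt_three
    nlinarith
  have h7 : √‖t‖ * √‖t⁻¹ + (k : ℂ)‖ = √‖1 + t * (k : ℂ)‖ := by
    rw [← Real.sqrt_mul htn.le, hprod]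
  have h8 : 0 < √‖1 + t * (k : ℂ)‖ := Real.sqrt_pos.2 (by linarith)
  unfold Md
  rw [mul_div_assoc', le_div_iff₀ h8, ← h7]
  calc ‖W‖ * (√‖t‖ * √‖t⁻¹ + (k : ℂ)‖) = (‖W‖ * √‖t‖) * √‖t⁻¹ + (k : ℂ)‖ := by ring
    _ ≤ (‖W‖ * √(2 * Real.pi * ‖t‖)) * √‖t⁻¹ + (k : ℂ)‖ := by gcongr
    _ = ‖cexp (S t k)‖ * ‖G‖ * √‖t⁻¹ + (k : ℂ)‖ := by rw [h5]
    _ ≤ ‖cexp (S t k)‖ * (L * T) * √‖t⁻¹ + (k : ℂ)‖ := by gcongr
    _ = ‖cexp (S t k)‖ * L * (√‖t⁻¹ + (k : ℂ)‖ * T) := by ring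
    _ ≤ ‖cexp (S t k)‖ * L * R := by gcongr
    _ = L * R * ‖cexp (S t k)‖ := by ring

theorem lemmaO_pos (η1 : ℝ) (hη1 : 0 < η1) : ∃ c2 : ℝ, 0 < c2 ∧ ∃ V0 : ℝ, 0 < V0 ∧
    ∃ C : ℝ, 0 < C ∧ ∀ (t : ℂ) (k η : ℝ), 0 < t.re → t.im ≤ 0 → 0 < k → V k t ≤ V0 → η1 ≤ |η| →
    |η| ≤ Real.pi →
    ‖E t (zp t k * cexp (η * I))‖ ≤ C * Real.exp (-(c2 / V k t)) * Md k t ∧
    ‖DE t (zp t k * cexp (η * I)) - k * E t (zp t k * cexp (η * I))‖ ≤
      C * Real.exp (-(c2 / V k t)) * Md k t * (k / ‖1 + t * (k : ℂ)‖) := by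
  obtain ⟨s1, hs1, hs1', -, c2, hc2, V0, hV0, C, hC, hpt⟩ := path_total η1 hη1
  refine ⟨c2, hc2, V0, hV0, 12 * C, by positivity, ?_⟩
  intro t k η ht hti hk hV hη hη'
  have hT := hpt t k η ht hti hk hV hη hη'
  have hA := inv_re_pos ht
  have hB := inv_im_nonneg ht hti
  have hMd : 0 ≤ Md k t := by unfold Md; positivity
  have h1k := one_le_norm hk ht.le
  have ht0 : t ≠ 0 := by
    rintro rfl
    simp at ht
  have htn : 0 < ‖t‖ := norm_pos_iff.2 ht0
  have hexp := Real.exp_pos (-(c2 / V k t))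
  constructor
  · have h1 := LO_path (η := η) ht hti hk hs1 hs1' (m := fun _ => 1) (K := 1) (L := 1)
      (differentiable_const _) (fun x y _ => by
        rw [norm_one]
        have := abs_nonneg y
        nlinarith) zero_le_one (fun x y _ _ => by
        rw [norm_one]
        have := abs_nonneg y
        nlinarith)
    simp only [one_mul] at h1
    have h2 := gauss_rep ht (k : ℂ) (η * I)
    have h3 := LO_core (L := 1) ht hk h2 zero_le_one (by rw [one_mul]; exact h1) hT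
    calc _ ≤ 1 * (C * Real.exp (-(c2 / V k t))) * Md k t := h3
      _ = C * Real.exp (-(c2 / V k t)) * Md k t := by ring
      _ ≤ 12 * C * Real.exp (-(c2 / V k t)) * Md k t := by
          gcongr
          linarith
  · -- `L ≤ 12 k/‖1+tk‖` in both cases
    have hfin : ∀ L : ℝ, L * ‖1 + t * (k : ℂ)‖ ≤ 12 * k →
        ‖DE t (zp t k * cexp (η * I)) - k * E t (zp t k * cexp (η * I))‖ ≤
          L * (C * Real.exp (-(c2 / V k t))) * Md k t →
        ‖DE t (zp t k * cexp (η * I)) - k * E t (zp t k * cexp (η * I))‖ ≤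
          12 * C * Real.exp (-(c2 / V k t)) * Md k t * (k / ‖1 + t * (k : ℂ)‖) := by
      intro L h1 h2
      refine h2.trans ?_
      have h3 : L ≤ 12 * (k / ‖1 + t * (k : ℂ)‖) := by
        rw [mul_div_assoc', le_div_iff₀ (by linarith)]
        exact h1
      calc L * (C * Real.exp (-(c2 / V k t))) * Md k t
          ≤ (12 * (k / ‖1 + t * (k : ℂ)‖)) * (C * Real.exp (-(c2 / V k t))) * Md k t := by gcongr
        _ = _ := by ring
    rcases le_or_gt ((t⁻¹).re + (t⁻¹).im) k with hAB | hAB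
    · -- `m = h/t`
      have hm : ∀ x y : ℝ, ‖(fun h : ℂ => h / t) (x + y * I)‖ ≤ (|x| + |y|) / ‖t‖ := by
        intro x y
        show ‖((x : ℂ) + y * I) / t‖ ≤ _
        rw [norm_div]
        gcongr
        refine (norm_add_le _ _).trans ?_
        rw [norm_mul, Complex.norm_I, mul_one, Complex.norm_real, Complex.norm_real,
          Real.norm_eq_abs, Real.norm_eq_abs]
      have h1 := LO_path (η := η) ht hti hk hs1 hs1' (m := fun h => h / t) (K := 2 / ‖t‖)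
        (L := 2 / ‖t‖) (differentiable_id.div_const _) (fun x y hx => by
          refine (hm x y).trans ?_
          rw [div_mul_eq_mul_div]
          gcongr
          have := abs_nonneg y
          nlinarith) (by positivity) (fun x y hx hxy => by
          refine (hm x y).trans ?_
          rw [div_mul_eq_mul_div]
          gcongr
          have := abs_nonneg y
          nlinarith)
      have h2 := gauss_rep_sub' ht (k : ℂ) (η * I)
      have h3 : (DE t (zp t k * cexp (η * I)) - k * E t (zp t k * cexp (η * I))) *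
          (2 * Real.pi * t) ^ (1 / 2 : ℂ) = cexp (S t k) *
            (-∫ s : ℝ, ((s * I) / t) * f t k (η * I) (s * I)) := by
        rw [h2]; ring
      have h4 := LO_core (L := 2 / ‖t‖) ht hk h3 (by positivity) (by rw [norm_neg]; exact h1) hT
      refine hfin (2 / ‖t‖) ?_ h4
      have hprod : ‖t‖ * ‖t⁻¹ + (k : ℂ)‖ = ‖1 + t * (k : ℂ)‖ := by
        rw [← norm_mul, mul_add, mul_inv_cancel₀ ht0]
      rw [← hprod]
      have h5 : ‖t⁻¹ + (k : ℂ)‖ ≤ 2 * k := by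
        calc ‖t⁻¹ + (k : ℂ)‖ ≤ ‖t⁻¹‖ + ‖(k : ℂ)‖ := norm_add_le _ _
          _ ≤ (|(t⁻¹).re| + |(t⁻¹).im|) + k := by
              rw [Complex.norm_real, Real.norm_of_nonneg hk.le]
              gcongr
              exact Complex.norm_le_abs_re_add_abs_im _
          _ ≤ 2 * k := by rw [abs_of_pos hA, abs_of_nonneg hB]; linarith
      calc 2 / ‖t‖ * (‖t‖ * ‖t⁻¹ + (k : ℂ)‖) = 2 * ‖t⁻¹ + (k : ℂ)‖ := by
            field_simp
        _ ≤ 12 * k := by linarith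
    · -- `m = k (e^{iη+h} - 1)`
      have hm : ∀ x y : ℝ, |x| ≤ 1 →
          ‖(fun h : ℂ => (k : ℂ) * (cexp (η * I + h) - 1)) (x + y * I)‖ ≤ 4 * k := by
        intro x y hx
        show ‖(k : ℂ) * (cexp (η * I + ((x : ℂ) + y * I)) - 1)‖ ≤ _
        rw [norm_mul, Complex.norm_real, Real.norm_of_nonneg hk.le]
        have h1 : ‖cexp (η * I + ((x : ℂ) + y * I))‖ ≤ Real.exp 1 := by
          rw [Complex.norm_exp]
          apply Real.exp_le_exp.2
          simp only [Complex.add_re, Complex.mul_re, Complex.ofReal_re, Complex.I_re,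
            Complex.ofReal_im, Complex.I_im]
          have := (abs_le.1 hx).2
          linarith
        have h2 : ‖cexp (η * I + ((x : ℂ) + y * I)) - 1‖ ≤ 4 := by
          refine (norm_sub_le _ _).trans ?_
          rw [norm_one]
          have := Real.exp_one_lt_d9
          linarith
        calc k * ‖cexp (η * I + ((x : ℂ) + y * I)) - 1‖ ≤ k * 4 := by gcongr
          _ = 4 * k := by ring
      have hw : ∀ y : ℝ, 4 * k ≤ 4 * k * (1 + |y|) ^ 2 := by
        intro y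
        have h1 := abs_nonneg y
        have h2 : (1 : ℝ) ≤ (1 + |y|) ^ 2 := by nlinarith
        nlinarith
      have h1 := LO_path (η := η) ht hti hk hs1 hs1'
        (m := fun h => (k : ℂ) * (cexp (η * I + h) - 1)) (K := 4 * k) (L := 4 * k)
        (by fun_prop) (fun x y hx => (hm x y hx).trans (hw y)) (by positivity)
        (fun x y hx _ => (hm x y hx).trans (hw y))
      have h2 := gauss_rep_sub ht (k : ℂ) (η * I)
      have h4 := LO_core (L := 4 * k) ht hk h2 (by positivity) h1 hT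
      refine hfin (4 * k) ?_ h4
      have h5 : ‖t‖ * k ≤ 2 := by
        have h6 : (t⁻¹).re ≤ ‖t⁻¹‖ := Complex.re_le_norm _
        have h7 : (t⁻¹).im ≤ ‖t⁻¹‖ := (le_abs_self _).trans (Complex.abs_im_le_norm _)
        have h8 : k ≤ 2 * ‖t⁻¹‖ := by linarith
        calc ‖t‖ * k ≤ ‖t‖ * (2 * ‖t⁻¹‖) := by gcongr
          _ = 2 := by rw [norm_inv]; field_simp
      have h9 : ‖1 + t * (k : ℂ)‖ ≤ 3 := by
        refine (norm_add_le _ _).trans ?_
        rw [norm_one, norm_mul, Complex.norm_real, Real.norm_of_nonneg hk.le]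
        linarith
      calc 4 * k * ‖1 + t * (k : ℂ)‖ ≤ 4 * k * 3 := by gcongr
        _ = 12 * k := by ring

theorem lemmaO (η1 : ℝ) (hη1 : 0 < η1) : ∃ c2 : ℝ, 0 < c2 ∧ ∃ V0 : ℝ, 0 < V0 ∧
    ∃ C : ℝ, 0 < C ∧ ∀ (t : ℂ) (k η : ℝ), 0 ≤ t.re → 0 < k → V k t ≤ V0 → η1 ≤ |η| →
    |η| ≤ Real.pi →
    ‖E t (zp t k * cexp (η * I))‖ ≤ C * Real.exp (-(c2 / V k t)) * Md k t ∧
    ‖DE t (zp t k * cexp (η * I)) - k * E t (zp t k * cexp (η * I))‖ ≤
      C * Real.exp (-(c2 / V k t)) * Md k t * (k / ‖1 + t * (k : ℂ)‖) := by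
  obtain ⟨c2, hc2, V0, hV0, C, hC, H⟩ := lemmaO_pos η1 hη1
  -- both signs of `Im t`
  have H2 : ∀ (t : ℂ) (k η : ℝ), 0 < t.re → 0 < k → V k t ≤ V0 → η1 ≤ |η| → |η| ≤ Real.pi →
      ‖E t (zp t k * cexp (η * I))‖ ≤ C * Real.exp (-(c2 / V k t)) * Md k t ∧
      ‖DE t (zp t k * cexp (η * I)) - k * E t (zp t k * cexp (η * I))‖ ≤
        C * Real.exp (-(c2 / V k t)) * Md k t * (k / ‖1 + t * (k : ℂ)‖) := by
    intro t k η ht hk hV hη hη'
    rcases le_total t.im 0 with hti | hti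
    · exact H t k η ht hti hk hV hη hη'
    · have h1 := H ((starRingEnd ℂ) t) k (-η) (by simpa using ht) (by simpa using hti) hk
        (by rw [V_conj]; exact hV) (by rwa [abs_neg]) (by rwa [abs_neg])
      have hpt : zp ((starRingEnd ℂ) t) k * cexp (((-η : ℝ) : ℂ) * I) =
          (starRingEnd ℂ) (zp t k * cexp (η * I)) := by
        rw [map_mul, ← conj_zp, Complex.conj_ofReal, ← Complex.exp_conj, map_mul,
          Complex.conj_ofReal, Complex.conj_I]
        congr 2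
        push_cast
        ring
      have hn : ‖1 + (starRingEnd ℂ) t * (k : ℂ)‖ = ‖1 + t * (k : ℂ)‖ := by
        have h : 1 + (starRingEnd ℂ) t * (k : ℂ) = (starRingEnd ℂ) (1 + t * (k : ℂ)) := by
          rw [map_add, map_mul, map_one, Complex.conj_ofReal]
        rw [h, Complex.norm_conj]
      rw [hpt, conj_E, conj_DE, V_conj, Md_conj, hn, Complex.norm_conj] at h1
      refine ⟨h1.1, ?_⟩
      have h2 : (starRingEnd ℂ) (DE t (zp t k * cexp (η * I))) -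
          k * (starRingEnd ℂ) (E t (zp t k * cexp (η * I))) =
          (starRingEnd ℂ) (DE t (zp t k * cexp (η * I)) - k * E t (zp t k * cexp (η * I))) := by
        rw [map_sub, map_mul, Complex.conj_ofReal]
      rw [h2, Complex.norm_conj] at h1
      exact h1.2
  refine ⟨c2, hc2, V0 / 2, by positivity, C, hC, ?_⟩
  intro t k η ht hk hV hη hη'
  have hVpos := V_pos hk ht
  have hVt := tendsto_V hk ht
  have hEt := tendsto_E ht (k : ℂ) (cexp (η * I))
  have hDEt := tendsto_DE ht (k : ℂ) (cexp (η * I))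
  have hMt := tendsto_Md hk ht
  have hev : ∀ᶠ ε : ℝ in 𝓝[>] 0, V k (t + ε) ≤ V0 := by
    have : V k t < V0 := by linarith
    exact (hVt.eventually (gt_mem_nhds this)).mono fun ε h => h.le
  have hpos : ∀ᶠ ε : ℝ in 𝓝[>] 0, 0 < (t + (ε : ℂ)).re := by
    filter_upwards [self_mem_nhdsWithin] with ε hε
    have h : (0 : ℝ) < ε := hε
    rw [Complex.add_re, Complex.ofReal_re]
    linarith
  have hexp : Tendsto (fun ε : ℝ => C * Real.exp (-(c2 / V k (t + ε))) * Md k (t + ε)) (𝓝[>] 0)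
      (𝓝 (C * Real.exp (-(c2 / V k t)) * Md k t)) := by
    refine Tendsto.mul (Tendsto.const_mul C ?_) hMt
    exact (Real.continuous_exp.tendsto _).comp ((tendsto_const_nhds.div hVt hVpos.ne').neg)
  have hnorm : Tendsto (fun ε : ℝ => k / ‖1 + (t + (ε : ℂ)) * (k : ℂ)‖) (𝓝[>] 0)
      (𝓝 (k / ‖1 + t * (k : ℂ)‖)) := by
    have h1k := one_le_norm hk ht
    have h1k' : ‖1 + t * (k : ℂ)‖ ≠ 0 := by
      intro h
      rw [h] at h1k
      linarith
    have hcont : Continuous fun ε : ℝ => ‖1 + (t + (ε : ℂ)) * (k : ℂ)‖ := by fun_prop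
    have h2 := (hcont.tendsto 0).mono_left (nhdsWithin_le_nhds (s := Set.Ioi (0 : ℝ)))
    have h3 : Tendsto (fun ε : ℝ => ‖1 + (t + (ε : ℂ)) * (k : ℂ)‖) (𝓝[>] 0)
        (𝓝 ‖1 + t * (k : ℂ)‖) := by simpa using h2
    exact tendsto_const_nhds.div h3 h1k'
  constructor
  · refine le_of_tendsto_of_tendsto hEt.norm hexp ?_
    filter_upwards [hev, hpos] with ε h1 h2
    exact (H2 _ k η h2 hk h1 hη hη').1
  · refine le_of_tendsto_of_tendsto (hDEt.sub (hEt.const_mul (k : ℂ))).norm (hexp.mul hnorm) ?_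
    filter_upwards [hev, hpos] with ε h1 h2
    exact (H2 _ k η h2 hk h1 hη hη').2

end SokalU
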