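import Pool.Agent.Lib_MP_af4de1_u.Inside
import Pool.Agent.Lib_MP_af4de1_u.LemmaO
import Pool.Agent.Lib_MP_af4de1_u.Lifts
import Pool.Agent.Lib_MP_af4de1_u.Comb

/-!
# No common zero of `F` and `zF'` at the parameters `N ≥ N0`
-/

namespace SokalU

open Complex

/-- `inside` with `η1 ≤ 1`. -/
theorem inside' : ∃ η1 : ℝ, 0 < η1 ∧ η1 ≤ 1 ∧ ∃ V0 : ℝ, 0 < V0 ∧ ∃ C : ℝ, 0 < C ∧
    ∀ (t : ℂ) (k : ℝ), 0 ≤ t.re → 0 < k → V k t ≤ V0 → ∃ Mm : ℝ → ℂ,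
    (∀ η : ℝ, |η| ≤ η1 → DE t (zp t k * cexp (η * I)) = Mm η * E t (zp t k * cexp (η * I))) ∧
    (∀ η : ℝ, |η| ≤ η1 →
      9 / 10 * Md k t * Real.exp (-(11 / 20 * η ^ 2 / V k t)) ≤ ‖E t (zp t k * cexp (η * I))‖ ∧
      ‖E t (zp t k * cexp (η * I))‖ ≤ 11 / 10 * Md k t * Real.exp (-(9 / 20 * η ^ 2 / V k t))) ∧
    (∀ η h : ℝ, 0 < h → |η + h| ≤ η1 → |η - h| ≤ η1 →
      ‖E t (zp t k * cexp (((η + h : ℝ) : ℂ) * I))‖ *
        ‖E t (zp t k * cexp (((η - h : ℝ) : ℂ) * I))‖ ≤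
      ‖E t (zp t k * cexp (η * I))‖ ^ 2 * Real.exp (1 / 50 - 49 / 50 * h ^ 2 / V k t)) ∧
    (∀ η η' : ℝ, |η| ≤ η1 → |η'| ≤ η1 →
      ‖Mm η - Mm η'‖ ≤ (9 / 8 * |η - η'| + C * V k t) * (k / ‖1 + t * (k : ℂ)‖) ∧
      (9 / 10 * |η - η'| - C * V k t) * (k / ‖1 + t * (k : ℂ)‖) ≤ ‖Mm η - Mm η'‖) ∧
    (∀ η : ℝ, |η| ≤ η1 → ‖Mm η - k‖ ≤ k / ‖1 + t * (k : ℂ)‖) := by
  obtain ⟨η1, hη1, V0, hV0, C, hC, h⟩ := inside
  refine ⟨min η1 1, lt_min hη1 one_pos, min_le_right _ _, V0, hV0, C, hC, ?_⟩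
  intro t k ht hk hV
  obtain ⟨Mm, h1, h2, h3, h4, h5⟩ := h t k ht hk hV
  have hm : min η1 1 ≤ η1 := min_le_left _ _
  exact ⟨Mm, fun η hη => h1 η (hη.trans hm), fun η hη => h2 η (hη.trans hm),
    fun η h' hh ha hb => h3 η h' hh (ha.trans hm) (hb.trans hm),
    fun η η' ha hb => h4 η η' (ha.trans hm) (hb.trans hm), fun η hη => h5 η (hη.trans hm)⟩

/-- `Md > 0`. -/
theorem Md_pos {k : ℝ} {t : ℂ} (hk : 0 < k) (ht : 0 ≤ t.re) : 0 < Md k t := by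
  have h1 : (1 : ℝ) ≤ ‖1 + t * (k : ℂ)‖ := one_le_norm hk ht
  unfold Md
  have : 0 < ‖cexp (S t k)‖ := by
    rw [Complex.norm_exp]; exact Real.exp_pos _
  positivity

/-- The constants. -/
theorem exists_h0 {η1 V0 V2 C C2 c2 : ℝ} (hη1 : 0 < η1) (hV0 : 0 < V0) (hV2 : 0 < V2) (hC : 0 < C)
    (hC2 : 0 < C2) (hc2 : 0 < c2) : ∃ h0 : ℝ, 0 < h0 ∧ ∀ h : ℝ, 0 < h → h ≤ h0 →
      3 * h ≤ η1 ∧ C * h ≤ 3 / 100 * Real.pi ∧ h ^ 2 / Real.pi ≤ V0 ∧ h ^ 2 / Real.pi ≤ V2 ∧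
      11 / 80 * h ^ 2 ≤ c2 / 2 ∧ h ^ 2 ≤ 9 / 100 * Real.pi * c2 ^ 2 / (32 * C2) := by
  have hpi := Real.pi_pos
  obtain ⟨x, hx, hxx⟩ : ∃ x : ℝ, 0 < x ∧ (x ≤ 1 ∧ x ≤ η1 / 3 ∧ x ≤ 3 / 100 * Real.pi / C ∧
      x ≤ V0 ∧ x ≤ V2 ∧ x ≤ c2 / 2 ∧ x ≤ 9 / 100 * Real.pi * c2 ^ 2 / (32 * C2)) := by
    refine ⟨min 1 (min (η1 / 3) (min (3 / 100 * Real.pi / C) (min V0 (min V2 (min (c2 / 2)
      (9 / 100 * Real.pi * c2 ^ 2 / (32 * C2))))))), by positivity, ?_⟩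
    simp only [min_le_iff, le_refl, true_or, or_true, and_self]
  obtain ⟨x1, x2, x3, x4, x5, x6, x7⟩ := hxx
  refine ⟨x, hx, fun h hh hhx => ?_⟩
  have hsq : h ^ 2 ≤ x := by nlinarith
  have hpi1 : (1 : ℝ) ≤ Real.pi := by linarith [Real.pi_gt_three]
  have hd : h ^ 2 / Real.pi ≤ x := (div_le_self (by positivity) hpi1).trans hsq
  refine ⟨by linarith, ?_, hd.trans x4, hd.trans x5, by nlinarith, hsq.trans x7⟩
  have := (le_div_iff₀ hC).1 x3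
  nlinarith

theorem exp_neg_le_two_div_sq {y : ℝ} (hy : 0 < y) : Real.exp (-y) ≤ 2 / y ^ 2 := by
  have h1 := Real.quadratic_le_exp_of_nonneg hy.le
  rw [Real.exp_neg, inv_eq_one_div, div_le_div_iff₀ (Real.exp_pos _) (by positivity)]
  nlinarith [Real.exp_pos y]

theorem exp_three : Real.exp (-3) ≤ 1 / 20 := by
  have h1 := Real.exp_one_gt_d9
  have h2 : Real.exp 3 = Real.exp 1 ^ 3 := by
    rw [← Real.exp_nat_mul]; norm_num
  have h3 : (20 : ℝ) ≤ Real.exp 3 := by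
    rw [h2]
    have : (2.7182818283 : ℝ) ^ 3 ≤ Real.exp 1 ^ 3 := by gcongr
    refine le_trans ?_ this
    norm_num
  rw [Real.exp_neg, inv_eq_one_div]
  exact one_div_le_one_div_of_le (by norm_num) h3

/-- The abstract core. -/
theorem core_abs {N : ℕ} (hN : 0 < N) {h β ε v κ M0 g0 k η1 C C2 c2 : ℝ} {e d Mm : ℝ → ℂ}
    {g : ℤ → ℂ} (hh : h = 2 * Real.pi / N) (hv : 0 < v) (hvh : v ≤ h ^ 2 / Real.pi) (hκ : 0 < κ)
    (hM0 : 0 < M0) (hg0 : 0 < g0) (hg : ∀ m, ‖g m‖ = g0) (hη1 : 0 < η1) (hη1' : η1 ≤ 1)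
    (hC : 0 < C) (hC2 : 0 < C2) (hc2 : 0 < c2)
    (c_1 : 3 * h ≤ η1) (c_2 : C * h ≤ 3 / 100 * Real.pi)
    (c_3 : 11 / 80 * h ^ 2 ≤ c2 / 2) (c_4 : h ^ 2 ≤ 9 / 100 * Real.pi * c2 ^ 2 / (32 * C2))
    (p1 : ∀ η : ℝ, |η| ≤ η1 → d η = Mm η * e η)
    (p2 : ∀ η : ℝ, |η| ≤ η1 →
      9 / 10 * M0 * Real.exp (-(11 / 20 * η ^ 2 / v)) ≤ ‖e η‖ ∧
      ‖e η‖ ≤ 11 / 10 * M0 * Real.exp (-(9 / 20 * η ^ 2 / v)))
    (p3 : ∀ η h : ℝ, 0 < h → |η + h| ≤ η1 → |η - h| ≤ η1 →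
      ‖e (η + h)‖ * ‖e (η - h)‖ ≤ ‖e η‖ ^ 2 * Real.exp (1 / 50 - 49 / 50 * h ^ 2 / v))
    (p4 : ∀ η η' : ℝ, |η| ≤ η1 → |η'| ≤ η1 →
      ‖Mm η - Mm η'‖ ≤ (9 / 8 * |η - η'| + C * v) * κ ∧
      (9 / 10 * |η - η'| - C * v) * κ ≤ ‖Mm η - Mm η'‖)
    (p5 : ∀ η : ℝ, |η| ≤ η1 → ‖Mm η - k‖ ≤ κ)
    (p6 : ∀ η : ℝ, η1 ≤ |η| → |η| ≤ Real.pi → ‖e η‖ ≤ C2 * Real.exp (-(c2 / v)) * M0 ∧
      ‖d η - k * e η‖ ≤ C2 * Real.exp (-(c2 / v)) * M0 * κ)
    {m0 : ℤ} (hm0 : m0 = ⌈(-Real.pi - β) / h - ε⌉)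
    (hsT : ∑ m ∈ Finset.Ico m0 (m0 + N), g m * e (β + h * (m + ε)) = 0)
    (hsD : ∑ m ∈ Finset.Ico m0 (m0 + N), g m * d (β + h * (m + ε)) = 0) : False := by
  have hpi := Real.pi_pos
  have hpi3 := Real.pi_gt_three
  have hNR : (0 : ℝ) < N := by exact_mod_cast hN
  have hhpos : 0 < h := by rw [hh]; positivity
  have hNh : (N : ℝ) * h = 2 * Real.pi := by rw [hh]; field_simp
  -- `h^2 / v ≥ π`
  have hhv : Real.pi ≤ h ^ 2 / v := by
    rw [le_div_iff₀ hv]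
    rw [le_div_iff₀ hpi] at hvh
    linarith
  have hCv : C * v ≤ 3 / 100 * h := by
    have h1 : C * v ≤ C * (h ^ 2 / Real.pi) := by gcongr
    have h2 : C * (h ^ 2 / Real.pi) = (C * h) * h / Real.pi := by ring
    have h3 : (C * h) * h / Real.pi ≤ (3 / 100 * Real.pi) * h / Real.pi := by gcongr
    have h4 : (3 / 100 * Real.pi) * h / Real.pi = 3 / 100 * h := by field_simp
    linarith
  set η : ℤ → ℝ := fun m => β + h * (m + ε) with hηdef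
  have hηsucc : ∀ m : ℤ, η (m + 1) = η m + h := by
    intro m; simp only [hηdef]; push_cast; ring
  have hηpred : ∀ m : ℤ, η (m - 1) = η m - h := by
    intro m; simp only [hηdef]; push_cast; ring
  have hηdiff : ∀ m m' : ℤ, η m - η m' = h * ((m : ℝ) - m') := by
    intro m m'; simp only [hηdef]; ring
  -- the window
  have hwin : ∀ m : ℤ, m0 ≤ m → m < m0 + N → |η m| ≤ Real.pi := by
    intro m h1 h2
    have e1 : (-Real.pi - β) / h - ε ≤ m := by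
      rw [hm0, Int.ceil_le] at h1; exact h1
    have e2 : (m : ℝ) < (-Real.pi - β) / h - ε + N := by
      have h3 : m + 1 ≤ m0 + N := by omega
      have h4 : ((m : ℝ) + 1) ≤ m0 + N := by exact_mod_cast h3
      have h5 : (m0 : ℝ) < (-Real.pi - β) / h - ε + 1 := by rw [hm0]; exact Int.ceil_lt_add_one _
      linarith
    have e3 : (-Real.pi - β) / h ≤ m + ε := by linarith
    have e4 : (m : ℝ) + ε < (-Real.pi - β) / h + N := by linarith
    rw [div_le_iff₀ hhpos] at e3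
    have e5 : ((m : ℝ) + ε) * h < ((-Real.pi - β) / h + N) * h := by gcongr
    rw [add_mul ((-Real.pi - β) / h), div_mul_cancel₀ _ hhpos.ne', hNh] at e5
    rw [abs_le]
    simp only [hηdef]
    constructor <;> nlinarith
  set a : ℤ := ⌈(-η1 - β) / h - ε⌉ with hadef
  set b : ℤ := ⌊(η1 - β) / h - ε⌋ with hbdef
  have hab : ∀ m : ℤ, (a ≤ m ∧ m ≤ b) ↔ |η m| ≤ η1 := by
    intro m
    rw [hadef, hbdef, Int.ceil_le, Int.le_floor, abs_le, sub_le_iff_le_add, le_sub_iff_add_le,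
      div_le_iff₀ hhpos, le_div_iff₀ hhpos]
    simp only [hηdef]
    constructor
    · rintro ⟨h1, h2⟩; constructor <;> nlinarith
    · rintro ⟨h1, h2⟩; constructor <;> nlinarith
  have ham0 : m0 ≤ a := by
    rw [hm0, hadef]
    apply Int.ceil_le_ceil
    gcongr
    linarith
  have hbm1 : b < m0 + N := by
    have h1 : (b : ℝ) ≤ (η1 - β) / h - ε := Int.floor_le _
    have h2 : (-Real.pi - β) / h - ε ≤ m0 := by rw [hm0]; exact Int.le_ceil _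
    have h3 : (η1 - β) / h < (-Real.pi - β) / h + N := by
      rw [div_add' _ _ _ hhpos.ne', hNh]
      gcongr
      linarith
    have h4 : (b : ℝ) < m0 + N := by linarith
    exact_mod_cast h4
  -- the centre
  obtain ⟨mc, hmc⟩ : ∃ mc : ℤ, |η mc| ≤ h / 2 := by
    refine ⟨round (-β / h - ε), ?_⟩
    have h1 := abs_sub_round (-β / h - ε)
    have h2 : η (round (-β / h - ε)) = -(h * ((-β / h - ε) - round (-β / h - ε))) := by
      simp only [hηdef]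
      field_simp
      ring
    rw [h2, abs_neg, abs_mul, abs_of_pos hhpos]
    nlinarith
  have hmcab : a ≤ mc ∧ mc ≤ b := (hab mc).2 (by linarith)
  set T : ℤ → ℂ := fun m => g m * e (η m) with hTdef
  set D : ℤ → ℂ := fun m => g m * d (η m) with hDdef
  have hTn : ∀ m, ‖T m‖ = g0 * ‖e (η m)‖ := fun m => by simp only [hTdef, norm_mul, hg]
  obtain ⟨μ, hμmem, hμ⟩ := Finset.exists_max_image (Finset.Icc a b) (fun m => ‖T m‖)
    ⟨mc, Finset.mem_Icc.2 hmcab⟩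
  rw [Finset.mem_Icc] at hμmem
  have hTmc : g0 * (9 / 10 * M0 * Real.exp (-(11 / 80 * (h ^ 2 / v)))) ≤ ‖T mc‖ := by
    rw [hTn]
    have h1 := (p2 (η mc) (by linarith)).1
    have h2 : Real.exp (-(11 / 80 * (h ^ 2 / v))) ≤ Real.exp (-(11 / 20 * (η mc) ^ 2 / v)) := by
      apply Real.exp_le_exp.2
      have : (η mc) ^ 2 ≤ (h / 2) ^ 2 := sq_le_sq' (by linarith [(abs_le.1 hmc).1]) (abs_le.1 hmc).2
      have : 11 / 20 * (η mc) ^ 2 / v ≤ 11 / 20 * (h / 2) ^ 2 / v := by gcongr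
      have : 11 / 20 * (h / 2) ^ 2 / v = 11 / 80 * (h ^ 2 / v) := by ring
      linarith
    have h3 : 9 / 10 * M0 * Real.exp (-(11 / 80 * (h ^ 2 / v))) ≤
        9 / 10 * M0 * Real.exp (-(11 / 20 * (η mc) ^ 2 / v)) := by gcongr
    have := h3.trans h1
    gcongr
  have hTμ : g0 * (9 / 10 * M0 * Real.exp (-(11 / 80 * (h ^ 2 / v)))) ≤ ‖T μ‖ :=
    hTmc.trans (hμ mc (Finset.mem_Icc.2 hmcab))
  have hTμpos : 0 < ‖T μ‖ := lt_of_lt_of_le (by positivity) hTμ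
  -- `|η μ| < 2h`
  have hμη : |η μ| < 2 * h := by
    by_contra hcon
    push Not at hcon
    have h1 := (p2 (η μ) ((hab μ).1 hμmem)).2
    have h2 : Real.exp (-(9 / 20 * (η μ) ^ 2 / v)) ≤ Real.exp (-(9 / 5 * (h ^ 2 / v))) := by
      apply Real.exp_le_exp.2
      have h3 : (2 * h) ^ 2 ≤ (η μ) ^ 2 := by
        rw [← sq_abs (η μ)]
        gcongr
      have : 9 / 20 * (2 * h) ^ 2 / v ≤ 9 / 20 * (η μ) ^ 2 / v := by gcongr
      have : 9 / 20 * (2 * h) ^ 2 / v = 9 / 5 * (h ^ 2 / v) := by ring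
      linarith
    have h3 : ‖T μ‖ ≤ g0 * (11 / 10 * M0 * Real.exp (-(9 / 5 * (h ^ 2 / v)))) := by
      rw [hTn]
      have : 11 / 10 * M0 * Real.exp (-(9 / 20 * (η μ) ^ 2 / v)) ≤
        11 / 10 * M0 * Real.exp (-(9 / 5 * (h ^ 2 / v))) := by gcongr
      have := h1.trans this
      gcongr
    have h4 := hTμ.trans h3
    have h5 : 9 / 10 * Real.exp (-(11 / 80 * (h ^ 2 / v))) ≤
        11 / 10 * Real.exp (-(9 / 5 * (h ^ 2 / v))) := by
      have h6 : (g0 * M0) * (9 / 10 * Real.exp (-(11 / 80 * (h ^ 2 / v)))) ≤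
        (g0 * M0) * (11 / 10 * Real.exp (-(9 / 5 * (h ^ 2 / v)))) := by
        calc _ = g0 * (9 / 10 * M0 * Real.exp (-(11 / 80 * (h ^ 2 / v)))) := by ring
          _ ≤ _ := h4
          _ = _ := by ring
      exact le_of_mul_le_mul_left h6 (by positivity)
    have h6 : Real.exp (-(9 / 5 * (h ^ 2 / v))) =
        Real.exp (-(11 / 80 * (h ^ 2 / v))) * Real.exp (-(133 / 80 * (h ^ 2 / v))) := by
      rw [← Real.exp_add]; congr 1; ring
    have h7 : Real.exp (-(133 / 80 * (h ^ 2 / v))) ≤ Real.exp (-3) := by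
      apply Real.exp_le_exp.2; nlinarith
    have h8 := exp_three
    rw [h6] at h5
    have h9 := Real.exp_pos (-(11 / 80 * (h ^ 2 / v)))
    have h10 : Real.exp (-(11 / 80 * (h ^ 2 / v))) * Real.exp (-(133 / 80 * (h ^ 2 / v))) ≤
      Real.exp (-(11 / 80 * (h ^ 2 / v))) * (1 / 20) := by
      gcongr; linarith
    linarith
  have hμη' := abs_lt.1 hμη
  have haμ : a < μ := by
    have h1 : |η (μ - 1)| ≤ η1 := by
      rw [hηpred, abs_le]; constructor <;> linarith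
    have := ((hab (μ - 1)).2 h1).1
    omega
  have hμb : μ < b := by
    have h1 : |η (μ + 1)| ≤ η1 := by
      rw [hηsucc, abs_le]; constructor <;> linarith
    have := ((hab (μ + 1)).2 h1).2
    omega
  have hlam : 0 < h * κ := mul_pos hhpos hκ
  refine comb (a := a) (b := b) (m0 := m0) (m1 := m0 + N) (μ := μ) (T := T) (D := D)
    (M := fun m => Mm (η m)) hlam ham0 hbm1 haμ hμb
    (fun m h1 h2 => hμ m (Finset.mem_Icc.2 ⟨h1, h2⟩)) ?_ ?_ ?_ ?_ ?_ ?_ hsT hsD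
  · intro m h1 h2 h3
    have h4 := (p2 (η m) ((hab m).1 ⟨h1, h2⟩)).1
    have h5 : 0 < ‖T m‖ := by
      rw [hTn]
      have : 0 < 9 / 10 * M0 * Real.exp (-(11 / 20 * (η m) ^ 2 / v)) := by positivity
      have := this.trans_le h4
      positivity
    rw [h3, norm_zero] at h5
    exact lt_irrefl _ h5
  · intro m h1 h2
    simp only [hTdef, hDdef]
    rw [p1 (η m) ((hab m).1 ⟨h1, h2⟩)]
    ring
  · intro m h1 h2
    have e1 : |η m + h| ≤ η1 := by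
      rw [← hηsucc]; exact (hab (m + 1)).1 ⟨by omega, by omega⟩
    have e2 : |η m - h| ≤ η1 := by
      rw [← hηpred]; exact (hab (m - 1)).1 ⟨by omega, by omega⟩
    have h3 := p3 (η m) h hhpos e1 e2
    have h4 : Real.exp (1 / 50 - 49 / 50 * h ^ 2 / v) ≤ 1 / 20 := by
      refine le_trans (Real.exp_le_exp.2 ?_) exp_three
      have : 49 / 50 * h ^ 2 / v = 49 / 50 * (h ^ 2 / v) := by ring
      rw [this]
      have := Real.pi_gt_d2
      linarith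
    rw [hTn, hTn, hTn, hηsucc, hηpred]
    have h5 : ‖e (η m)‖ ^ 2 * Real.exp (1 / 50 - 49 / 50 * h ^ 2 / v) ≤
      ‖e (η m)‖ ^ 2 * (1 / 20) := by gcongr
    have h6 := h3.trans h5
    calc g0 * ‖e (η m + h)‖ * (g0 * ‖e (η m - h)‖) =
        g0 ^ 2 * (‖e (η m + h)‖ * ‖e (η m - h)‖) := by ring
      _ ≤ g0 ^ 2 * (‖e (η m)‖ ^ 2 * (1 / 20)) := by gcongr
      _ = _ := by ring
  · intro m m' h1 h2 h3 h4 hne
    have h5 := (p4 (η m) (η m') ((hab m).1 ⟨h1, h2⟩) ((hab m').1 ⟨h3, h4⟩)).1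
    refine h5.trans ?_
    rw [hηdiff, abs_mul, abs_of_pos hhpos]
    have h6 : (1 : ℝ) ≤ |(m : ℝ) - m'| := by
      have : (1 : ℤ) ≤ |m - m'| := Int.one_le_abs (sub_ne_zero.2 hne)
      exact_mod_cast this
    have h7 : 9 / 8 * (h * |(m : ℝ) - m'|) + C * v ≤ 118 / 100 * |(m : ℝ) - m'| * h := by
      nlinarith
    calc (9 / 8 * (h * |(m : ℝ) - m'|) + C * v) * κ ≤ (118 / 100 * |(m : ℝ) - m'| * h) * κ := by
          gcongr
      _ = _ := by ring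
  · intro m h1 h2
    have h5 := (p4 (η (m + 1)) (η m) ((hab (m + 1)).1 ⟨by omega, by omega⟩)
      ((hab m).1 ⟨h1, by omega⟩)).2
    refine le_trans ?_ h5
    rw [hηsucc, add_sub_cancel_left, abs_of_pos hhpos]
    have h7 : 87 / 100 * h ≤ 9 / 10 * h - C * v := by linarith
    calc 87 / 100 * (h * κ) = (87 / 100 * h) * κ := by ring
      _ ≤ _ := by gcongr
  · intro ν h1 h2
    have hνM := p5 (η ν) ((hab ν).1 ⟨h1, h2⟩)
    have hterm : ∀ m ∈ (Finset.Ico m0 (m0 + N)).filter (fun m => ¬ (a ≤ m ∧ m ≤ b)),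
        ‖D m - Mm (η ν) * T m‖ ≤ 2 * (g0 * (C2 * Real.exp (-(c2 / v)) * M0 * κ)) := by
      intro m hm
      rw [Finset.mem_filter, Finset.mem_Ico, hab] at hm
      obtain ⟨⟨i1, i2⟩, i3⟩ := hm
      push Not at i3
      obtain ⟨j1, j2⟩ := p6 (η m) i3.le (hwin m i1 i2)
      have : D m - Mm (η ν) * T m = g m * (d (η m) - k * e (η m)) -
          g m * ((Mm (η ν) - k) * e (η m)) := by
        simp only [hTdef, hDdef]; ring
      rw [this]
      refine (norm_sub_le _ _).trans ?_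
      rw [norm_mul, norm_mul, norm_mul, hg]
      have : ‖Mm (η ν) - k‖ * ‖e (η m)‖ ≤ κ * (C2 * Real.exp (-(c2 / v)) * M0) := by gcongr
      calc g0 * ‖d (η m) - k * e (η m)‖ + g0 * (‖Mm (η ν) - k‖ * ‖e (η m)‖) ≤
          g0 * (C2 * Real.exp (-(c2 / v)) * M0 * κ) +
            g0 * (κ * (C2 * Real.exp (-(c2 / v)) * M0)) := by gcongr
        _ = _ := by ring
    refine (Finset.sum_le_card_nsmul _ _ _ hterm).trans ?_
    rw [nsmul_eq_mul]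
    have hcard : (((Finset.Ico m0 (m0 + N)).filter
        (fun m => ¬ (a ≤ m ∧ m ≤ b))).card : ℝ) ≤ N := by
      have : ((Finset.Ico m0 (m0 + N)).filter
        (fun m => ¬ (a ≤ m ∧ m ≤ b))).card ≤ (Finset.Ico m0 (m0 + (N : ℤ))).card :=
        Finset.card_filter_le _ _
      rw [Int.card_Ico] at this
      have h3 : (m0 + (N : ℤ) - m0).toNat = N := by simp
      rw [h3] at this
      exact_mod_cast this
    have hkey : (N : ℝ) * (2 * (C2 * Real.exp (-(c2 / v)))) ≤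
        9 / 100 * h * Real.exp (-(11 / 80 * (h ^ 2 / v))) := by
      have hN2 : (N : ℝ) = 2 * Real.pi / h := by rw [eq_div_iff hhpos.ne']; exact hNh
      have k1 : Real.exp (-(c2 / v)) = Real.exp (-(11 / 80 * (h ^ 2 / v))) *
          Real.exp (-(c2 / v - 11 / 80 * (h ^ 2 / v))) := by
        rw [← Real.exp_add]; congr 1; ring
      have k2 : Real.exp (-(c2 / v - 11 / 80 * (h ^ 2 / v))) ≤
          Real.exp (-(Real.pi * c2 / (2 * h ^ 2))) := by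
        apply Real.exp_le_exp.2
        have k3 : 11 / 80 * (h ^ 2 / v) ≤ c2 / 2 / v := by
          have : 11 / 80 * (h ^ 2 / v) = 11 / 80 * h ^ 2 / v := by ring
          rw [this]; gcongr
        have k4 : Real.pi * c2 / (2 * h ^ 2) ≤ c2 / 2 / v := by
          rw [div_le_div_iff₀ (by positivity) hv]
          rw [le_div_iff₀ hpi] at hvh
          nlinarith
        have k5 : c2 / v = c2 / 2 / v + c2 / 2 / v := by ring
        linarith
      have k3 : Real.exp (-(Real.pi * c2 / (2 * h ^ 2))) ≤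
          2 / (Real.pi * c2 / (2 * h ^ 2)) ^ 2 := exp_neg_le_two_div_sq (by positivity)
      have k4 : 2 / (Real.pi * c2 / (2 * h ^ 2)) ^ 2 = 8 * h ^ 4 / (Real.pi ^ 2 * c2 ^ 2) := by
        field_simp
        ring
      rw [k1, hN2]
      have k5 : 2 * Real.pi / h * (2 * (C2 * (8 * h ^ 4 / (Real.pi ^ 2 * c2 ^ 2)))) ≤
          9 / 100 * h := by
        have k6 : 2 * Real.pi / h * (2 * (C2 * (8 * h ^ 4 / (Real.pi ^ 2 * c2 ^ 2)))) =
          h * (h ^ 2 * (32 * C2) / (Real.pi * c2 ^ 2)) := by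
          field_simp
          ring
        rw [k6]
        have k7 : h ^ 2 * (32 * C2) / (Real.pi * c2 ^ 2) ≤ 9 / 100 := by
          rw [div_le_iff₀ (by positivity)]
          rw [le_div_iff₀ (by positivity)] at c_4
          linarith
        nlinarith
      have k8 : Real.exp (-(c2 / v - 11 / 80 * (h ^ 2 / v))) ≤
        8 * h ^ 4 / (Real.pi ^ 2 * c2 ^ 2) := by rw [← k4]; exact k2.trans k3
      calc 2 * Real.pi / h * (2 * (C2 * (Real.exp (-(11 / 80 * (h ^ 2 / v))) *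
          Real.exp (-(c2 / v - 11 / 80 * (h ^ 2 / v)))))) ≤
          2 * Real.pi / h * (2 * (C2 * (Real.exp (-(11 / 80 * (h ^ 2 / v))) *
          (8 * h ^ 4 / (Real.pi ^ 2 * c2 ^ 2))))) := by gcongr
        _ = (2 * Real.pi / h * (2 * (C2 * (8 * h ^ 4 / (Real.pi ^ 2 * c2 ^ 2))))) *
          Real.exp (-(11 / 80 * (h ^ 2 / v))) := by ring
        _ ≤ _ := by gcongr
    calc (((Finset.Ico m0 (m0 + N)).filter (fun m => ¬ (a ≤ m ∧ m ≤ b))).card : ℝ) *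
          (2 * (g0 * (C2 * Real.exp (-(c2 / v)) * M0 * κ))) ≤
        N * (2 * (g0 * (C2 * Real.exp (-(c2 / v)) * M0 * κ))) := by gcongr
      _ = ((N : ℝ) * (2 * (C2 * Real.exp (-(c2 / v))))) * (g0 * M0 * κ) := by ring
      _ ≤ (9 / 100 * h * Real.exp (-(11 / 80 * (h ^ 2 / v)))) * (g0 * M0 * κ) := by gcongr
      _ = 1 / 10 * (h * κ) * (g0 * (9 / 10 * M0 * Real.exp (-(11 / 80 * (h ^ 2 / v))))) := by ring
      _ ≤ 1 / 10 * (h * κ) * ‖T μ‖ := by gcongr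

/-- No multiple zero at parameters with large `N`. -/
theorem core : ∃ N0 : ℕ, 0 < N0 ∧ ∀ (N : ℕ) (a : ℤ) (t : ℂ) (k β : ℝ), N0 ≤ N →
    IsCoprime a (N : ℤ) → 0 ≤ t.re → 0 < k → (N : ℝ) ^ 2 * V k t ≤ 4 * Real.pi →
    SokalF.F (cexp (2 * Real.pi * I * a / N) * cexp (-t)) (zp t k * cexp (β * I)) = 0 →
    SokalF.F (cexp (2 * Real.pi * I * a / N) * cexp (-t))
      (cexp (2 * Real.pi * I * a / N) * cexp (-t) * (zp t k * cexp (β * I))) = 0 → False := by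
  obtain ⟨η1, hη1, hη1', V0, hV0, C, hC, hin⟩ := inside'
  obtain ⟨c2, hc2, V2, hV2, C2, hC2, hout⟩ := lemmaO η1 hη1
  obtain ⟨h0, hh0, hconst⟩ := exists_h0 hη1 hV0 hV2 hC hC2 hc2
  refine ⟨⌈2 * Real.pi / h0⌉₊ + 1, Nat.succ_pos _, ?_⟩
  intro N a t k β hN ha ht hk hNV hF hF'
  have hpi := Real.pi_pos
  have hN0 : 0 < N := by omega
  have hNR : (0 : ℝ) < N := by exact_mod_cast hN0
  have hh : 2 * Real.pi / N ≤ h0 := by
    have h1 : (2 * Real.pi / h0 : ℝ) ≤ ⌈2 * Real.pi / h0⌉₊ := Nat.le_ceil _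
    have h2 : ((⌈2 * Real.pi / h0⌉₊ + 1 : ℕ) : ℝ) ≤ N := by exact_mod_cast hN
    push_cast at h2
    have h3 : 2 * Real.pi / h0 ≤ N := by linarith
    rw [div_le_iff₀ hh0] at h3
    rw [div_le_iff₀ hNR]
    linarith
  obtain ⟨c1, c2', c3, c4, c5, c6⟩ := hconst (2 * Real.pi / N) (by positivity) hh
  have hv : 0 < V k t := V_pos hk ht
  have hvh : V k t ≤ (2 * Real.pi / N) ^ 2 / Real.pi := by
    rw [le_div_iff₀ hpi, div_pow, le_div_iff₀ (by positivity)]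
    nlinarith
  have hn1 : (1 : ℝ) ≤ ‖1 + t * (k : ℂ)‖ := one_le_norm hk ht
  obtain ⟨Mm, q1, q2, q3, q4, q5⟩ := hin t k ht hk (hvh.trans c3)
  obtain ⟨g, ε, g0, hg0, hg, hl⟩ := lifts N hN0 a ha
  obtain ⟨l1, l2⟩ := hl t (zp t k * cexp (β * I)) ⌈(-Real.pi - β) / (2 * Real.pi / N) - ε⌉ ht
  have harg : ∀ m : ℤ, cexp (2 * Real.pi * (m + ε) / N * I) * (zp t k * cexp (β * I)) =
      zp t k * cexp (((β + 2 * Real.pi / N * (m + ε) : ℝ) : ℂ) * I) := by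
    intro m
    have : ((β + 2 * Real.pi / N * (m + ε) : ℝ) : ℂ) * I =
      2 * Real.pi * (m + ε) / N * I + β * I := by push_cast; ring
    rw [this, Complex.exp_add]
    ring
  rw [hF] at l1
  rw [hF', mul_zero] at l2
  refine core_abs (N := N) (h := 2 * Real.pi / N) (β := β) (ε := ε) (v := V k t)
    (κ := k / ‖1 + t * (k : ℂ)‖) (M0 := Md k t) (g0 := g0) (k := k) (η1 := η1) (C := C) (C2 := C2)
    (c2 := c2) (e := fun η => E t (zp t k * cexp (η * I)))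
    (d := fun η => DE t (zp t k * cexp (η * I))) (Mm := Mm) (g := g) hN0 rfl hv hvh (by positivity)
    (Md_pos hk ht) hg0 hg hη1 hη1' hC hC2 hc2 c1 c2' c5 c6 q1 q2 q3 q4 q5
    (fun η i1 i2 => hout t k η ht hk (hvh.trans c4) i1 i2) rfl ?_ ?_
  · rw [l1]
    refine Finset.sum_congr rfl fun m _ => ?_
    simp only [harg]
  · rw [l2]
    refine Finset.sum_congr rfl fun m _ => ?_
    simp only [harg]

end SokalU
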