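import Pool.Agent.Lib_MP_af4de1_u.Saddle

/-!
# Differences of the exponent between saddle points [SU-SDIF]

`S_diff`: `w = tk`, `d = x - x'`, `m = (x+x')/2`, `y = d/(2(1+m))`, `(1+x)/(1+x') = (1+y)/(1-y)`, so
`log(1+x) - log(1+x') = log(1+y) - log(1-y) = 2y + ρ = d/(1+m) + ρ`, `‖ρ‖ ≤ ‖d‖³/7`
(`Complex.norm_log_sub_logTaylor_le` with `n = 2` for `y` and `-y`, `‖y‖ ≤ ‖d‖/1.8`).  Subtracting the two saddle equations,
`d/(1+m) + ρ + w d = i(η-η')`, i.e. `d(1 + w(1+m)) = (1+m)(i(η-η') - ρ)`, and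
`S t (k(1+x)) - S t (k(1+x')) = k d (1 + w(1+m))` (algebra).
`S_first`: `x' = 0`, `η' = 0`: `S - S0 = k(1+x/2)(iη - ρ)`, real part `= -kη Im x/2 - Re(k(1+x/2)ρ)`; `saddle_im` and
`k‖ρ‖·1.05 ≤ 1.05 k(2|η|/‖1+w‖)³/7 ≤ 1.3|η|³/V` (`k/‖1+w‖² ≤ 1/V`).
`S_second`: `Δ = k[(1+m₊)(ih - ρ₊) - (1+m₋)(ih - ρ₋)]`, `m₊ - m₋ = (x₊-x₋)/2`,
`(x₊-x₋)(1+w(1+m)) = (1+m)(2ih - ρ)`, `m = (x₊+x₋)/2`: `ih(x₊-x₋)/2 · k = -k h²(1+m)/(1+w(1+m)) + O(k h‖ρ‖)`,
`(1+m)/(1+w+wm) = 1/(1+w) + m/((1+w)(1+w+wm))`, `‖w‖ ≤ ‖1+w‖`, `‖m‖ ≤ 2(|η|+h)/‖1+w‖`, all error terms are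
`≤ 3(|η|+h) h²/V` in total (`‖ρ‖ ≤ (9/4·h/‖1+w‖)³/7` etc.).
-/

namespace SokalU

open Complex

private theorem sd_log {m y : ℂ} (hm : ‖m‖ ≤ 1 / 10) (hy : ‖y‖ ≤ 1 / 9) :
    log ((1 + m) * (1 + y)) = log (1 + m) + log (1 + y) := by
  have hre : ∀ u : ℂ, ‖u‖ ≤ 1 / 9 → 0 < (1 + u).re := by
    intro u hu
    have h1 := (abs_le.1 (Complex.abs_re_le_norm u)).1
    rw [Complex.add_re, Complex.one_re]
    linarith
  have h1 := hre m (by linarith)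
  have h2 := hre y hy
  have a1 := abs_lt.1 (Complex.abs_arg_lt_pi_div_two_iff.2 (Or.inl h1))
  have a2 := abs_lt.1 (Complex.abs_arg_lt_pi_div_two_iff.2 (Or.inl h2))
  refine Complex.log_mul (fun h => ?_) (fun h => ?_) ⟨by linarith, by linarith⟩
  · rw [h] at h1; simp at h1
  · rw [h] at h2; simp at h2

private theorem sd_rho {y : ℂ} (hy : ‖y‖ ≤ 1 / 9) :
    ‖log (1 + y) - log (1 - y) - 2 * y‖ ≤ 3 / 4 * ‖y‖ ^ 3 := by
  have hlt : ∀ u : ℂ, logTaylor 3 u = u - u ^ 2 / 2 := by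
    intro u
    simp only [logTaylor, Finset.sum_range_succ, Finset.sum_range_zero]
    norm_num
    ring
  have h1 := norm_log_sub_logTaylor_le 2 (z := y) (by linarith)
  have h2 := norm_log_sub_logTaylor_le 2 (z := -y) (by rw [norm_neg]; linarith)
  rw [norm_neg] at h2
  norm_num only [Nat.cast_ofNat] at h1 h2
  rw [hlt] at h1 h2
  have h3 : log (1 + y) - log (1 - y) - 2 * y =
      (log (1 + y) - (y - y ^ 2 / 2)) - (log (1 + -y) - (-y - (-y) ^ 2 / 2)) := by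
    rw [← sub_eq_add_neg]; ring
  have h4 : (1 - ‖y‖)⁻¹ ≤ 9 / 8 := by
    rw [inv_le_comm₀ (by linarith) (by norm_num)]
    linarith
  have h5 : ‖y‖ ^ 3 * (1 - ‖y‖)⁻¹ / 3 ≤ 3 / 8 * ‖y‖ ^ 3 := by
    have h6 : ‖y‖ ^ 3 * (1 - ‖y‖)⁻¹ ≤ ‖y‖ ^ 3 * (9 / 8) :=
      mul_le_mul_of_nonneg_left h4 (by positivity)
    linarith
  rw [h3]
  refine (norm_sub_le _ _).trans ?_
  linarith

theorem S_diff {k η η' : ℝ} {t x x' : ℂ} (hx : ‖x‖ ≤ 1 / 10) (hx' : ‖x'‖ ≤ 1 / 10)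
    (h : log (1 + x) + t * k * x = η * I) (h' : log (1 + x') + t * k * x' = η' * I) :
    ∃ ρ : ℂ, ‖ρ‖ ≤ ‖x - x'‖ ^ 3 / 7 ∧
      (x - x') * (1 + t * k * (1 + (x + x') / 2)) =
        (1 + (x + x') / 2) * ((η - η') * I - ρ) ∧
      S t (k * (1 + x)) - S t (k * (1 + x')) =
        k * (1 + (x + x') / 2) * ((η - η') * I - ρ) := by
  set m : ℂ := (x + x') / 2 with hm
  have hmn : ‖m‖ ≤ 1 / 10 := by
    have h1 : ‖m‖ = ‖x + x'‖ / 2 := by rw [hm, norm_div]; norm_num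
    rw [h1]
    have := norm_add_le x x'
    linarith
  have h1m : 9 / 10 ≤ ‖1 + m‖ := by
    have h1 := norm_sub_norm_le (1 : ℂ) (-m)
    rw [norm_neg, norm_one, sub_neg_eq_add] at h1
    linarith
  have hne : (1 + m) ≠ 0 := by
    intro h0
    rw [h0, norm_zero] at h1m
    norm_num at h1m
  set y : ℂ := (x - x') / (2 * (1 + m)) with hy
  have hyn : ‖y‖ = ‖x - x'‖ / (2 * ‖1 + m‖) := by
    rw [hy, norm_div, norm_mul]; norm_num
  have hyd : ‖y‖ ≤ 5 / 9 * ‖x - x'‖ := by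
    rw [hyn, div_le_iff₀ (by positivity)]
    have := norm_nonneg (x - x')
    nlinarith
  have hd : ‖x - x'‖ ≤ 1 / 5 := by
    have := norm_sub_le x x'
    linarith
  have hy9 : ‖y‖ ≤ 1 / 9 := by linarith
  have e1 : 1 + x = (1 + m) * (1 + y) := by
    have : (1 + m) * y = (x - x') / 2 := by
      rw [hy]; field_simp
    rw [mul_add, mul_one, this, hm]; ring
  have e2 : 1 + x' = (1 + m) * (1 + -y) := by
    have : (1 + m) * y = (x - x') / 2 := by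
      rw [hy]; field_simp
    rw [mul_add, mul_one, mul_neg, this, hm]; ring
  have l1 : log (1 + x) = log (1 + m) + log (1 + y) := by rw [e1]; exact sd_log hmn hy9
  have l2 : log (1 + x') = log (1 + m) + log (1 - y) := by
    rw [e2, sd_log hmn (by rw [norm_neg]; exact hy9), ← sub_eq_add_neg]
  have e3 : (x - x') = 2 * y * (1 + m) := by
    rw [hy]; field_simp
  set ρ : ℂ := log (1 + y) - log (1 - y) - 2 * y with hρ
  have hdiff : 2 * y + ρ + t * k * (x - x') = (η - η') * I := by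
    have h1 : log (1 + x) - log (1 + x') + t * k * (x - x') = (η - η') * I := by
      linear_combination h - h'
    rw [l1, l2] at h1
    rw [hρ]
    linear_combination h1
  refine ⟨ρ, ?_, ?_, ?_⟩
  · refine (sd_rho hy9).trans ?_
    have h1 : ‖y‖ ^ 3 ≤ (5 / 9 * ‖x - x'‖) ^ 3 := pow_le_pow_left₀ (norm_nonneg _) hyd 3
    have h2 : (5 / 9 * ‖x - x'‖) ^ 3 = 125 / 729 * ‖x - x'‖ ^ 3 := by ring
    have h3 : 0 ≤ ‖x - x'‖ ^ 3 := by positivity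
    rw [h2] at h1
    linarith
  · have h1 : (1 + m) * ((η - η') * I - ρ) = (1 + m) * (2 * y + t * k * (x - x')) := by
      rw [← hdiff]; ring
    rw [h1]
    linear_combination e3
  · have h1 : (k : ℂ) * (1 + m) * ((η - η') * I - ρ) =
        k * ((1 + m) * (2 * y + t * k * (x - x'))) := by
      rw [← hdiff]; ring
    rw [h1]
    unfold S
    have h2 : (1 + m) * (2 * y + t * k * (x - x')) =
        (x - x') + (1 + m) * (t * k * (x - x')) := by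
      linear_combination -e3
    rw [h2, hm]
    ring

private theorem sd_cube {u : ℂ} {W c : ℝ} (hW : 1 ≤ W) (hc : 0 ≤ c) (h : ‖u‖ ≤ c / W) :
    ‖u‖ ^ 3 ≤ c ^ 3 / W ^ 2 := by
  have hW0 : 0 < W := by linarith
  calc ‖u‖ ^ 3 ≤ (c / W) ^ 3 := pow_le_pow_left₀ (norm_nonneg _) h 3
    _ = c ^ 3 / W ^ 3 := by rw [div_pow]
    _ ≤ c ^ 3 / W ^ 2 := by
        apply div_le_div_of_nonneg_left (by positivity) (by positivity)
        exact pow_le_pow_right₀ hW (by norm_num)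

theorem S_first {k η : ℝ} {t x : ℂ} (hk : 0 < k) (ht : 0 ≤ t.re) (hη : |η| ≤ 1 / 100)
    (hx : ‖x‖ ≤ 2 * |η| / ‖1 + t * (k : ℂ)‖) (h : log (1 + x) + t * k * x = η * I) :
    |(S t (k * (1 + x))).re - (S t k).re + η ^ 2 / (2 * V k t)| ≤
      1 / 20 * η ^ 2 / V k t := by
  have hW := one_le_norm hk ht
  set W := ‖1 + t * (k : ℂ)‖ with hWdef
  have hW0 : 0 < W := by linarith
  have hη0 := abs_nonneg η
  have hxs : ‖x‖ ≤ 1 / 50 := by
    refine hx.trans ?_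
    rw [div_le_iff₀ hW0]
    linarith
  obtain ⟨ρ, hρ, -, hS⟩ := S_diff (x := x) (x' := 0) (η' := 0) (by linarith) (by simp) h (by simp)
  have him := saddle_im hk ht (by linarith) hx h
  rw [sub_zero] at hρ
  have hV := V_pos hk ht
  have hVi : 0 < (V k t)⁻¹ := inv_pos.2 hV
  have hkW := k_div_le hk ht
  rw [← hWdef] at hkW
  have hS' : S t (k * (1 + x)) - S t k = k * (1 + x / 2) * (η * I) - k * (1 + x / 2) * ρ := by
    have : S t k = S t (k * (1 + 0)) := by rw [add_zero, mul_one]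
    rw [this, hS]
    simp only [add_zero, ofReal_zero, sub_zero]
    ring
  have hre : (S t (k * (1 + x))).re - (S t k).re =
      -(η * (k * x.im) / 2) - ((k : ℂ) * (1 + x / 2) * ρ).re := by
    rw [← Complex.sub_re, hS', Complex.sub_re]
    congr 1
    have e : (k : ℂ) * (1 + x / 2) * (η * I) = ((k * η : ℝ) : ℂ) * I + ((k * η / 2 : ℝ) : ℂ) * (x * I) := by
      push_cast; ring
    rw [e, Complex.add_re, Complex.re_ofReal_mul, Complex.re_ofReal_mul, Complex.mul_I_re]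
    simp
    ring
  have hb : |((k : ℂ) * (1 + x / 2) * ρ).re| ≤ 1 / 50 * (η ^ 2 * (V k t)⁻¹) := by
    refine (Complex.abs_re_le_norm _).trans ?_
    rw [norm_mul, norm_mul, Complex.norm_real, Real.norm_of_nonneg hk.le]
    have h1 : ‖1 + x / 2‖ ≤ 21 / 20 := by
      refine (norm_add_le _ _).trans ?_
      rw [norm_one, norm_div]
      norm_num
      linarith
    have h2 := sd_cube hW (by positivity) hx
    have h3 : ‖ρ‖ ≤ (2 * |η|) ^ 3 / W ^ 2 / 7 := hρ.trans (by linarith)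
    calc k * ‖1 + x / 2‖ * ‖ρ‖ ≤ k * (21 / 20) * ((2 * |η|) ^ 3 / W ^ 2 / 7) := by gcongr
      _ = 6 / 5 * |η| * (|η| ^ 2 * (k / W ^ 2)) := by ring
      _ ≤ 6 / 5 * (1 / 100) * (|η| ^ 2 * (V k t)⁻¹) := by gcongr
      _ ≤ 1 / 50 * (η ^ 2 * (V k t)⁻¹) := by
          rw [sq_abs]
          have : 0 ≤ η ^ 2 * (V k t)⁻¹ := by positivity
          linarith
  have hm : |-(η * (k * x.im) / 2) + η ^ 2 / (2 * V k t)| ≤ 1 / 50 * (η ^ 2 * (V k t)⁻¹) := by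
    have e : -(η * (k * x.im) / 2) + η ^ 2 / (2 * V k t) = -(η / 2) * (k * x.im - η / V k t) := by
      field_simp
      ring
    rw [e, abs_mul, abs_neg, abs_div, abs_two]
    calc |η| / 2 * |k * x.im - η / V k t| ≤ |η| / 2 * (4 * η ^ 2 / V k t) := by gcongr
      _ = 2 * |η| * (η ^ 2 * (V k t)⁻¹) := by ring
      _ ≤ 2 * (1 / 100) * (η ^ 2 * (V k t)⁻¹) := by gcongr
      _ ≤ 1 / 50 * (η ^ 2 * (V k t)⁻¹) := by
          have : 0 ≤ η ^ 2 * (V k t)⁻¹ := by positivity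
          linarith
  have e2 : 1 / 20 * η ^ 2 / V k t = 1 / 20 * (η ^ 2 * (V k t)⁻¹) := by ring
  rw [e2, hre]
  have hq : 0 ≤ η ^ 2 * (V k t)⁻¹ := by positivity
  rw [abs_le] at hb hm ⊢
  constructor <;> linarith [hb.1, hb.2, hm.1, hm.2]

theorem S_second {k η h : ℝ} {t x x₁ x₂ : ℂ} (hk : 0 < k) (ht : 0 ≤ t.re) (hh : 0 < h)
    (hη1 : |η + h| ≤ 1 / 400) (hη2 : |η - h| ≤ 1 / 400)
    (hx : ‖x‖ ≤ 2 * |η| / ‖1 + t * (k : ℂ)‖) (e : log (1 + x) + t * k * x = η * I)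
    (hx₁ : ‖x₁‖ ≤ 2 * |η + h| / ‖1 + t * (k : ℂ)‖)
    (e₁ : log (1 + x₁) + t * k * x₁ = ((η + h : ℝ) : ℂ) * I)
    (hx₂ : ‖x₂‖ ≤ 2 * |η - h| / ‖1 + t * (k : ℂ)‖)
    (e₂ : log (1 + x₂) + t * k * x₂ = ((η - h : ℝ) : ℂ) * I) :
    (S t (k * (1 + x₁))).re - 2 * (S t (k * (1 + x))).re + (S t (k * (1 + x₂))).re ≤
      -(49 / 50 * h ^ 2 / V k t) := by
  have hW := one_le_norm hk ht
  have hwW : ‖t * (k : ℂ)‖ ≤ ‖1 + t * (k : ℂ)‖ := by
    rw [norm_mul, Complex.norm_real, Real.norm_of_nonneg hk.le]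
    exact tk_le hk ht
  have hkW := k_div_le hk ht
  have hrediv := re_div hk ht
  have hη3 : |η| ≤ 1 / 400 := by
    rw [abs_le] at hη1 hη2 ⊢
    constructor <;> linarith [hη1.1, hη1.2, hη2.1, hη2.2]
  have hh1 : h ≤ 1 / 400 := by
    rw [abs_le] at hη1 hη2
    linarith [hη1.2, hη2.1]
  have hsm : ∀ (u : ℂ) (a : ℝ), |a| ≤ 1 / 400 → ‖u‖ ≤ 2 * |a| / ‖1 + t * (k : ℂ)‖ →
      ‖u‖ ≤ 1 / 200 := by
    intro u a ha hu
    refine hu.trans ?_
    rw [div_le_iff₀ (by linarith)]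
    linarith
  have hxs := hsm x η hη3 hx
  have hxs₁ := hsm x₁ _ hη1 hx₁
  have hxs₂ := hsm x₂ _ hη2 hx₂
  obtain ⟨ρp, hρp, -, hSp⟩ := S_diff (x := x₁) (x' := x) (by linarith) (by linarith) e₁ e
  obtain ⟨ρm, hρm, -, hSm⟩ := S_diff (x := x) (x' := x₂) (by linarith) (by linarith) e e₂
  obtain ⟨ρ, hρ, hD, -⟩ := S_diff (x := x₁) (x' := x₂) (by linarith) (by linarith) e₁ e₂
  have dp := (saddle_dist hk ht (x := x₁) (x' := x) (by linarith) (by linarith) e₁ e).2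
  have dm := (saddle_dist hk ht (x := x) (x' := x₂) (by linarith) (by linarith) e e₂).2
  have dd := (saddle_dist hk ht (x := x₁) (x' := x₂) (by linarith) (by linarith) e₁ e₂).2
  have c1 : |η + h - η| = h := by rw [add_sub_cancel_left]; exact abs_of_pos hh
  have c2 : |η - (η - h)| = h := by rw [sub_sub_cancel]; exact abs_of_pos hh
  have c3 : |η + h - (η - h)| = 2 * h := by
    have : η + h - (η - h) = 2 * h := by ring
    rw [this]; exact abs_of_pos (by linarith)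
  rw [c1] at dp
  rw [c2] at dm
  rw [c3] at dd
  have i1 : ((η + h : ℝ) : ℂ) - (η : ℂ) = (h : ℂ) := by push_cast; ring
  have i2 : (η : ℂ) - ((η - h : ℝ) : ℂ) = (h : ℂ) := by push_cast; ring
  have i3 : ((η + h : ℝ) : ℂ) - ((η - h : ℝ) : ℂ) = 2 * (h : ℂ) := by push_cast; ring
  rw [i1] at hSp
  rw [i2] at hSm
  rw [i3] at hD
  have hV := V_pos hk ht
  have hVi : 0 < (V k t)⁻¹ := inv_pos.2 hV
  set w : ℂ := t * (k : ℂ) with hw
  set W := ‖1 + w‖ with hWdef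
  have hW0 : 0 < W := by linarith
  have h1w : (1 + w) ≠ 0 := by
    intro h0
    rw [h0, norm_zero] at hWdef
    linarith
  set m : ℂ := (x₁ + x₂) / 2 with hm
  have hmn : ‖m‖ ≤ 1 / 200 := by
    have h1 : ‖m‖ = ‖x₁ + x₂‖ / 2 := by rw [hm, norm_div]; norm_num
    rw [h1]
    have := norm_add_le x₁ x₂
    linarith
  set Q : ℂ := 1 + w * (1 + m) with hQ
  have hQn : 199 / 200 * W ≤ ‖Q‖ := by
    have h1 : Q = (1 + w) - (-(w * m)) := by rw [hQ]; ring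
    have h2 := norm_sub_norm_le (1 + w) (-(w * m))
    rw [← h1, norm_neg, norm_mul, ← hWdef] at h2
    have h3 : ‖w‖ * ‖m‖ ≤ W * (1 / 200) := by gcongr
    linarith
  have hQ0 : Q ≠ 0 := by
    intro h0
    rw [h0, norm_zero] at hQn
    linarith
  have hρn : ∀ (u v : ℂ) (c : ℝ), 0 ≤ c → ‖v‖ ≤ ‖u‖ ^ 3 / 7 → W * ‖u‖ ≤ c →
      ‖v‖ ≤ c ^ 3 / W ^ 2 / 7 := by
    intro u v c hc h1 h2
    have h3 : ‖u‖ ≤ c / W := by
      rw [le_div_iff₀ hW0]; linarith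
    have h4 := sd_cube hW hc h3
    linarith
  have rp := hρn _ _ _ (by positivity) hρp dp
  have rm := hρn _ _ _ (by positivity) hρm dm
  have rr := hρn _ _ _ (by positivity) hρ dd
  have n2 : ∀ u : ℂ, ‖u‖ ≤ 1 → ‖1 + u‖ ≤ 2 := by
    intro u hu
    refine (norm_add_le _ _).trans ?_
    rw [norm_one]; linarith
  -- the error terms
  have E1 : ‖(k : ℂ) * m / ((1 + w) * Q)‖ ≤ 1 / 199 * (V k t)⁻¹ := by
    rw [norm_div, norm_mul, norm_mul, Complex.norm_real, Real.norm_of_nonneg hk.le, ← hWdef]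
    calc k * ‖m‖ / (W * ‖Q‖) ≤ k * (1 / 200) / (W * (199 / 200 * W)) := by gcongr
      _ = 1 / 199 * (k / W ^ 2) := by field_simp
      _ ≤ 1 / 199 * (V k t)⁻¹ := by gcongr
  have E2 : ‖(k : ℂ) * h * I * (1 + m) * ρ / (2 * Q)‖ ≤ 1 / 1000 * (h ^ 2 * (V k t)⁻¹) := by
    rw [norm_div, norm_mul, norm_mul, norm_mul, norm_mul, norm_mul, Complex.norm_real,
      Complex.norm_real, Real.norm_of_nonneg hk.le, Real.norm_of_nonneg hh.le, Complex.norm_I,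
      mul_one, Complex.norm_ofNat]
    have h2 : ‖1 + m‖ ≤ 2 := n2 m (by linarith)
    have h3 : 1 ≤ 2 * ‖Q‖ := by linarith
    calc k * h * ‖1 + m‖ * ‖ρ‖ / (2 * ‖Q‖)
        ≤ k * h * 2 * ((9 / 8 * (2 * h)) ^ 3 / W ^ 2 / 7) / 1 := by gcongr
      _ = (729 / 64 * 2 / 7 * h ^ 2) * (h ^ 2 * (k / W ^ 2)) := by ring
      _ ≤ (729 / 64 * 2 / 7 * (1 / 400) ^ 2) * (h ^ 2 * (V k t)⁻¹) := by gcongr
      _ ≤ 1 / 1000 * (h ^ 2 * (V k t)⁻¹) := by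
          have : 0 ≤ h ^ 2 * (V k t)⁻¹ := by positivity
          nlinarith
  have E3 : ∀ u v : ℂ, ‖u‖ ≤ 1 → ‖v‖ ≤ (9 / 8 * h) ^ 3 / W ^ 2 / 7 →
      ‖(k : ℂ) * (1 + u) * v‖ ≤ 1 / 500 * (h ^ 2 * (V k t)⁻¹) := by
    intro u v hu hv
    rw [norm_mul, norm_mul, Complex.norm_real, Real.norm_of_nonneg hk.le]
    have h2 : ‖1 + u‖ ≤ 2 := n2 u hu
    calc k * ‖1 + u‖ * ‖v‖ ≤ k * 2 * ((9 / 8 * h) ^ 3 / W ^ 2 / 7) := by gcongr
      _ = (729 / 512 * 2 / 7 * h) * (h ^ 2 * (k / W ^ 2)) := by ring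
      _ ≤ (729 / 512 * 2 / 7 * (1 / 400)) * (h ^ 2 * (V k t)⁻¹) := by gcongr
      _ ≤ 1 / 500 * (h ^ 2 * (V k t)⁻¹) := by
          have : 0 ≤ h ^ 2 * (V k t)⁻¹ := by positivity
          nlinarith
  have hhalf : ∀ u v : ℂ, ‖u‖ ≤ 1 / 200 → ‖v‖ ≤ 1 / 200 → ‖(u + v) / 2‖ ≤ 1 := by
    intro u v hu hv
    rw [norm_div, Complex.norm_ofNat]
    have := norm_add_le u v
    linarith
  have E3p := E3 _ _ (hhalf x₁ x hxs₁ hxs) rp
  have E3m := E3 _ _ (hhalf x x₂ hxs hxs₂) rm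
  -- the identity
  have hd : x₁ - x₂ = (1 + m) * (2 * h * I - ρ) / Q := by
    rw [eq_div_iff hQ0]; exact hD
  have hfrac : (1 + m) / Q = 1 / (1 + w) + m / ((1 + w) * Q) := by
    field_simp
    rw [hQ]; ring
  have hI : I * I = -1 := Complex.I_mul_I
  have hmain : (k : ℂ) * ((x₁ - x₂) / 2 * h * I) =
      -((h : ℂ) ^ 2 * (k / (1 + w))) - (h : ℂ) ^ 2 * (k * m / ((1 + w) * Q)) -
        k * h * I * (1 + m) * ρ / (2 * Q) := by
    have h1 : (k : ℂ) * ((x₁ - x₂) / 2 * h * I) =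
        (I * I) * (h : ℂ) ^ 2 * k * ((1 + m) / Q) - k * h * I * (1 + m) * ρ / (2 * Q) := by
      rw [hd]; field_simp
    rw [h1, hI, hfrac]
    ring
  have htot : S t (k * (1 + x₁)) - 2 * S t (k * (1 + x)) + S t (k * (1 + x₂)) =
      -((h : ℂ) ^ 2 * (k / (1 + w))) - (h : ℂ) ^ 2 * (k * m / ((1 + w) * Q)) -
        k * h * I * (1 + m) * ρ / (2 * Q) - k * (1 + (x₁ + x) / 2) * ρp +
        k * (1 + (x + x₂) / 2) * ρm := by
    rw [← hmain]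
    linear_combination hSp - hSm
  have hre : (S t (k * (1 + x₁))).re - 2 * (S t (k * (1 + x))).re + (S t (k * (1 + x₂))).re =
      (S t (k * (1 + x₁)) - 2 * S t (k * (1 + x)) + S t (k * (1 + x₂))).re := by
    simp
  rw [hre, htot]
  simp only [Complex.add_re, Complex.sub_re, Complex.neg_re]
  have hh2 : ((h : ℂ) ^ 2) = ((h ^ 2 : ℝ) : ℂ) := by push_cast; ring
  rw [hh2, Complex.re_ofReal_mul, Complex.re_ofReal_mul, hrediv]
  have f1 := (abs_le.1 ((Complex.abs_re_le_norm _).trans E1)).1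
  have f2 := (abs_le.1 ((Complex.abs_re_le_norm _).trans E2)).1
  have f3 := (abs_le.1 ((Complex.abs_re_le_norm _).trans E3p)).1
  have f4 := (abs_le.1 ((Complex.abs_re_le_norm _).trans E3m)).2
  have f5 : -(h ^ 2 * ((k : ℂ) * m / ((1 + w) * Q)).re) ≤ 1 / 199 * (h ^ 2 * (V k t)⁻¹) := by
    have h1 : 0 ≤ h ^ 2 := by positivity
    have h2 := mul_le_mul_of_nonneg_left f1 h1
    linarith
  have f6 : 49 / 50 * h ^ 2 / V k t = 49 / 50 * (h ^ 2 * (V k t)⁻¹) := by ring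
  rw [f6]
  have f7 : 0 < h ^ 2 * (V k t)⁻¹ := by positivity
  linarith

end SokalU
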