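import Pool.Agent.Lib_MP_af4de1_u.LogDeriv
import Pool.Agent.Lib_MP_af4de1_u.SDiff

/-!
# All the information on `E` in the central sector [SU-INS]

For `|η| ≤ η1` (`η1 = 1/40000`, say) let `x(η)` be the saddle of `saddle_exists` (choice), `κ(η) = k(1+x(η))`, real part
`k' = k(1+Re x) ∈ [.9k, 1.1k]`, `|Im κ| ≤ (|η|+4η²)/V(k)` (`saddle_im`), hence `|Im κ| V(k') ≤ 1/8000` (`V_compare`):
`logDeriv` applies at `κ(η)` (with `k'` for `k`).  `zp t κ(η) = zp t k e^{iη}` (`zp_saddle`).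
Value: `‖E‖ = ‖J(κ)‖ e^{Re S(κ)}`, `‖J(κ)‖² = (1+O(δ))/‖1+tκ‖`, `‖1+tκ‖/‖1+tk‖ = ‖1 + w x/(1+w)‖ ∈ [1-‖x‖, 1+‖x‖]`
(`w = tk`, `‖w‖ ≤ ‖1+w‖`: `tk_le`).  `Mm η := κ + κL/(1+tκ)` (so `DE = Mm E`); `‖κ/(1+tκ)‖ ≤ 1.3 k/‖1+tk‖`.
(2) from `S_first`; (3) from `S_second` (the prefactors contribute at most a factor `e^{1/50}`);
(4) from `saddle_dist`.  (5) `‖Mm η - k‖ ≤ k‖x‖ + …`.
-/

namespace SokalU

open Complex

private lemma INS_point : ∃ C : ℝ, 0 < C ∧ ∃ V0 : ℝ, 0 < V0 ∧ ∀ (t : ℂ) (k : ℝ), 0 ≤ t.re →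
    0 < k → V k t ≤ V0 → C * V k t ≤ 1 / 4 ∧ ∀ η : ℝ, |η| ≤ 1 / 40000 → ∃ (x R : ℂ) (j : ℝ),
      ‖x‖ ≤ 2 * |η| / ‖1 + t * (k : ℂ)‖ ∧ log (1 + x) + t * k * x = η * I ∧ 0 < j ∧
      199 / 200 ≤ j ^ 2 * ‖1 + t * (k : ℂ)‖ ∧ j ^ 2 * ‖1 + t * (k : ℂ)‖ ≤ 201 / 200 ∧
      ‖E t (zp t k * cexp (η * I))‖ = j * Real.exp (S t (k * (1 + x))).re ∧
      DE t (zp t k * cexp (η * I)) = (k * (1 + x) + R) * E t (zp t k * cexp (η * I)) ∧
      ‖R‖ ≤ C * V k t * (k / ‖1 + t * (k : ℂ)‖) := by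
  obtain ⟨C0, hC0, hL⟩ := logDeriv
  obtain ⟨V0, hV0, hL⟩ := hL (1 / 1000) (by norm_num)
  refine ⟨3 / 2 * C0, by positivity, min (V0 * (5 / 6)) (1 / (6 * C0)), by positivity, ?_⟩
  intro t k ht hk hV
  have hV1 : V k t ≤ V0 * (5 / 6) := le_trans hV (min_le_left _ _)
  have hV2 : V k t ≤ 1 / (6 * C0) := le_trans hV (min_le_right _ _)
  have hVpos := V_pos hk ht
  have hW := one_le_norm hk ht
  constructor
  · rw [le_div_iff₀ (by positivity)] at hV2
    linarith
  intro η hη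
  set W := ‖1 + t * (k : ℂ)‖ with hWdef
  have hW0 : 0 < W := by linarith
  have ha0 : 0 ≤ |η| := abs_nonneg η
  obtain ⟨x, hx, hxe⟩ := saddle_exists hk ht (η := η) (by linarith)
  have hx1 : ‖x‖ ≤ 1 / 20000 := by
    refine hx.trans ?_
    rw [← hWdef, div_le_iff₀ hW0]
    nlinarith
  have hx2 : ‖x‖ ≤ 1 / 10 := by linarith
  have him := saddle_im hk ht (by linarith) hx hxe
  have hre : |x.re| ≤ 1 / 20000 := (Complex.abs_re_le_norm x).trans hx1
  rw [abs_le] at hre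
  have hkk1 : 9 / 10 * k ≤ k * (1 + x.re) := by nlinarith
  have hkk2 : k * (1 + x.re) ≤ 11 / 10 * k := by nlinarith
  have hkk0 : 0 < k * (1 + x.re) := by nlinarith
  have hVk := V_compare hk ht hkk1 hkk2
  have hVk0 := V_pos hkk0 ht
  have hkI0 : |k * x.im| * V k t ≤ |η| + 4 * η ^ 2 := by
    have h1 : |k * x.im| ≤ |η / V k t| + |k * x.im - η / V k t| := by
      have := abs_add_le (η / V k t) (k * x.im - η / V k t)
      simpa using this
    have h2 : |η / V k t| = |η| / V k t := by rw [abs_div, abs_of_pos hVpos]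
    rw [h2] at h1
    have h3 : |k * x.im| ≤ (|η| + 4 * η ^ 2) / V k t := by
      rw [add_div]; linarith
    rwa [le_div_iff₀ hVpos] at h3
  have hη2 : 4 * η ^ 2 ≤ 1 / 10000 * |η| := by
    rw [← sq_abs]; nlinarith
  have hkI : |k * x.im| * V (k * (1 + x.re)) t ≤ 1 / 8000 := by
    calc |k * x.im| * V (k * (1 + x.re)) t ≤ |k * x.im| * (6 / 5 * V k t) := by gcongr
      _ = 6 / 5 * (|k * x.im| * V k t) := by ring
      _ ≤ 6 / 5 * (|η| + 4 * η ^ 2) := by gcongr
      _ ≤ 1 / 8000 := by linarith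
  obtain ⟨hJ0, hJ, L, hLn, hLe⟩ := hL t (k * (1 + x.re)) (k * x.im) ht hkk0 (by linarith) hkI
  have hκ : (((k * (1 + x.re) : ℝ) : ℂ) + ((k * x.im : ℝ) : ℂ) * I) = k * (1 + x) := by
    apply Complex.ext <;> simp
  rw [hκ] at hJ0 hJ hLe
  have hzp := zp_saddle hx2 hxe
  set κ : ℂ := k * (1 + x) with hκd
  have hJE : E t (zp t κ) = J t κ * cexp (S t κ) := by
    unfold J
    rw [mul_assoc, ← Complex.exp_add]
    simp
  rw [hzp] at hLe hJE
  set N := ‖1 + t * κ‖ with hN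
  have hsplit : 1 + t * κ = (1 + t * (k : ℂ)) + (t * k) * x := by rw [hκd]; ring
  have htk : ‖(t * (k : ℂ)) * x‖ ≤ W * (1 / 20000) := by
    rw [norm_mul, norm_mul, Complex.norm_real, Real.norm_of_nonneg hk.le]
    have := tk_le hk ht
    exact mul_le_mul this hx1 (norm_nonneg _) hW0.le
  have hN1 : N ≤ W * (20001 / 20000) := by
    rw [hN, hsplit]
    have := norm_add_le (1 + t * (k : ℂ)) ((t * k) * x)
    linarith
  have hN2 : W * (19999 / 20000) ≤ N := by
    rw [hN, hsplit]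
    have := norm_sub_le_norm_add (1 + t * (k : ℂ)) ((t * k) * x)
    linarith
  have hN0 : 0 < N := by
    have : 0 < W * (19999 / 20000) := by positivity
    linarith
  have hne : 1 + t * κ ≠ 0 := by
    intro h
    rw [hN, h, norm_zero] at hN0
    exact lt_irrefl _ hN0
  have hj : 0 < ‖J t κ‖ := norm_pos_iff.2 hJ0
  rw [abs_le] at hJ
  have hjs : 0 ≤ ‖J t κ‖ ^ 2 := sq_nonneg _
  have m1 := mul_le_mul_of_nonneg_left hN1 hjs
  have m2 := mul_le_mul_of_nonneg_left hN2 hjs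
  refine ⟨x, κ * L / (1 + t * κ), ‖J t κ‖, hx, hxe, hj, ?_, ?_, ?_, ?_, ?_⟩
  · nlinarith
  · nlinarith
  · rw [hJE, norm_mul, Complex.norm_exp]
  · have h1 : DE t (zp t k * cexp (η * I)) - κ * E t (zp t k * cexp (η * I)) =
        κ * L * E t (zp t k * cexp (η * I)) / (1 + t * κ) := by
      rw [eq_div_iff hne]; exact hLe
    have h2 : DE t (zp t k * cexp (η * I)) = κ * E t (zp t k * cexp (η * I)) +
        κ * L * E t (zp t k * cexp (η * I)) / (1 + t * κ) := by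
      rw [← h1]; ring
    rw [h2]; ring
  · rw [norm_div, norm_mul, ← hN, div_le_iff₀ hN0]
    have k1 : ‖κ‖ ≤ k * (20001 / 20000) := by
      rw [hκd, norm_mul, Complex.norm_real, Real.norm_of_nonneg hk.le]
      have := norm_add_le (1 : ℂ) x
      rw [norm_one] at this
      gcongr
      linarith
    have k2 : ‖L‖ ≤ 6 / 5 * (C0 * V k t) := by
      refine hLn.trans ?_
      nlinarith
    have k3 : ‖κ‖ * ‖L‖ ≤ (k * (20001 / 20000)) * (6 / 5 * (C0 * V k t)) := by gcongr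
    refine k3.trans ?_
    have k4 : k / W * N ≥ k * (19999 / 20000) := by
      rw [ge_iff_le, div_mul_eq_mul_div, le_div_iff₀ hW0]
      nlinarith
    have k5 : 0 ≤ C0 * V k t := by positivity
    have k6 : 3 / 2 * C0 * V k t * (k / W) * N = 3 / 2 * (C0 * V k t) * (k / W * N) := by ring
    rw [k6]
    have k7 := mul_le_mul_of_nonneg_left k4 k5
    have k8 : 0 ≤ C0 * V k t * k := by positivity
    nlinarith

private lemma INS_size {j W : ℝ} (hj : 0 < j) (hW : 0 < W) (h1 : 199 / 200 ≤ j ^ 2 * W)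
    (h2 : j ^ 2 * W ≤ 201 / 200) : 199 / 200 / √W ≤ j ∧ j ≤ 201 / 200 / √W := by
  have hs : 0 < √W := Real.sqrt_pos.2 hW
  have hs2 : √W ^ 2 = W := Real.sq_sqrt hW.le
  have h3 : (j * √W) ^ 2 = j ^ 2 * W := by rw [mul_pow, hs2]
  have h0 : 0 < j * √W := by positivity
  constructor
  · rw [div_le_iff₀ hs]; nlinarith
  · rw [le_div_iff₀ hs]; nlinarith

theorem inside : ∃ η1 : ℝ, 0 < η1 ∧ ∃ V0 : ℝ, 0 < V0 ∧ ∃ C : ℝ, 0 < C ∧ ∀ (t : ℂ) (k : ℝ),
    0 ≤ t.re → 0 < k → V k t ≤ V0 → ∃ Mm : ℝ → ℂ,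
    (∀ η : ℝ, |η| ≤ η1 → DE t (zp t k * cexp (η * I)) = Mm η * E t (zp t k * cexp (η * I))) ∧
    (∀ η : ℝ, |η| ≤ η1 →
      9 / 10 * Md k t * Real.exp (-(11 / 20 * η ^ 2 / V k t)) ≤ ‖E t (zp t k * cexp (η * I))‖ ∧
      ‖E t (zp t k * cexp (η * I))‖ ≤ 11 / 10 * Md k t * Real.exp (-(9 / 20 * η ^ 2 / V k t))) ∧
    (∀ η h : ℝ, 0 < h → |η + h| ≤ η1 → |η - h| ≤ η1 →
      ‖E t (zp t k * cexp (((η + h : ℝ) : ℂ) * I))‖ *
        ‖E t (zp t k * cexp (((η - h : ℝ) : ℂ) * I))‖ ≤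
      ‖E t (zp t k * cexp (η * I))‖ ^ 2 * Real.exp (1 / 50 - 49 / 50 * h ^ 2 / V k t)) ∧
    (∀ η η' : ℝ, |η| ≤ η1 → |η'| ≤ η1 →
      ‖Mm η - Mm η'‖ ≤ (9 / 8 * |η - η'| + C * V k t) * (k / ‖1 + t * (k : ℂ)‖) ∧
      (9 / 10 * |η - η'| - C * V k t) * (k / ‖1 + t * (k : ℂ)‖) ≤ ‖Mm η - Mm η'‖) ∧
    (∀ η : ℝ, |η| ≤ η1 → ‖Mm η - k‖ ≤ k / ‖1 + t * (k : ℂ)‖) := by
  obtain ⟨C, hC, V0, hV0, H⟩ := INS_point
  refine ⟨1 / 40000, by norm_num, V0, hV0, 2 * C, by positivity, ?_⟩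
  intro t k ht hk hV
  obtain ⟨hCV, H⟩ := H t k ht hk hV
  choose! x R j hx hxe hj hj1 hj2 hE hDE hR using H
  have hVpos := V_pos hk ht
  have hW := one_le_norm hk ht
  set W := ‖1 + t * (k : ℂ)‖ with hWdef
  have hW0 : 0 < W := by linarith
  have hkW : 0 < k / W := by positivity
  have hxs : ∀ η : ℝ, |η| ≤ 1 / 40000 → ‖x η‖ ≤ 1 / 20000 := by
    intro η hη
    refine (hx η hη).trans ?_
    rw [div_le_iff₀ hW0]
    have := abs_nonneg η
    nlinarith
  refine ⟨fun η => k * (1 + x η) + R η, fun η hη => hDE η hη, ?_, ?_, ?_, ?_⟩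
  · -- (2)
    intro η hη
    rw [hE η hη]
    obtain ⟨s1, s2⟩ := INS_size (hj η hη) hW0 (hj1 η hη) (hj2 η hη)
    have hS := S_first hk ht (by linarith) (hx η hη) (hxe η hη)
    rw [abs_le] at hS
    have hMd : Md k t = Real.exp (S t k).re / √W := by
      unfold Md
      rw [Complex.norm_exp]
    have hs : 0 < √W := Real.sqrt_pos.2 hW0
    have e1 : η ^ 2 / (2 * V k t) = 1 / 2 * (η ^ 2 / V k t) := by field_simp
    have e2 : 1 / 20 * η ^ 2 / V k t = 1 / 20 * (η ^ 2 / V k t) := by ring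
    have e3 : 11 / 20 * η ^ 2 / V k t = 11 / 20 * (η ^ 2 / V k t) := by ring
    have e4 : 9 / 20 * η ^ 2 / V k t = 9 / 20 * (η ^ 2 / V k t) := by ring
    rw [e1, e2] at hS
    rw [e3, e4, hMd]
    set q := η ^ 2 / V k t with hq
    have x1 : Real.exp (S t k).re * Real.exp (-(11 / 20 * q)) ≤
        Real.exp (S t (k * (1 + x η))).re := by
      rw [← Real.exp_add]
      apply Real.exp_le_exp.2
      linarith [hS.1]
    have x2 : Real.exp (S t (k * (1 + x η))).re ≤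
        Real.exp (S t k).re * Real.exp (-(9 / 20 * q)) := by
      rw [← Real.exp_add]
      apply Real.exp_le_exp.2
      linarith [hS.2]
    constructor
    · calc 9 / 10 * (Real.exp (S t k).re / √W) * Real.exp (-(11 / 20 * q))
          = 9 / 10 / √W * (Real.exp (S t k).re * Real.exp (-(11 / 20 * q))) := by ring
        _ ≤ 9 / 10 / √W * Real.exp (S t (k * (1 + x η))).re := by gcongr
        _ ≤ j η * Real.exp (S t (k * (1 + x η))).re := by
            gcongr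
            exact le_trans (div_le_div_of_nonneg_right (by norm_num) hs.le) s1
    · calc j η * Real.exp (S t (k * (1 + x η))).re
          ≤ 11 / 10 / √W * Real.exp (S t (k * (1 + x η))).re := by
            gcongr
            exact s2.trans (div_le_div_of_nonneg_right (by norm_num) hs.le)
        _ ≤ 11 / 10 / √W * (Real.exp (S t k).re * Real.exp (-(9 / 20 * q))) := by gcongr
        _ = 11 / 10 * (Real.exp (S t k).re / √W) * Real.exp (-(9 / 20 * q)) := by ring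
  · -- (3)
    intro η h hh h1 h2
    have h0 : |η| ≤ 1 / 40000 := by
      rw [abs_le] at h1 h2 ⊢
      constructor <;> linarith [h1.1, h1.2, h2.1, h2.2]
    rw [hE _ h1, hE _ h2, hE _ h0]
    have hS := S_second hk ht hh (by linarith) (by linarith) (hx _ h0) (hxe _ h0) (hx _ h1)
      (hxe _ h1) (hx _ h2) (hxe _ h2)
    have hp := hj _ h1
    have hm := hj _ h2
    have hz := hj _ h0
    have hprod : j (η + h) * j (η - h) ≤ j η ^ 2 * (1 + 1 / 50) := by
      have p1 := hj2 _ h1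
      have p2 := hj2 _ h2
      have p3 := hj1 _ h0
      have p4 := mul_nonneg (sq_nonneg (j (η + h) - j (η - h))) hW0.le
      refine le_of_mul_le_mul_right (a := W) ?_ hW0
      nlinarith
    have hexp : Real.exp (S t (k * (1 + x (η + h)))).re * Real.exp (S t (k * (1 + x (η - h)))).re ≤
        Real.exp (S t (k * (1 + x η))).re ^ 2 * Real.exp (-(49 / 50 * h ^ 2 / V k t)) := by
      rw [← Real.exp_add, ← Real.exp_nat_mul, ← Real.exp_add]
      apply Real.exp_le_exp.2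
      push_cast
      linarith
    have h50 : (1 + 1 / 50 : ℝ) ≤ Real.exp (1 / 50) := by
      have := Real.add_one_le_exp (1 / 50 : ℝ)
      linarith
    calc j (η + h) * Real.exp (S t (k * (1 + x (η + h)))).re *
          (j (η - h) * Real.exp (S t (k * (1 + x (η - h)))).re)
        = (j (η + h) * j (η - h)) * (Real.exp (S t (k * (1 + x (η + h)))).re *
            Real.exp (S t (k * (1 + x (η - h)))).re) := by ring
      _ ≤ (j η ^ 2 * Real.exp (1 / 50)) * (Real.exp (S t (k * (1 + x η))).re ^ 2 *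
            Real.exp (-(49 / 50 * h ^ 2 / V k t))) :=
          mul_le_mul (hprod.trans (mul_le_mul_of_nonneg_left h50 (sq_nonneg _))) hexp
            (by positivity) (by positivity)
      _ = (j η * Real.exp (S t (k * (1 + x η))).re) ^ 2 *
            Real.exp (1 / 50 - 49 / 50 * h ^ 2 / V k t) := by
          rw [sub_eq_add_neg, Real.exp_add]; ring
  · -- (4)
    intro η η' hη hη'
    have hd := saddle_dist hk ht (by have := hxs η hη; linarith) (by have := hxs η' hη'; linarith)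
      (hxe η hη) (hxe η' hη')
    rw [← hWdef] at hd
    have hsplit : (k * (1 + x η) + R η) - (k * (1 + x η') + R η') =
        k * (x η - x η') + (R η - R η') := by ring
    have hkx : ‖(k : ℂ) * (x η - x η')‖ = k / W * (W * ‖x η - x η'‖) := by
      rw [norm_mul, Complex.norm_real, Real.norm_of_nonneg hk.le]
      field_simp
    have hRR : ‖R η - R η'‖ ≤ 2 * C * V k t * (k / W) := by
      have := norm_sub_le (R η) (R η')
      have := hR η hη
      have := hR η' hη'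
      linarith
    have hd1 := mul_le_mul_of_nonneg_left hd.1 hkW.le
    have hd2 := mul_le_mul_of_nonneg_left hd.2 hkW.le
    constructor
    · show ‖(k * (1 + x η) + R η) - (k * (1 + x η') + R η')‖ ≤ _
      rw [hsplit]
      have := norm_add_le ((k : ℂ) * (x η - x η')) (R η - R η')
      rw [hkx] at this
      nlinarith
    · show _ ≤ ‖(k * (1 + x η) + R η) - (k * (1 + x η') + R η')‖
      rw [hsplit]
      have := norm_sub_le_norm_add ((k : ℂ) * (x η - x η')) (R η - R η')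
      rw [hkx] at this
      nlinarith
  · -- (5)
    intro η hη
    have hsplit : (k * (1 + x η) + R η) - (k : ℂ) = k * x η + R η := by ring
    show ‖(k * (1 + x η) + R η) - (k : ℂ)‖ ≤ _
    rw [hsplit]
    have h1 := norm_add_le ((k : ℂ) * x η) (R η)
    have h2 := hR η hη
    have h3 : ‖(k : ℂ) * x η‖ ≤ 1 / 2 * (k / W) := by
      rw [norm_mul, Complex.norm_real, Real.norm_of_nonneg hk.le]
      have := mul_le_mul_of_nonneg_left (hx η hη) hk.le
      refine this.trans ?_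
      have e : k * (2 * |η| / W) = 2 * |η| * (k / W) := by ring
      rw [e]
      gcongr
      linarith
    have h4 : C * V k t * (k / W) ≤ 1 / 4 * (k / W) := by gcongr
    linarith

end SokalU
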