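import Pool.Agent.Lib_MP_af4de1_u.PathJ

/-!
# The main part of the integral, inside case [SU-MINT]

`Λ = 1/t + κ`, `‖Λ‖ ≥ Re Λ ≥ k` (`Re(1/t) > 0`).  `G := (1 - cI) ∫_ℝ cexp(Λ ((c+I)s)²/2) ds`.  As `(c+I)² = -(1-cI)²`,
`integral_gaussian_complex` (with `b = Λ(1-cI)²/2`, `Re b > 0`: otherwise `gauss_bound` fails for large `s`) gives
`G² = (1-cI)² · π/b = 2π/Λ`.  Error: `‖1-cI‖ ≤ 1.04`; by `main_bound` the difference of the two integrands on
`|s| ≤ 1/10` contributes at most `1.04 · (k/4) · 2∫_0^∞ s³ e^{-‖Λ‖s²/10} ds = 26 k/‖Λ‖²` and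
`k/‖Λ‖² ≤ 1/(√k √‖Λ‖)` (`‖Λ‖ ≥ k`); the Gaussian tail contributes `≤ 1.04·2∫_{1/10}^∞ e^{-‖Λ‖s²/10}ds ≤
C e^{-‖Λ‖/2000}/√‖Λ‖ ≤ C'/(√k√‖Λ‖)`.
-/

namespace SokalU

open Complex MeasureTheory

private lemma pow_exp_aux {y : ℝ} (hy : 0 ≤ y) : 1 + y ^ 2 ≤ 9 * Real.exp (y / 2) := by
  have h := Real.quadratic_le_exp_of_nonneg (show 0 ≤ y / 2 by positivity)
  nlinarith

private lemma cube_aux {x : ℝ} (hx : 0 ≤ x) : x ^ 3 ≤ 32 * (1 + (x ^ 2 / 10) ^ 2) := by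
  nlinarith [sq_nonneg (x ^ 2 - x * 4), sq_nonneg (x - 4), sq_nonneg (x ^ 2 - 16), mul_nonneg hx hx]

private lemma cc_le_mi (k : ℝ) (t : ℂ) : cc k t ≤ 1 / 4 := min_le_left _ _

private lemma cc_nonneg_mi {k : ℝ} {t : ℂ} (hk : 0 < k) (hti : t.im ≤ 0) : 0 ≤ cc k t := by
  refine le_min (by norm_num) ?_
  rw [Complex.inv_im]
  have : 0 ≤ -t.im / normSq t := div_nonneg (by linarith) (Complex.normSq_nonneg _)
  positivity

private lemma point_in {k a s X : ℝ} (hk : 1 ≤ k) (ha : k / 10 ≤ a)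
    (hX : X ≤ k / 4 * |s| ^ 3 * Real.exp (-(a * s ^ 2))) :
    X ≤ 2001 / √k * Real.exp (-(a / 2) * s ^ 2) := by
  have hk0 : 0 < k := by linarith
  have hsk : 0 < √k := Real.sqrt_pos.2 hk0
  have hkk : √k ^ 2 = k := Real.sq_sqrt hk0.le
  set x := √k * |s| with hx
  have hx0 : 0 ≤ x := by positivity
  have hx2 : x ^ 2 = k * s ^ 2 := by rw [hx, mul_pow, hkk, sq_abs]
  have h1 : k / 4 * |s| ^ 3 = (x ^ 3 / 4) / √k := by
    rw [hx, mul_pow, eq_div_iff hsk.ne']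
    have : √k ^ 3 = k * √k := by rw [pow_succ, hkk]
    rw [this]; ring
  have hy : x ^ 2 / 10 ≤ a * s ^ 2 := by
    rw [hx2]
    nlinarith [sq_nonneg s]
  have h2 : x ^ 3 ≤ 288 * Real.exp (a * s ^ 2 / 2) := by
    have h3 := cube_aux hx0
    have h4 := pow_exp_aux (show 0 ≤ x ^ 2 / 10 by positivity)
    have h5 : Real.exp (x ^ 2 / 10 / 2) ≤ Real.exp (a * s ^ 2 / 2) := Real.exp_le_exp.2 (by linarith)
    nlinarith
  have h6 : Real.exp (-(a * s ^ 2)) * Real.exp (a * s ^ 2 / 2) = Real.exp (-(a / 2) * s ^ 2) := by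
    rw [← Real.exp_add]; congr 1; ring
  calc X ≤ k / 4 * |s| ^ 3 * Real.exp (-(a * s ^ 2)) := hX
    _ = (x ^ 3 / 4) / √k * Real.exp (-(a * s ^ 2)) := by rw [h1]
    _ ≤ (288 * Real.exp (a * s ^ 2 / 2) / 4) / √k * Real.exp (-(a * s ^ 2)) := by gcongr
    _ = 72 / √k * (Real.exp (-(a * s ^ 2)) * Real.exp (a * s ^ 2 / 2)) := by ring
    _ = 72 / √k * Real.exp (-(a / 2) * s ^ 2) := by rw [h6]
    _ ≤ 2001 / √k * Real.exp (-(a / 2) * s ^ 2) := by gcongr; norm_num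

private lemma point_out {k a s X : ℝ} (hk : 1 ≤ k) (ha : k / 10 ≤ a) (hs : 1 / 10 ≤ |s|)
    (hX : X ≤ Real.exp (-(a * s ^ 2))) :
    X ≤ 2001 / √k * Real.exp (-(a / 2) * s ^ 2) := by
  have hk0 : 0 < k := by linarith
  have hsk : 0 < √k := Real.sqrt_pos.2 hk0
  have h1 : √k ≤ 2001 * Real.exp (k / 2000) := by
    have h2 : √k ≤ k := by
      rw [Real.sqrt_le_left (by linarith)]
      nlinarith
    have h3 := Real.add_one_le_exp (k / 2000)
    nlinarith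
  have h4 : s ^ 2 ≥ 1 / 100 := by
    rw [← sq_abs]
    nlinarith [abs_nonneg s]
  have h5 : Real.exp (-(a * s ^ 2)) = Real.exp (-(a / 2) * s ^ 2) * Real.exp (-(a / 2) * s ^ 2) := by
    rw [← Real.exp_add]; congr 1; ring
  have h6 : Real.exp (-(a / 2) * s ^ 2) ≤ Real.exp (-(k / 2000)) := by
    apply Real.exp_le_exp.2
    nlinarith
  have h7 : Real.exp (-(k / 2000)) ≤ 2001 / √k := by
    rw [le_div_iff₀ hsk, Real.exp_neg, inv_mul_le_iff₀ (Real.exp_pos _)]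
    linarith
  calc X ≤ _ := hX
    _ = _ := h5
    _ ≤ (2001 / √k) * Real.exp (-(a / 2) * s ^ 2) := by
      gcongr
      exact h6.trans h7

theorem main_int : ∃ C : ℝ, 0 < C ∧ ∀ (t : ℂ) (k kI : ℝ), 0 < t.re → t.im ≤ 0 → 1 ≤ k →
    |kI| ≤ k / 50 → ∃ G : ℂ, G ^ 2 = 2 * Real.pi / (t⁻¹ + (k + kI * I)) ∧
      ‖(1 - cc k t * I) * (∫ s in (-(1 / 10) : ℝ)..(1 / 10),
        f t (k + kI * I) 0 ((cc k t + I) * s)) - G‖ ≤ C / (√k * √‖t⁻¹ + (k + kI * I)‖) := by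
  refine ⟨30000, by norm_num, ?_⟩
  intro t k kI ht hti hk hkI
  have hk0 : 0 < k := by linarith
  set Λ : ℂ := t⁻¹ + (k + kI * I) with hΛ
  set c : ℝ := cc k t with hc
  have hc1 : c ≤ 1 / 4 := cc_le_mi k t
  have hc0 : 0 ≤ c := cc_nonneg_mi hk0 hti
  have hre : k ≤ Λ.re := by
    have h1 : Λ.re = (t⁻¹).re + k := by simp [hΛ]
    have h2 : 0 ≤ (t⁻¹).re := by
      rw [Complex.inv_re]
      exact div_nonneg ht.le (Complex.normSq_nonneg _)
    linarith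
  have hΛk : k ≤ ‖Λ‖ := hre.trans (Complex.re_le_norm _)
  have hΛ0 : 0 < ‖Λ‖ := by linarith
  have hΛne : Λ ≠ 0 := norm_pos_iff.1 hΛ0
  set a : ℝ := ‖Λ‖ / 10 with ha
  have ha0 : 0 < a := by positivity
  have hak : k / 10 ≤ a := by rw [ha]; linarith
  set b : ℂ := -(Λ * (c + I) ^ 2 / 2) with hb
  have hg : ∀ s : ℝ, cexp (Λ * ((c + I) * s) ^ 2 / 2) = cexp (-b * (s : ℂ) ^ 2) := by
    intro s
    congr 1
    rw [hb]; ring
  have hgb : ∀ s : ℝ, ‖cexp (-b * (s : ℂ) ^ 2)‖ ≤ Real.exp (-(a * s ^ 2)) := by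
    intro s
    rw [← hg s]
    exact gauss_bound ht hti hk0 hkI s
  have hbre : 0 < b.re := by
    have h1 := hgb 1
    rw [Complex.norm_exp] at h1
    have h2 := Real.exp_le_exp.1 h1
    have h3 : (-b * ((1 : ℝ) : ℂ) ^ 2).re = -b.re := by simp
    rw [h3] at h2
    linarith
  have hbne : b ≠ 0 := by
    intro h; rw [h] at hbre; simp at hbre
  have h1c : (1 - (c : ℂ) * I) ≠ 0 := by
    intro h
    have := congrArg Complex.re h
    simp at this
  have hcI : ((c : ℂ) + I) ^ 2 = -(1 - (c : ℂ) * I) ^ 2 := by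
    have : (I : ℂ) ^ 2 = -1 := Complex.I_sq
    ring_nf
    rw [this]; ring
  refine ⟨(1 - (c : ℂ) * I) * ((Real.pi : ℂ) / b) ^ (1 / 2 : ℂ), ?_, ?_⟩
  · rw [mul_pow, ← Complex.cpow_nat_mul]
    norm_num
    rw [hb, hcI]
    field_simp
  · have hint := integral_gaussian_complex hbre
    rw [← hint]
    have hcont : Continuous fun s : ℝ => f t (k + kI * I) 0 ((c + I) * s) := by
      unfold f
      fun_prop
    have hfi : Integrable (Set.indicator (Set.Ioc (-(1 / 10) : ℝ) (1 / 10))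
        fun s : ℝ => f t (k + kI * I) 0 ((c + I) * s)) := by
      rw [integrable_indicator_iff measurableSet_Ioc]
      exact (hcont.integrableOn_Icc).mono_set Set.Ioc_subset_Icc_self
    have hgi : Integrable fun s : ℝ => cexp (-b * (s : ℂ) ^ 2) := integrable_cexp_neg_mul_sq hbre
    have hE : (∫ s in (-(1 / 10) : ℝ)..(1 / 10), f t (k + kI * I) 0 ((c + I) * s)) -
        ∫ s : ℝ, cexp (-b * (s : ℂ) ^ 2) =
        ∫ s : ℝ, (Set.indicator (Set.Ioc (-(1 / 10) : ℝ) (1 / 10))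
        (fun s : ℝ => f t (k + kI * I) 0 ((c + I) * s)) s - cexp (-b * (s : ℂ) ^ 2)) := by
      rw [integral_sub hfi hgi, integral_indicator measurableSet_Ioc,
        intervalIntegral.integral_of_le (by norm_num)]
    rw [← mul_sub, hE, norm_mul]
    have hbound : ‖∫ s : ℝ, (Set.indicator (Set.Ioc (-(1 / 10) : ℝ) (1 / 10))
        (fun s : ℝ => f t (k + kI * I) 0 ((c + I) * s)) s - cexp (-b * (s : ℂ) ^ 2))‖ ≤
        ∫ s : ℝ, 2001 / √k * Real.exp (-(a / 2) * s ^ 2) := by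
      apply norm_integral_le_of_norm_le
      · exact (integrable_exp_neg_mul_sq (by positivity)).const_mul _
      · refine Filter.Eventually.of_forall fun s => ?_
        by_cases hs : s ∈ Set.Ioc (-(1 / 10) : ℝ) (1 / 10)
        · rw [Set.indicator_of_mem hs]
          have hs' : |s| ≤ 1 / 10 := abs_le.2 ⟨hs.1.le, hs.2⟩
          have := (main_bound ht hti hk0 hkI hs').2.2
          rw [hg s] at this
          exact point_in hk hak this
        · rw [Set.indicator_of_notMem hs, zero_sub, norm_neg]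
          have hs' : 1 / 10 ≤ |s| := by
            by_contra h
            push Not at h
            have h' := abs_lt.1 h
            exact hs ⟨h'.1, h'.2.le⟩
          exact point_out hk hak hs' (hgb s)
    rw [MeasureTheory.integral_const_mul, integral_gaussian] at hbound
    have h1 : ‖1 - (c : ℂ) * I‖ ≤ 5 / 4 := by
      calc ‖1 - (c : ℂ) * I‖ ≤ ‖(1 : ℂ)‖ + ‖(c : ℂ) * I‖ := norm_sub_le _ _
        _ = 1 + c := by simp [abs_of_nonneg hc0]
        _ ≤ 5 / 4 := by linarith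
    have h2 : √(Real.pi / (a / 2)) ≤ 8 / √‖Λ‖ := by
      rw [le_div_iff₀ (Real.sqrt_pos.2 hΛ0), ← Real.sqrt_mul (by positivity)]
      rw [Real.sqrt_le_left (by norm_num)]
      have : Real.pi / (a / 2) * ‖Λ‖ = 20 * Real.pi := by
        rw [ha]; field_simp; norm_num
      rw [this]
      have := Real.pi_lt_d2
      linarith
    have hsk : 0 < √k := Real.sqrt_pos.2 hk0
    have hsΛ : 0 < √‖Λ‖ := Real.sqrt_pos.2 hΛ0
    calc _ ≤ 5 / 4 * (2001 / √k * (8 / √‖Λ‖)) := by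
          apply mul_le_mul h1 (hbound.trans _) (norm_nonneg _) (by norm_num)
          gcongr
      _ = 20010 / (√k * √‖Λ‖) := by field_simp; norm_num
      _ ≤ 30000 / (√k * √‖Λ‖) := by gcongr; norm_num

end SokalU
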