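import Mathlib

/-!
# An integral with periodic peaks [SU-OINT]

`(1+s)² ≤ 4e^{s/2} ≤ 4e^{ϱs/2}` (`e^{s/4} ≥ 1+s/4 ≥ (1+s)/4`, so even `(1+s)² ≤ 16e^{s/2}` is enough), so it is enough to bound `∫_{s1}^∞ e^{-ϱs/2} e^{-(9/10)k(1-cos(s+η))} ds`: at most
`(2/ϱ)e^{-ϱs1/2}`; and, splitting in the intervals `[s1+2πj, s1+2π(j+1)]`, at most
`∑_j e^{-ϱ(s1+2πj)/2} ∫_0^{2π} e^{-(9/10)k(1-cos x)} dx ≤ C e^{-ϱs1/2}/√k` because `1-cos x ≥ 2x²/π²` on `[-π,π]`
(`Real.one_sub_sq_div_two_le_cos` is the wrong direction; use `Real.cos_le_one_sub_mul_cos_sq`/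
`Real.mul_le_sin`: `1-cos x = 2 sin²(x/2) ≥ 2(x/π)²`).
-/

namespace SokalU

open MeasureTheory

/-- the peak function -/
private noncomputable def pk (k x : ℝ) : ℝ := Real.exp (-(9 / 10 * k * (1 - Real.cos x)))

private theorem pk_cont (k : ℝ) : Continuous (pk k) := by
  unfold pk
  fun_prop

private theorem pk_nonneg (k x : ℝ) : 0 ≤ pk k x := (Real.exp_pos _).le

private theorem pk_le_one {k : ℝ} (hk : 1 ≤ k) (x : ℝ) : pk k x ≤ 1 := by
  unfold pk
  rw [Real.exp_le_one_iff]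
  have h1 := Real.cos_le_one x
  have h2 : 0 ≤ 9 / 10 * k * (1 - Real.cos x) := by
    apply mul_nonneg (by linarith)
    linarith
  linarith

private theorem pk_periodic (k : ℝ) : Function.Periodic (pk k) (2 * Real.pi) := by
  intro x
  unfold pk
  rw [Real.cos_add_two_pi]

/-- the integral over one period -/
private theorem pk_period {k : ℝ} (hk : 1 ≤ k) (t : ℝ) :
    ∫ x in t..(t + 2 * Real.pi), pk k x ≤ 5 / √k := by
  have hπ := Real.pi_pos
  rw [(pk_periodic k).intervalIntegral_add_eq t (-Real.pi)]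
  have h0 : -Real.pi + 2 * Real.pi = Real.pi := by ring
  rw [h0]
  obtain ⟨b, hb⟩ : ∃ b, b = 9 / 10 * k * (2 / Real.pi ^ 2) := ⟨_, rfl⟩
  have hb0 : 0 < b := by rw [hb]; positivity
  have h1 : ∫ x in (-Real.pi)..Real.pi, pk k x ≤
      ∫ x in (-Real.pi)..Real.pi, Real.exp (-b * x ^ 2) := by
    apply intervalIntegral.integral_mono_on (by linarith)
    · exact (pk_cont k).intervalIntegrable _ _
    · exact Continuous.intervalIntegrable (by fun_prop) _ _
    · intro x hx
      unfold pk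
      apply Real.exp_le_exp.2
      have h2 := Real.cos_le_one_sub_mul_cos_sq (x := x) (abs_le.2 hx)
      have h3 : 2 / Real.pi ^ 2 * x ^ 2 ≤ 1 - Real.cos x := by linarith
      have h4 := mul_le_mul_of_nonneg_left h3 (by linarith : (0 : ℝ) ≤ 9 / 10 * k)
      rw [hb]
      linarith
  refine h1.trans ?_
  have h2 : ∫ x in (-Real.pi)..Real.pi, Real.exp (-b * x ^ 2) ≤
      ∫ x : ℝ, Real.exp (-b * x ^ 2) := by
    rw [intervalIntegral.integral_of_le (by linarith)]
    apply setIntegral_le_integral (integrable_exp_neg_mul_sq hb0)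
    exact Filter.Eventually.of_forall fun x => (Real.exp_pos _).le
  refine h2.trans ?_
  rw [integral_gaussian, le_div_iff₀ (by positivity), ← Real.sqrt_mul (by positivity)]
  rw [Real.sqrt_le_left (by norm_num)]
  have h3 : Real.pi / b * k = Real.pi ^ 3 / (9 / 5) := by
    rw [hb]
    field_simp
    ring
  rw [h3, div_le_iff₀ (by norm_num)]
  have h4 : Real.pi < 3.15 := Real.pi_lt_d2
  have h5 : Real.pi ^ 3 ≤ 3.15 ^ 3 := pow_le_pow_left₀ hπ.le h4.le 3
  refine h5.trans ?_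
  norm_num

private theorem shift_Ioi (G : ℝ → ℝ) (a T : ℝ) :
    ∫ s in Set.Ioi (a + T), G s = ∫ s in Set.Ioi a, G (s + T) := by
  rw [← integral_indicator measurableSet_Ioi, ← integral_indicator measurableSet_Ioi,
    ← integral_add_right_eq_self _ T]
  congr 1
  ext s
  by_cases hs : a < s
  · rw [Set.indicator_of_mem (show s + T ∈ Set.Ioi (a + T) by
      rw [Set.mem_Ioi]; linarith), Set.indicator_of_mem (show s ∈ Set.Ioi a from hs)]
  · rw [Set.indicator_of_notMem (show s + T ∉ Set.Ioi (a + T) by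
      rw [Set.mem_Ioi]; linarith), Set.indicator_of_notMem (show s ∉ Set.Ioi a from hs)]

/-- the integral of the peaks with an exponential weight -/
private theorem peak_int {k : ℝ} (hk : 1 ≤ k) (s1 η : ℝ) :
    IntegrableOn (fun s : ℝ => Real.exp (-(1 / 2) * (s - s1)) * pk k (s + η)) (Set.Ioi s1) ∧
    ∫ s in Set.Ioi s1, Real.exp (-(1 / 2) * (s - s1)) * pk k (s + η) ≤ 10 / √k := by
  have hπ := Real.pi_pos
  have hcont : Continuous fun s : ℝ => Real.exp (-(1 / 2) * (s - s1)) * pk k (s + η) :=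
    (by fun_prop : Continuous fun s : ℝ => Real.exp (-(1 / 2) * (s - s1))).mul
      ((pk_cont k).comp (continuous_id.add continuous_const))
  have hE : IntegrableOn (fun s : ℝ => Real.exp (-(1 / 2) * (s - s1))) (Set.Ioi s1) := by
    have h1 : IntegrableOn (fun s : ℝ => Real.exp (-(1 / 2) * s)) (Set.Ioi s1) :=
      integrableOn_exp_mul_Ioi (by norm_num) s1
    have h2 : (fun s : ℝ => Real.exp (-(1 / 2) * (s - s1))) =
        fun s => Real.exp ((1 / 2) * s1) * Real.exp (-(1 / 2) * s) := by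
      funext s
      rw [← Real.exp_add]
      congr 1
      ring
    rw [h2]
    exact h1.const_mul _
  have hI : IntegrableOn (fun s : ℝ => Real.exp (-(1 / 2) * (s - s1)) * pk k (s + η))
      (Set.Ioi s1) := by
    refine Integrable.mono' hE hcont.aestronglyMeasurable ?_
    refine Filter.Eventually.of_forall fun s => ?_
    rw [norm_mul, Real.norm_of_nonneg (Real.exp_pos _).le, Real.norm_of_nonneg (pk_nonneg _ _)]
    exact mul_le_of_le_one_right (Real.exp_pos _).le (pk_le_one hk _)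
  refine ⟨hI, ?_⟩
  obtain ⟨J, hJ⟩ : ∃ J, J = ∫ s in Set.Ioi s1, Real.exp (-(1 / 2) * (s - s1)) * pk k (s + η) :=
    ⟨_, rfl⟩
  rw [← hJ]
  have hJ0 : 0 ≤ J := by
    rw [hJ]
    apply integral_nonneg
    intro s
    exact mul_nonneg (Real.exp_pos _).le (pk_nonneg _ _)
  -- splitting
  have hsplit : J = (∫ s in Set.Ioc s1 (s1 + 2 * Real.pi),
        Real.exp (-(1 / 2) * (s - s1)) * pk k (s + η)) +
      ∫ s in Set.Ioi (s1 + 2 * Real.pi), Real.exp (-(1 / 2) * (s - s1)) * pk k (s + η) := by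
    rw [hJ, ← Set.Ioc_union_Ioi_eq_Ioi (show s1 ≤ s1 + 2 * Real.pi by linarith)]
    apply setIntegral_union Set.Ioc_disjoint_Ioi_same measurableSet_Ioi
    · exact hI.mono_set Set.Ioc_subset_Ioi_self
    · exact hI.mono_set (Set.Ioi_subset_Ioi (by linarith))
  have htail : ∫ s in Set.Ioi (s1 + 2 * Real.pi), Real.exp (-(1 / 2) * (s - s1)) * pk k (s + η) =
      Real.exp (-Real.pi) * J := by
    rw [shift_Ioi, hJ, ← integral_const_mul]
    congr 1
    funext s
    have h1 : s + 2 * Real.pi + η = s + η + 2 * Real.pi := by ring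
    rw [h1, pk_periodic k (s + η), ← mul_assoc, ← Real.exp_add]
    congr 2
    ring
  have hhead : ∫ s in Set.Ioc s1 (s1 + 2 * Real.pi),
      Real.exp (-(1 / 2) * (s - s1)) * pk k (s + η) ≤ 5 / √k := by
    have h1 : ∫ s in Set.Ioc s1 (s1 + 2 * Real.pi),
        Real.exp (-(1 / 2) * (s - s1)) * pk k (s + η) ≤
        ∫ s in Set.Ioc s1 (s1 + 2 * Real.pi), pk k (s + η) := by
      apply setIntegral_mono_on
      · exact hI.mono_set Set.Ioc_subset_Ioi_self
      · have h2 : Continuous fun s => pk k (s + η) :=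
          (pk_cont k).comp (continuous_id.add continuous_const)
        exact h2.integrableOn_Ioc
      · exact measurableSet_Ioc
      · intro s hs
        apply mul_le_of_le_one_left (pk_nonneg _ _)
        rw [Real.exp_le_one_iff]
        have := hs.1
        linarith
    refine h1.trans ?_
    rw [← intervalIntegral.integral_of_le (by linarith),
      intervalIntegral.integral_comp_add_right (fun x => pk k x) η]
    have h3 : s1 + 2 * Real.pi + η = s1 + η + 2 * Real.pi := by ring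
    rw [h3]
    exact pk_period hk _
  have hexp : Real.exp (-Real.pi) ≤ 1 / 2 := by
    rw [Real.exp_neg, ← one_div]
    apply one_div_le_one_div_of_le (by norm_num)
    have h1 := Real.add_one_le_exp Real.pi
    have h2 := Real.pi_gt_three
    linarith
  have h1 : Real.exp (-Real.pi) * J ≤ 1 / 2 * J := mul_le_mul_of_nonneg_right hexp hJ0
  have h2 : (10 : ℝ) / √k = 5 / √k + 5 / √k := by ring
  linarith

theorem outer_int : ∃ C : ℝ, 0 < C ∧ ∀ ϱ k s1 η : ℝ, 1 ≤ ϱ → 1 ≤ k → 0 ≤ s1 →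
    IntegrableOn (fun s : ℝ => (1 + s) ^ 2 * (Real.exp (-(ϱ * s)) *
      Real.exp (-(9 / 10 * k * (1 - Real.cos (s + η)))))) (Set.Ioi s1) ∧
    ∫ s in Set.Ioi s1, (1 + s) ^ 2 * (Real.exp (-(ϱ * s)) *
      Real.exp (-(9 / 10 * k * (1 - Real.cos (s + η))))) ≤
        C * Real.exp (-(ϱ * s1 / 2)) * min (1 / √k) (1 / ϱ) := by
  refine ⟨160, by norm_num, ?_⟩
  intro ϱ k s1 η hϱ hk hs1
  have hϱ0 : 0 < ϱ := by linarith
  -- the pointwise bounds
  have hsq : ∀ s : ℝ, 0 ≤ s → (1 + s) ^ 2 * Real.exp (-(ϱ * s)) ≤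
      16 * Real.exp (-(ϱ / 2) * s) := by
    intro s hs
    have h1 : 1 + s ≤ 4 * Real.exp (s / 4) := by
      have := Real.add_one_le_exp (s / 4)
      linarith
    have h2 : (1 + s) ^ 2 ≤ 16 * Real.exp (ϱ / 2 * s) := by
      calc (1 + s) ^ 2 ≤ (4 * Real.exp (s / 4)) ^ 2 := pow_le_pow_left₀ (by linarith) h1 2
        _ = 16 * Real.exp (1 / 2 * s) := by
          rw [mul_pow, ← Real.exp_nat_mul]
          norm_num
          ring_nf
        _ ≤ 16 * Real.exp (ϱ / 2 * s) := by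
          apply mul_le_mul_of_nonneg_left _ (by norm_num)
          apply Real.exp_le_exp.2
          exact mul_le_mul_of_nonneg_right (by linarith) hs
    calc (1 + s) ^ 2 * Real.exp (-(ϱ * s)) ≤
          16 * Real.exp (ϱ / 2 * s) * Real.exp (-(ϱ * s)) :=
          mul_le_mul_of_nonneg_right h2 (Real.exp_pos _).le
      _ = 16 * Real.exp (-(ϱ / 2) * s) := by
          rw [mul_assoc, ← Real.exp_add]
          congr 2
          ring
  have hnn : ∀ s : ℝ, 0 ≤ (1 + s) ^ 2 * (Real.exp (-(ϱ * s)) *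
      Real.exp (-(9 / 10 * k * (1 - Real.cos (s + η))))) := fun s => by positivity
  have hb1 : ∀ s ∈ Set.Ioi s1, (1 + s) ^ 2 * (Real.exp (-(ϱ * s)) *
      Real.exp (-(9 / 10 * k * (1 - Real.cos (s + η))))) ≤ 16 * Real.exp (-(ϱ / 2) * s) := by
    intro s hs
    have hs0 : 0 ≤ s := hs1.trans (le_of_lt hs)
    rw [← mul_assoc]
    refine le_trans ?_ (hsq s hs0)
    apply mul_le_of_le_one_right (by positivity)
    exact pk_le_one hk (s + η)
  have hb2 : ∀ s ∈ Set.Ioi s1, (1 + s) ^ 2 * (Real.exp (-(ϱ * s)) *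
      Real.exp (-(9 / 10 * k * (1 - Real.cos (s + η))))) ≤
        16 * Real.exp (-(ϱ * s1 / 2)) * (Real.exp (-(1 / 2) * (s - s1)) * pk k (s + η)) := by
    intro s hs
    have hs0 : 0 ≤ s := hs1.trans (le_of_lt hs)
    have h1 : Real.exp (-(ϱ / 2) * s) ≤ Real.exp (-(ϱ * s1 / 2)) * Real.exp (-(1 / 2) * (s - s1)) := by
      rw [← Real.exp_add]
      apply Real.exp_le_exp.2
      have h2 : s - s1 ≤ ϱ * (s - s1) := le_mul_of_one_le_left (sub_nonneg.2 (le_of_lt hs)) hϱ
      nlinarith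
    have h3 := (hsq s hs0).trans (mul_le_mul_of_nonneg_left h1 (by norm_num : (0 : ℝ) ≤ 16))
    have h4 := mul_le_mul_of_nonneg_right h3 (pk_nonneg k (s + η))
    calc (1 + s) ^ 2 * (Real.exp (-(ϱ * s)) *
          Real.exp (-(9 / 10 * k * (1 - Real.cos (s + η))))) =
          (1 + s) ^ 2 * Real.exp (-(ϱ * s)) * pk k (s + η) := by
            unfold pk
            ring
      _ ≤ 16 * (Real.exp (-(ϱ * s1 / 2)) * Real.exp (-(1 / 2) * (s - s1))) * pk k (s + η) := h4
      _ = _ := by ring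
  have hcont : Continuous fun s : ℝ => (1 + s) ^ 2 * (Real.exp (-(ϱ * s)) *
      Real.exp (-(9 / 10 * k * (1 - Real.cos (s + η))))) := by fun_prop
  have hE : IntegrableOn (fun s : ℝ => 16 * Real.exp (-(ϱ / 2) * s)) (Set.Ioi s1) :=
    (integrableOn_exp_mul_Ioi (by linarith) s1).const_mul _
  have hI : IntegrableOn (fun s : ℝ => (1 + s) ^ 2 * (Real.exp (-(ϱ * s)) *
      Real.exp (-(9 / 10 * k * (1 - Real.cos (s + η)))))) (Set.Ioi s1) := by
    refine Integrable.mono' hE hcont.aestronglyMeasurable ?_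
    rw [ae_restrict_iff' measurableSet_Ioi]
    refine Filter.Eventually.of_forall fun s hs => ?_
    rw [Real.norm_of_nonneg (hnn s)]
    exact hb1 s hs
  refine ⟨hI, ?_⟩
  have hexp0 : 0 < Real.exp (-(ϱ * s1 / 2)) := Real.exp_pos _
  have hA : ∫ s in Set.Ioi s1, (1 + s) ^ 2 * (Real.exp (-(ϱ * s)) *
      Real.exp (-(9 / 10 * k * (1 - Real.cos (s + η))))) ≤
        160 * Real.exp (-(ϱ * s1 / 2)) * (1 / √k) := by
    obtain ⟨hp1, hp2⟩ := peak_int hk s1 η
    have h1 := setIntegral_mono_on hI (hp1.const_mul (16 * Real.exp (-(ϱ * s1 / 2))))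
      measurableSet_Ioi hb2
    rw [integral_const_mul] at h1
    refine h1.trans ?_
    have h2 := mul_le_mul_of_nonneg_left hp2 (by positivity : 0 ≤ 16 * Real.exp (-(ϱ * s1 / 2)))
    refine h2.trans (le_of_eq ?_)
    ring
  have hB : ∫ s in Set.Ioi s1, (1 + s) ^ 2 * (Real.exp (-(ϱ * s)) *
      Real.exp (-(9 / 10 * k * (1 - Real.cos (s + η))))) ≤
        160 * Real.exp (-(ϱ * s1 / 2)) * (1 / ϱ) := by
    have h1 := setIntegral_mono_on hI hE measurableSet_Ioi hb1
    rw [integral_const_mul, integral_exp_mul_Ioi (by linarith) s1] at h1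
    refine h1.trans ?_
    have h2 : -Real.exp (-(ϱ / 2) * s1) / -(ϱ / 2) = 2 * Real.exp (-(ϱ * s1 / 2)) * (1 / ϱ) := by
      have h3 : -(ϱ / 2) * s1 = -(ϱ * s1 / 2) := by ring
      rw [h3]
      field_simp
    rw [h2]
    have h4 : 0 ≤ Real.exp (-(ϱ * s1 / 2)) * (1 / ϱ) := by positivity
    linarith
  rcases le_total (1 / √k) (1 / ϱ) with h | h
  · rw [min_eq_left h]
    exact hA
  · rw [min_eq_right h]
    exact hB

end SokalU
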