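import Pool.Agent.Lib_MP_af4de1_u.Gauss
import Pool.Agent.Lib_MP_af4de1_u.FContour
import Pool.Agent.Lib_MP_af4de1_u.OuterInt
import Pool.Agent.Lib_MP_af4de1_u.MainInt

/-!
# Lemma J: the value of `E` at a saddle point near the centre [SU-LJ]

`lemmaJ_pos`.  Let `Λ = 1/t + κ`, `κ = k + i κI`.  `V ≤ V0` gives `k ≥ 1/V ≥ 1/V0` (`inv_V_le`), `|κI| ≤ 1/(1000V) ≤ k/1000`,
and `ϱ := (3/100)(A + cB) ≥ (3/400)/V ≥ 1` (`inv_V_le_path`).
`gauss_rep` (`ξ = 0`) and `f_contour` (`m = 1`, `c = cc k t`, `s1 = 1/10`):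
`J t κ √(2πt) = ∫ f(sI) ds = (main) + (outer)`, `main = G + O(1/(√k√‖Λ‖))`, `G² = 2π/Λ` (`main_int`);
`‖outer‖ ≤ 2·C e^{-ϱ/20} min(1/√k, 1/ϱ)` (`outer_bound_pos/neg`, `outer_int` with `η = 0`, drop the factor `(1+s)² ≥ 1`;
for `Iio` substitute `s ↦ -s`).  `‖Λ‖ ≤ A + B + 1.01k ≤ 4(A+cB) + 2.1k = (400/3)ϱ + 2.1k` (`B ≤ k`, or `c = 1/4`), so
`√‖Λ‖ · ‖outer‖ ≤ C'(1/√ϱ + e^{-ϱ/20}) ≤ C''√V`.  Altogether `∫f = G + e`, `√‖Λ‖‖e‖ ≤ C√V` and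
`J²(1+tκ) = (G+e)²/(2πt) · tΛ = (G+e)² Λ/(2π) = 1 + Λ(2Ge + e²)/(2π)`, `√‖Λ‖‖G‖ = √(2π)`.

`lemmaJ`: `Im t ≥ 0` by `conj_J`, `V_conj`; `Re t = 0` by `tendsto_J`, `tendsto_V` (apply `lemmaJ_pos` at `t+ε`: `|κI| V ≤ 1/2000`
and `V ≤ V0/2` leave room; the inequality passes to the limit).
-/

namespace SokalU

open Complex MeasureTheory Filter Topology

/-- `‖Λ‖ ≤ 134 ϱ + 2.1 k` -/
private theorem LJ_Lam {t : ℂ} {k kI : ℝ} (ht : 0 < t.re) (hti : t.im ≤ 0) (hk : 0 < k)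
    (hkI : |kI| ≤ k / 50) :
    ‖t⁻¹ + ((k : ℂ) + kI * I)‖ ≤ 134 * (3 / 100 * ((t⁻¹).re + cc k t * (t⁻¹).im)) + 21 / 10 * k := by
  have hA := inv_re_pos ht
  have hB := inv_im_nonneg ht hti
  have h1 : ‖t⁻¹‖ ≤ (t⁻¹).re + (t⁻¹).im := by
    refine (Complex.norm_le_abs_re_add_abs_im _).trans ?_
    rw [abs_of_pos hA, abs_of_nonneg hB]
  have h2 : ‖((k : ℂ) + kI * I)‖ ≤ k + k / 50 := by
    refine (norm_add_le _ _).trans ?_
    rw [norm_mul, Complex.norm_I, mul_one, Complex.norm_real, Complex.norm_real, Real.norm_eq_abs,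
      Real.norm_eq_abs, abs_of_pos hk]
    linarith
  have h3 : (t⁻¹).re + (t⁻¹).im ≤ 4 * ((t⁻¹).re + cc k t * (t⁻¹).im) + k := by
    rcases le_total (1 / 4 : ℝ) ((t⁻¹).im / (4 * k)) with h | h
    · have : cc k t = 1 / 4 := min_eq_left h
      rw [this]
      linarith
    · have h4 : (t⁻¹).im ≤ k := by
        rw [div_le_iff₀ (by positivity)] at h
        linarith
      have h5 : 0 ≤ cc k t * (t⁻¹).im := mul_nonneg (cc_nonneg hk ht hti) hB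
      linarith
  have h6 : 0 ≤ cc k t * (t⁻¹).im := mul_nonneg (cc_nonneg hk ht hti) hB
  have := norm_add_le t⁻¹ ((k : ℂ) + kI * I)
  linarith

private theorem LJ_exp {x : ℝ} (hx : 0 < x) : Real.exp (-x) ≤ 1 / √x := by
  have h1 : √x ≤ Real.exp x := by
    have h2 := Real.add_one_le_exp x
    have h3 : √x ≤ x + 1 := by
      have := Real.sqrt_nonneg x
      nlinarith [Real.sq_sqrt hx.le, sq_nonneg (√x - 1)]
    linarith
  rw [Real.exp_neg, ← one_div]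
  exact one_div_le_one_div_of_le (Real.sqrt_pos.2 hx) h1

theorem lemmaJ_pos : ∃ V0 : ℝ, 0 < V0 ∧ ∃ C : ℝ, 0 < C ∧ ∀ (t : ℂ) (k kI : ℝ), 0 < t.re →
    t.im ≤ 0 → 0 < k → V k t ≤ V0 → |kI| * V k t ≤ 1 / 1000 →
    ‖J t (k + kI * I) ^ 2 * (1 + t * (k + kI * I)) - 1‖ ≤ C * √(V k t) := by
  obtain ⟨C1, hC1, hmain⟩ := main_int
  obtain ⟨C2, hC2, hout⟩ := outer_int
  obtain ⟨C3, hC3⟩ : ∃ C3 : ℝ, C3 = C1 + 1456 * C2 := ⟨_, rfl⟩
  have hC3p : 0 < C3 := by rw [hC3]; positivity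
  refine ⟨3 / 400, by norm_num, C3 + C3 ^ 2, by positivity, ?_⟩
  intro t k kI ht hti hk hV hkIV
  have ht0 : t ≠ 0 := by
    intro h; rw [h] at ht; simp at ht
  have hVp : 0 < V k t := V_pos hk ht.le
  have hVinv : (V k t)⁻¹ ≤ k := inv_V_le hk ht.le
  have hVi2 : 400 / 3 ≤ (V k t)⁻¹ := by
    rw [le_inv_comm₀ (by norm_num) hVp]
    norm_num
    linarith
  have hk1 : 1 ≤ k := by linarith
  have hkI1 : |kI| ≤ 1 / 1000 * (V k t)⁻¹ := by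
    rw [← div_eq_mul_inv, le_div_iff₀ hVp]; exact hkIV
  have hkI2 : |kI| ≤ k / 50 := by linarith
  obtain ⟨ϱ, hϱ⟩ : ∃ ϱ : ℝ, ϱ = 3 / 100 * ((t⁻¹).re + cc k t * (t⁻¹).im) := ⟨_, rfl⟩
  have hϱV : 3 / 400 * (V k t)⁻¹ ≤ ϱ := by
    have := inv_V_le_path hk ht hti
    rw [hϱ]; linarith
  have hϱ1 : 1 ≤ ϱ := by linarith
  have hϱ0 : 0 < ϱ := by linarith
  obtain ⟨Λ, hΛ⟩ : ∃ Λ : ℂ, Λ = t⁻¹ + ((k : ℂ) + kI * I) := ⟨_, rfl⟩
  have hΛn : ‖Λ‖ ≤ 134 * ϱ + 21 / 10 * k := by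
    rw [hΛ, hϱ]; exact LJ_Lam ht hti hk hkI2
  have hΛre : k ≤ Λ.re := by
    rw [hΛ]
    simp only [add_re, mul_re, ofReal_re, ofReal_im, I_re, I_im]
    have := inv_re_pos ht
    linarith
  have hΛ0 : Λ ≠ 0 := by
    intro h
    rw [h] at hΛre
    simp at hΛre
    linarith
  have hΛp : 0 < ‖Λ‖ := norm_pos_iff.2 hΛ0
  obtain ⟨G, hG, hGe⟩ := hmain t k kI ht hti hk1 hkI2
  rw [← hΛ] at hG hGe
  -- the outer integrals
  obtain ⟨hoi, hob⟩ := hout ϱ k (1 / 10) 0 hϱ1 hk1 (by norm_num)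
  obtain ⟨o, ho⟩ : ∃ o : ℝ, o = C2 * Real.exp (-(ϱ * (1 / 10) / 2)) * min (1 / √k) (1 / ϱ) :=
    ⟨_, rfl⟩
  rw [← ho] at hob
  have hbnd : ∀ g : ℝ → ℂ, (∀ s : ℝ, 1 / 10 ≤ s → ‖g s‖ ≤ Real.exp (-(ϱ * s)) *
      Real.exp (-(9 / 10 * k * (1 - Real.cos s)))) →
      ‖∫ s in Set.Ioi (1 / 10 : ℝ), g s‖ ≤ o := by
    intro g hg
    refine le_trans (norm_integral_le_of_norm_le hoi ?_) hob
    refine (ae_restrict_iff' measurableSet_Ioi).2 (Eventually.of_forall fun s hs => ?_)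
    have hs' : (1 / 10 : ℝ) < s := hs
    refine (hg s hs'.le).trans ?_
    rw [add_zero]
    refine le_mul_of_one_le_left (by positivity) ?_
    nlinarith
  have h1 : ‖∫ s in Set.Ioi (1 / 10 : ℝ),
      f t (k + kI * I) 0 (((cc k t * (1 / 10) : ℝ) : ℂ) + s * I)‖ ≤ o := by
    refine hbnd _ fun s hs => ?_
    have := outer_bound_pos ht hti hk hkIV hs
    rw [hϱ]; exact this
  have h2 : ‖∫ s in Set.Iio (-(1 / 10 : ℝ)),
      f t (k + kI * I) 0 (-((cc k t * (1 / 10) : ℝ) : ℂ) + s * I)‖ ≤ o := by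
    have e : (∫ s in Set.Iio (-(1 / 10 : ℝ)),
        f t (k + kI * I) 0 (-((cc k t * (1 / 10) : ℝ) : ℂ) + s * I)) =
        ∫ s in Set.Ioi (1 / 10 : ℝ),
          f t (k + kI * I) 0 (-((cc k t * (1 / 10) : ℝ) : ℂ) + ((-s : ℝ) : ℂ) * I) := by
      rw [← integral_Iic_eq_integral_Iio]
      exact (integral_comp_neg_Ioi (1 / 10 : ℝ) (fun s : ℝ =>
        f t (k + kI * I) 0 (-((cc k t * (1 / 10) : ℝ) : ℂ) + s * I))).symm
    rw [e]
    refine hbnd _ fun s hs => ?_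
    have := outer_bound_neg ht hti hk hkIV (s := -s) (by linarith)
    rw [abs_neg, abs_of_nonneg (by linarith), Real.cos_neg] at this
    rw [hϱ]; exact this
  -- the total
  obtain ⟨P, hP⟩ : ∃ P : ℂ, P = ∫ s : ℝ, f t (k + kI * I) 0 (s * I) := ⟨_, rfl⟩
  have hcon := f_contour (t := t) (κ := (k : ℂ) + kI * I) (ξ := 0) ht (m := fun _ => 1)
    (differentiable_const _) (K := 1) (fun x y _ => by
      rw [norm_one, one_mul]
      exact one_le_pow₀ (by linarith [abs_nonneg y])) (c := cc k t) (s1 := 1 / 10)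
    (cc_nonneg hk ht hti) (by norm_num) (by linarith [cc_le k t])
  simp only [one_mul] at hcon
  rw [← hP] at hcon
  have hPG : ‖P - G‖ ≤ C1 / (√k * √‖Λ‖) + 2 * o := by
    rw [hcon]
    have e : (∫ s in Set.Ioi (1 / 10 : ℝ),
        f t (k + kI * I) 0 (((cc k t * (1 / 10) : ℝ) : ℂ) + s * I)) +
        (∫ s in Set.Iio (-(1 / 10 : ℝ)),
          f t (k + kI * I) 0 (-((cc k t * (1 / 10) : ℝ) : ℂ) + s * I)) +
        (1 - cc k t * I) * (∫ s in (-(1 / 10) : ℝ)..(1 / 10),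
          f t (k + kI * I) 0 ((cc k t + I) * s)) - G =
        ((∫ s in Set.Ioi (1 / 10 : ℝ),
        f t (k + kI * I) 0 (((cc k t * (1 / 10) : ℝ) : ℂ) + s * I)) +
        (∫ s in Set.Iio (-(1 / 10 : ℝ)),
          f t (k + kI * I) 0 (-((cc k t * (1 / 10) : ℝ) : ℂ) + s * I))) +
        ((1 - cc k t * I) * (∫ s in (-(1 / 10) : ℝ)..(1 / 10),
          f t (k + kI * I) 0 ((cc k t + I) * s)) - G) := by ring
    rw [e]
    refine (norm_add_le _ _).trans ?_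
    have := norm_add_le (∫ s in Set.Ioi (1 / 10 : ℝ),
        f t (k + kI * I) 0 (((cc k t * (1 / 10) : ℝ) : ℂ) + s * I))
        (∫ s in Set.Iio (-(1 / 10 : ℝ)),
          f t (k + kI * I) 0 (-((cc k t * (1 / 10) : ℝ) : ℂ) + s * I))
    linarith
  -- size of the error
  obtain ⟨e, he⟩ : ∃ e : ℂ, e = P - G := ⟨_, rfl⟩
  rw [← he] at hPG
  have hsk : 0 < √k := Real.sqrt_pos.2 hk
  have hsΛ : 0 < √‖Λ‖ := Real.sqrt_pos.2 hΛp
  have hsV : 0 < √(V k t) := Real.sqrt_pos.2 hVp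
  have hkV : 1 / √k ≤ √(V k t) := by
    rw [div_le_iff₀ hsk, ← Real.sqrt_mul hVp.le]
    rw [Real.one_le_sqrt]
    rw [inv_le_iff_one_le_mul₀ hVp] at hVinv
    linarith
  have hexp : Real.exp (-(ϱ * (1 / 10) / 2)) ≤ 52 * √(V k t) := by
    refine (LJ_exp (by positivity)).trans ?_
    rw [div_le_iff₀ (by positivity), mul_assoc, ← Real.sqrt_mul hVp.le]
    have h3 : 3 / 8000 ≤ V k t * (ϱ * (1 / 10) / 2) := by
      have h4 : 3 / 400 ≤ V k t * ϱ := by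
        have := mul_le_mul_of_nonneg_left hϱV hVp.le
        have e : V k t * (3 / 400 * (V k t)⁻¹) = 3 / 400 := by field_simp
        linarith
      linarith
    have h5 : (1 / 52 : ℝ) ≤ √(V k t * (ϱ * (1 / 10) / 2)) := by
      apply Real.le_sqrt_of_sq_le
      linarith
    linarith
  have hmin : √‖Λ‖ * min (1 / √k) (1 / ϱ) ≤ 14 := by
    have h3 : √‖Λ‖ ≤ 12 * √ϱ + 3 / 2 * √k := by
      apply Real.sqrt_le_iff.2
      refine ⟨by positivity, hΛn.trans ?_⟩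
      have h4 := Real.sq_sqrt hϱ0.le
      have h5 := Real.sq_sqrt hk.le
      have h6 : 0 ≤ √ϱ * √k := by positivity
      nlinarith
    have h7 : √ϱ * (1 / ϱ) ≤ 1 := by
      rw [mul_one_div, div_le_one hϱ0]
      have := Real.sq_sqrt hϱ0.le
      have h8 : 1 ≤ √ϱ := by rw [Real.one_le_sqrt]; exact hϱ1
      nlinarith
    have h9 : √k * (1 / √k) = 1 := by field_simp
    have h10 : 0 ≤ min (1 / √k) (1 / ϱ) := le_min (by positivity) (by positivity)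
    calc √‖Λ‖ * min (1 / √k) (1 / ϱ) ≤ (12 * √ϱ + 3 / 2 * √k) * min (1 / √k) (1 / ϱ) := by gcongr
      _ = 12 * (√ϱ * min (1 / √k) (1 / ϱ)) + 3 / 2 * (√k * min (1 / √k) (1 / ϱ)) := by ring
      _ ≤ 12 * (√ϱ * (1 / ϱ)) + 3 / 2 * (√k * (1 / √k)) := by
          gcongr
          · exact min_le_right _ _
          · exact min_le_left _ _
      _ ≤ 14 := by rw [h9]; linarith
  have hse : √‖Λ‖ * ‖e‖ ≤ C3 * √(V k t) := by
    have h3 : √‖Λ‖ * (C1 / (√k * √‖Λ‖)) = C1 * (1 / √k) := by field_simp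
    have h4 : √‖Λ‖ * o ≤ 728 * C2 * √(V k t) := by
      have e1 : √‖Λ‖ * o = C2 * Real.exp (-(ϱ * (1 / 10) / 2)) * (√‖Λ‖ * min (1 / √k) (1 / ϱ)) := by
        rw [ho]; ring
      rw [e1]
      calc C2 * Real.exp (-(ϱ * (1 / 10) / 2)) * (√‖Λ‖ * min (1 / √k) (1 / ϱ))
          ≤ C2 * (52 * √(V k t)) * 14 := by gcongr
        _ = _ := by ring
    calc √‖Λ‖ * ‖e‖ ≤ √‖Λ‖ * (C1 / (√k * √‖Λ‖) + 2 * o) := by gcongr
      _ = C1 * (1 / √k) + 2 * (√‖Λ‖ * o) := by rw [mul_add, h3]; ring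
      _ ≤ C1 * √(V k t) + 2 * (728 * C2 * √(V k t)) := by gcongr
      _ = C3 * √(V k t) := by rw [hC3]; ring
  -- the identity
  have hJ : J t (k + kI * I) * (2 * Real.pi * t) ^ (1 / 2 : ℂ) = P := by
    have h3 := gauss_rep ht ((k : ℂ) + kI * I) 0
    rw [Complex.exp_zero, mul_one, ← hP] at h3
    unfold J
    rw [mul_right_comm, h3, mul_right_comm, ← Complex.exp_add, add_neg_cancel, Complex.exp_zero,
      one_mul]
  have hJ2 : J t (k + kI * I) ^ 2 * (2 * Real.pi * t) = P ^ 2 := by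
    rw [← hJ, mul_pow, ← Complex.cpow_nat_mul]
    congr 1
    norm_num
  have hpi : (Real.pi : ℂ) ≠ 0 := by exact_mod_cast Real.pi_ne_zero
  have hid : J t (k + kI * I) ^ 2 * (1 + t * (k + kI * I)) - 1 =
      Λ * (2 * G * e + e ^ 2) / (2 * Real.pi) := by
    have h3 : 1 + t * ((k : ℂ) + kI * I) = t * Λ := by
      have h4 : t * Λ = t * t⁻¹ + t * ((k : ℂ) + kI * I) := by rw [hΛ]; ring
      rw [h4, mul_inv_cancel₀ ht0]
    have h4 : G ^ 2 * Λ = 2 * Real.pi := by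
      rw [hG]; field_simp
    have h5 : J t (k + kI * I) ^ 2 * (t * Λ) * (2 * Real.pi) = P ^ 2 * Λ := by
      rw [← hJ2]; ring
    have h6 : P = G + e := by rw [he]; ring
    rw [h3, eq_div_iff (mul_ne_zero two_ne_zero hpi), sub_mul, h5, h6, one_mul, ← h4]
    ring
  rw [hid, norm_div, norm_mul, norm_mul, Complex.norm_real, Real.norm_of_nonneg Real.pi_pos.le,
    Complex.norm_ofNat, div_le_iff₀ (by positivity)]
  have hGn : √‖Λ‖ * ‖G‖ ≤ 3 := by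
    have h3 : (√‖Λ‖ * ‖G‖) ^ 2 = 2 * Real.pi := by
      rw [mul_pow, Real.sq_sqrt hΛp.le, ← norm_pow, hG, norm_div, norm_mul, Complex.norm_real,
        Real.norm_of_nonneg Real.pi_pos.le, Complex.norm_ofNat]
      field_simp
    have h4 : (√‖Λ‖ * ‖G‖) ^ 2 ≤ 3 ^ 2 := by
      rw [h3]
      have := Real.pi_lt_four
      linarith
    exact (pow_le_pow_iff_left₀ (by positivity) (by norm_num) two_ne_zero).1 h4
  have hn1 : ‖Λ‖ * ‖2 * G * e + e ^ 2‖ ≤ 2 * (√‖Λ‖ * ‖G‖) * (√‖Λ‖ * ‖e‖) + (√‖Λ‖ * ‖e‖) ^ 2 := by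
    have h3 : ‖2 * G * e + e ^ 2‖ ≤ 2 * ‖G‖ * ‖e‖ + ‖e‖ ^ 2 := by
      refine (norm_add_le _ _).trans ?_
      rw [norm_mul, norm_mul, norm_pow, Complex.norm_ofNat]
    have h4 : √‖Λ‖ * √‖Λ‖ = ‖Λ‖ := Real.mul_self_sqrt hΛp.le
    calc ‖Λ‖ * ‖2 * G * e + e ^ 2‖ ≤ ‖Λ‖ * (2 * ‖G‖ * ‖e‖ + ‖e‖ ^ 2) := by gcongr
      _ = (√‖Λ‖ * √‖Λ‖) * (2 * ‖G‖ * ‖e‖ + ‖e‖ ^ 2) := by rw [h4]
      _ = _ := by ring
  have hV1 : √(V k t) ^ 2 ≤ √(V k t) := by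
    have h3 : √(V k t) ≤ 1 := by
      apply Real.sqrt_le_iff.2
      constructor
      · norm_num
      · linarith
    nlinarith
  have hpi2 : 3 < Real.pi := Real.pi_gt_three
  calc ‖Λ‖ * ‖2 * G * e + e ^ 2‖ ≤ 2 * (√‖Λ‖ * ‖G‖) * (√‖Λ‖ * ‖e‖) + (√‖Λ‖ * ‖e‖) ^ 2 := hn1
    _ ≤ 2 * 3 * (C3 * √(V k t)) + (C3 * √(V k t)) ^ 2 := by gcongr
    _ = 6 * (C3 * √(V k t)) + C3 ^ 2 * √(V k t) ^ 2 := by ring
    _ ≤ 6 * (C3 * √(V k t)) + C3 ^ 2 * √(V k t) := by gcongr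
    _ ≤ (C3 + C3 ^ 2) * √(V k t) * (2 * Real.pi) := by
        have h3 : 0 ≤ (C3 + C3 ^ 2) * √(V k t) := by positivity
        have h4 : 0 ≤ C3 ^ 2 * √(V k t) := by positivity
        nlinarith

theorem lemmaJ : ∃ V0 : ℝ, 0 < V0 ∧ ∃ C : ℝ, 0 < C ∧ ∀ (t : ℂ) (k kI : ℝ), 0 ≤ t.re →
    0 < k → V k t ≤ V0 → |kI| * V k t ≤ 1 / 2000 →
    ‖J t (k + kI * I) ^ 2 * (1 + t * (k + kI * I)) - 1‖ ≤ C * √(V k t) := by
  obtain ⟨V0, hV0, C, hC, h⟩ := lemmaJ_pos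
  refine ⟨V0 / 2, by positivity, C, hC, ?_⟩
  -- nonpositive imaginary part
  have key : ∀ (t : ℂ) (k kI : ℝ), 0 ≤ t.re → t.im ≤ 0 → 0 < k → V k t ≤ V0 / 2 →
      |kI| * V k t ≤ 1 / 2000 →
      ‖J t (k + kI * I) ^ 2 * (1 + t * (k + kI * I)) - 1‖ ≤ C * √(V k t) := by
    intro t k kI ht hti hk hV hkI
    have h1 := tendsto_V hk ht
    have h2 := tendsto_J ht ((k : ℂ) + kI * I)
    have h3 : Tendsto (fun ε : ℝ => t + (ε : ℂ)) (𝓝[>] 0) (𝓝 t) := by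
      have : Tendsto (fun ε : ℝ => t + (ε : ℂ)) (𝓝 0) (𝓝 (t + ((0 : ℝ) : ℂ))) :=
        (continuous_const.add continuous_ofReal).tendsto 0
      rw [ofReal_zero, add_zero] at this
      exact this.mono_left nhdsWithin_le_nhds
    have h4 : Tendsto (fun ε : ℝ => ‖J (t + ε) (k + kI * I) ^ 2 *
        (1 + (t + ε) * (k + kI * I)) - 1‖) (𝓝[>] 0)
        (𝓝 ‖J t (k + kI * I) ^ 2 * (1 + t * (k + kI * I)) - 1‖) :=
      (((h2.pow 2).mul ((h3.mul_const _).const_add 1)).sub_const 1).norm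
    have h5 : Tendsto (fun ε : ℝ => C * √(V k (t + ε))) (𝓝[>] 0) (𝓝 (C * √(V k t))) :=
      ((Real.continuous_sqrt.tendsto _).comp h1).const_mul C
    refine le_of_tendsto_of_tendsto h4 h5 ?_
    have h6 : ∀ᶠ ε : ℝ in 𝓝[>] 0, V k (t + ε) < V0 :=
      h1.eventually_lt_const (by linarith)
    have h7 : ∀ᶠ ε : ℝ in 𝓝[>] 0, |kI| * V k (t + ε) < 1 / 1000 :=
      (h1.const_mul |kI|).eventually_lt_const (by linarith)
    filter_upwards [h6, h7, self_mem_nhdsWithin] with ε h8 h9 h10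
    have h11 : (0 : ℝ) < ε := h10
    refine h (t + ε) k kI ?_ ?_ hk h8.le h9.le
    · rw [add_re, ofReal_re]; linarith
    · rw [add_im, ofReal_im]; linarith
  intro t k kI ht hk hV hkI
  rcases le_total t.im 0 with hti | hti
  · exact key t k kI ht hti hk hV hkI
  · have h1 := key ((starRingEnd ℂ) t) k (-kI) (by simpa using ht) (by simpa using hti) hk
      (by rw [V_conj]; exact hV) (by rw [V_conj, abs_neg]; exact hkI)
    rw [V_conj] at h1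
    have h2 : ((k : ℂ) + ((-kI : ℝ) : ℂ) * I) = (starRingEnd ℂ) ((k : ℂ) + kI * I) := by
      simp
    rw [h2, conj_J] at h1
    have h3 : (starRingEnd ℂ) (J t (k + kI * I)) ^ 2 *
        (1 + (starRingEnd ℂ) t * (starRingEnd ℂ) ((k : ℂ) + kI * I)) - 1 =
        (starRingEnd ℂ) (J t (k + kI * I) ^ 2 * (1 + t * (k + kI * I)) - 1) := by
      simp only [map_sub, map_mul, map_pow, map_add, map_one]
    rw [h3, Complex.norm_conj] at h1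
    exact h1

end SokalU
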