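import Pool.Agent.Lib_MP_af4de1_u.LemmaJ

/-!
# The logarithmic derivative at a saddle point [SU-LOGD]

Let `P(κ') = J(κ')²(1+tκ')`, entire.  On the disc of radius `ρ = 1/(16000 V)` around `κ = k + iκI` (`|κI| V ≤ 1/8000`):
a point `k' + iκ'I` of it has `|k'-k| ≤ ρ ≤ k/16000` (`1/V ≤ k`), `V(k') ≤ (6/5)V(k)` (`V_compare`), `|κ'I| V(k') ≤
(6/5)(1/8000+1/16000) ≤ 1/2000`, so `‖P - 1‖ ≤ 2C√V` there (`lemmaJ`).  Cauchy (`Complex.norm_deriv_le_of_forall_mem_sphere_norm_le`):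
`‖P'(κ)‖ ≤ 2C√V/ρ = C' V^{3/2}`.  With `V ≤ V0` small `‖P‖ ≥ 1/2`, `J ≠ 0`, and `P'/P = 2J'/J + t/(1+tκ)`, so
`‖J'/J‖ ≤ C'V^{3/2} + ‖t‖/‖1+tκ‖ ≤ C''V` (`norm_t_le`; `‖1+tκ‖ ≥ ‖1+tk‖ - ‖t‖|κI| ≥ 1 - 2V·|κI| ≥ 1/2`).
With `hasDerivAt_J`: `κJ' = (1+tκ)e^{-S}(DE - κE)` and `J = E e^{-S}`: `(DE - κE)(1+tκ) = κ L E`, `L = J'/J`.
The bound for `‖J‖`: `‖J‖² ‖1+tκ‖ ∈ [1-δ, 1+δ]`.
-/

namespace SokalU

open Complex Metric

/-- The function `P(κ) = J(κ)² (1+tκ)`. -/
private noncomputable def PP (t κ : ℂ) : ℂ := J t κ ^ 2 * (1 + t * κ)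

private theorem hasDerivAt_PP {t κ J' : ℂ} (h : HasDerivAt (J t) J' κ) :
    HasDerivAt (PP t) (2 * J t κ * J' * (1 + t * κ) + J t κ ^ 2 * t) κ := by
  have h1 : HasDerivAt (fun κ : ℂ => 1 + t * κ) t κ := by
    have := ((hasDerivAt_id κ).const_mul t).const_add 1
    simpa using this
  have h2 := (h.pow 2).mul h1
  have h3 : HasDerivAt (PP t) (((2 : ℕ) : ℂ) * J t κ ^ (2 - 1) * J' * (1 + t * κ) +
      J t κ ^ 2 * t) κ := h2
  convert h3 using 1
  norm_num

private theorem differentiable_PP {t : ℂ} (ht : 0 ≤ t.re) : Differentiable ℂ (PP t) := by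
  intro κ
  obtain ⟨J', hJ', -⟩ := hasDerivAt_J ht κ
  exact (hasDerivAt_PP hJ').differentiableAt

private theorem norm_one_add_ge {t : ℂ} {k kI : ℝ} (ht : 0 ≤ t.re) (hk : 0 < k)
    (hkI : |kI| * V k t ≤ 1 / 8000) : 1 / 2 ≤ ‖1 + t * ((k : ℂ) + kI * I)‖ := by
  have h1 := one_le_norm hk ht
  have h2 := norm_t_le hk ht
  have h3 : ‖1 + t * (k : ℂ)‖ ≤ ‖1 + t * ((k : ℂ) + kI * I)‖ + ‖t * (kI * I)‖ := by
    have : 1 + t * (k : ℂ) = (1 + t * ((k : ℂ) + kI * I)) - t * (kI * I) := by ring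
    rw [this]
    exact norm_sub_le _ _
  have h4 : ‖t * (kI * I)‖ = ‖t‖ * |kI| := by
    rw [norm_mul, norm_mul, Complex.norm_real, Complex.norm_I, mul_one, Real.norm_eq_abs]
  have h5 : ‖t‖ * |kI| ≤ 2 * V k t * |kI| := by gcongr
  rw [h4] at h3
  nlinarith

theorem logDeriv : ∃ C : ℝ, 0 < C ∧ ∀ δ : ℝ, 0 < δ → ∃ V0 : ℝ, 0 < V0 ∧ ∀ (t : ℂ) (k kI : ℝ),
    0 ≤ t.re → 0 < k → V k t ≤ V0 → |kI| * V k t ≤ 1 / 8000 →
    J t (k + kI * I) ≠ 0 ∧
    |‖J t (k + kI * I)‖ ^ 2 * ‖1 + t * (k + kI * I)‖ - 1| ≤ δ ∧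
    ∃ L : ℂ, ‖L‖ ≤ C * V k t ∧
      (DE t (zp t (k + kI * I)) - (k + kI * I) * E t (zp t (k + kI * I))) *
        (1 + t * (k + kI * I)) = (k + kI * I) * L * E t (zp t (k + kI * I)) := by
  obtain ⟨V1, hV1, C1, hC1, hJ⟩ := lemmaJ
  refine ⟨32000 * C1 + 2, by positivity, fun δ hδ => ?_⟩
  refine ⟨min (min (5 / 6 * V1) 1) (min ((1 / (2 * C1)) ^ 2) ((δ / C1) ^ 2)), by positivity, ?_⟩
  intro t k kI ht hk hV hkI
  have hVpos := V_pos hk ht
  have hVa : V k t ≤ 5 / 6 * V1 := hV.trans ((min_le_left _ _).trans (min_le_left _ _))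
  have hVb : V k t ≤ 1 := hV.trans ((min_le_left _ _).trans (min_le_right _ _))
  have hVc : V k t ≤ (1 / (2 * C1)) ^ 2 :=
    hV.trans ((min_le_right _ _).trans (min_le_left _ _))
  have hVd : V k t ≤ (δ / C1) ^ 2 := hV.trans ((min_le_right _ _).trans (min_le_right _ _))
  have hsc : C1 * √(V k t) ≤ 1 / 2 := by
    have h1 : √(V k t) ≤ 1 / (2 * C1) := by
      rw [Real.sqrt_le_left (by positivity)]; exact hVc
    calc C1 * √(V k t) ≤ C1 * (1 / (2 * C1)) := by gcongr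
      _ = 1 / 2 := by field_simp
  have hsd : C1 * √(V k t) ≤ δ := by
    have h1 : √(V k t) ≤ δ / C1 := by
      rw [Real.sqrt_le_left (by positivity)]; exact hVd
    calc C1 * √(V k t) ≤ C1 * (δ / C1) := by gcongr
      _ = δ := by field_simp
  have hse : √(V k t) ≤ 1 := by
    rw [Real.sqrt_le_left (by norm_num)]; simpa using hVb
  set κ : ℂ := (k : ℂ) + kI * I with hκ
  -- the bound at `κ`
  have hP0 : ‖PP t κ - 1‖ ≤ C1 * √(V k t) := by
    refine hJ t k kI ht hk (by linarith) ?_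
    linarith
  have hP1 : ‖PP t κ - 1‖ ≤ 1 / 2 := hP0.trans hsc
  have hP2 : 1 / 2 ≤ ‖PP t κ‖ := by
    have h1 : ‖(1 : ℂ)‖ ≤ ‖PP t κ‖ + ‖PP t κ - 1‖ := by
      have : (1 : ℂ) = PP t κ - (PP t κ - 1) := by ring
      calc ‖(1 : ℂ)‖ = ‖PP t κ - (PP t κ - 1)‖ := by rw [← this]
        _ ≤ _ := norm_sub_le _ _
    rw [norm_one] at h1
    linarith
  have hPne : PP t κ ≠ 0 := by
    intro h
    rw [h, norm_zero] at hP2
    linarith
  have hJne : J t κ ≠ 0 := by
    intro h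
    apply hPne
    unfold PP
    rw [h]
    ring
  have h1ne : 1 + t * κ ≠ 0 := by
    intro h
    apply hPne
    unfold PP
    rw [h]
    ring
  obtain ⟨J', hJ', hJid⟩ := hasDerivAt_J ht κ
  -- Cauchy
  have hcauchy : ‖deriv (fun z => PP t z - 1) κ‖ ≤
      2 * C1 * √(V k t) / (1 / (16000 * V k t)) := by
    refine Complex.norm_deriv_le_of_forall_mem_sphere_norm_le (by positivity) ?_ ?_
    · exact ((differentiable_PP ht).sub_const 1).diffContOnCl
    · intro z hz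
      rw [mem_sphere, dist_eq_norm] at hz
      have hinv : (V k t)⁻¹ ≤ k := inv_V_le hk ht
      have hρ : 1 / (16000 * V k t) ≤ k / 16000 := by
        have : 1 / (16000 * V k t) = (V k t)⁻¹ / 16000 := by
          field_simp
        rw [this]
        linarith
      have hre : |z.re - k| ≤ 1 / (16000 * V k t) := by
        have h1 := Complex.abs_re_le_norm (z - κ)
        rw [hz] at h1
        simpa [hκ] using h1
      have him : |z.im - kI| ≤ 1 / (16000 * V k t) := by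
        have h1 := Complex.abs_im_le_norm (z - κ)
        rw [hz] at h1
        simpa [hκ] using h1
      have hre' := abs_le.1 hre
      have hkz : 0 < z.re := by linarith [hre'.1]
      have hVz : V z.re t ≤ 6 / 5 * V k t :=
        V_compare hk ht (by linarith [hre'.1]) (by linarith [hre'.2])
      have hVz0 := V_pos hkz ht
      have hz1 : |z.im| ≤ |kI| + 1 / (16000 * V k t) := by
        have : z.im = kI + (z.im - kI) := by ring
        rw [this]
        exact (abs_add_le _ _).trans (by linarith)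
      have hz2 : |z.im| * V z.re t ≤ 1 / 2000 := by
        calc |z.im| * V z.re t ≤ (|kI| + 1 / (16000 * V k t)) * (6 / 5 * V k t) := by gcongr
          _ = 6 / 5 * (|kI| * V k t) + 6 / 5 * (1 / 16000) := by field_simp
          _ ≤ 1 / 2000 := by linarith
      have h2 := hJ t z.re z.im ht hkz (by linarith) hz2
      rw [Complex.re_add_im] at h2
      have h3 : √(V z.re t) ≤ 2 * √(V k t) := by
        rw [Real.sqrt_le_left (by positivity), mul_pow, Real.sq_sqrt hVpos.le]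
        linarith
      calc ‖PP t z - 1‖ ≤ C1 * √(V z.re t) := h2
        _ ≤ C1 * (2 * √(V k t)) := by gcongr
        _ = 2 * C1 * √(V k t) := by ring
  have hderiv : deriv (fun z => PP t z - 1) κ =
      2 * J t κ * J' * (1 + t * κ) + J t κ ^ 2 * t :=
    ((hasDerivAt_PP hJ').sub_const 1).deriv
  have hD : ‖2 * J t κ * J' * (1 + t * κ) + J t κ ^ 2 * t‖ ≤ 32000 * C1 * V k t := by
    rw [← hderiv]
    refine hcauchy.trans ?_
    calc 2 * C1 * √(V k t) / (1 / (16000 * V k t)) = 32000 * C1 * V k t * √(V k t) := by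
          field_simp
          ring
      _ ≤ 32000 * C1 * V k t * 1 := by gcongr
      _ = _ := by ring
  have h1t := norm_one_add_ge ht hk hkI
  rw [← hκ] at h1t
  have htV := norm_t_le hk ht
  refine ⟨hJne, ?_, J' / J t κ, ?_, ?_⟩
  · have h1 : ‖J t κ‖ ^ 2 * ‖1 + t * κ‖ = ‖PP t κ‖ := by
      unfold PP
      rw [norm_mul, norm_pow]
    rw [h1]
    have h2 := abs_norm_sub_norm_le (PP t κ) 1
    rw [norm_one] at h2
    exact h2.trans (hP0.trans hsd)
  · have h1 : J' / J t κ = ((2 * J t κ * J' * (1 + t * κ) + J t κ ^ 2 * t) / PP t κ -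
        t / (1 + t * κ)) / 2 := by
      unfold PP
      field_simp
      ring
    rw [h1, norm_div]
    have h2 : ‖(2 * J t κ * J' * (1 + t * κ) + J t κ ^ 2 * t) / PP t κ‖ ≤
        2 * (32000 * C1 * V k t) := by
      rw [norm_div, div_le_iff₀ (by linarith)]
      have h3 : 0 ≤ 32000 * C1 * V k t := by positivity
      nlinarith
    have h3 : ‖t / (1 + t * κ)‖ ≤ 4 * V k t := by
      rw [norm_div, div_le_iff₀ (by linarith)]
      nlinarith
    have h4 := norm_sub_le ((2 * J t κ * J' * (1 + t * κ) + J t κ ^ 2 * t) / PP t κ)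
      (t / (1 + t * κ))
    have h5 : ‖(2 : ℂ)‖ = 2 := by simp
    rw [h5, div_le_iff₀ (by norm_num)]
    nlinarith
  · have h1 : E t (zp t κ) = J t κ * cexp (S t κ) := by
      unfold J
      rw [mul_assoc, ← Complex.exp_add]
      simp
    have h2 : κ * J' * cexp (S t κ) = (1 + t * κ) * (DE t (zp t κ) - κ * E t (zp t κ)) := by
      rw [hJid]
      have : cexp (-(S t κ)) * cexp (S t κ) = 1 := by
        rw [← Complex.exp_add]; simp
      calc (1 + t * κ) * cexp (-(S t κ)) * (DE t (zp t κ) - κ * E t (zp t κ)) * cexp (S t κ)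
          = (1 + t * κ) * (DE t (zp t κ) - κ * E t (zp t κ)) *
            (cexp (-(S t κ)) * cexp (S t κ)) := by ring
        _ = _ := by rw [this, mul_one]
    calc (DE t (zp t κ) - κ * E t (zp t κ)) * (1 + t * κ) = κ * J' * cexp (S t κ) := by
          rw [h2]; ring
      _ = κ * (J' / J t κ) * (J t κ * cexp (S t κ)) := by
          field_simp
      _ = κ * (J' / J t κ) * E t (zp t κ) := by rw [← h1]

end SokalU
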