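import Pool.Agent.Lib_MP_af4de1_u.Basic

/-!
# Pointwise bounds on the path, inside case [SU-PATHJ]

Write `A = Re(1/t) > 0`, `B = Im(1/t) ≥ 0`, `c = cc k t ≤ min(1/4, B/(4k))`, `κ = k + i κI`.
For `h = a + i s`: `Re(h²/(2t)) = ((a²-s²)A - 2 a s B)/2`,
`Re(κ(e^h-1-h)) = k(e^a cos s - 1 - a) - κI(e^a sin s - s)`.

MAIN ZONE `|s| ≤ 1/10`, `a = c s`: `Re(h²/(2t)) = -s²((1-c²)A/2 + cB)`, `Re(κh²/2) = s²(k(c²-1) - 2cκI)/2`,
`|κ(e^h-1-h-h²/2)| ≤ |κ||h|³e^{|h|}/6 ≤ k|s|³/4` (`|h| ≤ 1.031|s|`, `|κ| ≤ 1.001k`).  With `|κI| ≤ k/50` the sum is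
`≤ -s²(.46A + cB + .44k) ≤ -s²(A+B+k+k/50)/10` (if `B ≤ k` clear; if `B > k` then `c = 1/4`, `cB = B/4`) and
`‖1/t + κ‖ ≤ A + B + k + |κI|`.  Third claim: `f - cexp(Λ h²/2) = cexp(Λ h²/2)(e^w - 1)`, `w = κ(e^h-1-h-h²/2)`,
`|e^w-1| ≤ |w| max(1, e^{Re w})`, and both `|cexp(Λh²/2)|`, `|f|` are `≤ exp(-‖Λ‖s²/10)`, `Λ = 1/t+κ`.

OUTER ZONE `|s| ≥ 1/10`, `a = ± c/10` (sign of `s`): `Re(h²/(2t)) ≤ -(15/32)A s² - (c/10)B|s|`,
`k(e^a-1-a) ≤ .52 k a² ≤ .52 k (c/10)·(B/(4k))/10 ≤ .13 (c/10) B |s|` (`1/10 ≤ |s|`),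
`-k e^a(1-cos s) ≤ -.97k(1-cos s)`, `|κI||e^a sin s - s| ≤ 2.1|κI||s| ≤ .0021|s|/V ≤ .0084(A+cB)|s|`
(`inv_V_le_path`).  Sum `≤ -.03(A+cB)|s| - .9k(1-cos s)`.
-/

namespace SokalU

open Complex

private lemma PathJ_re1 (t : ℂ) (a s : ℝ) :
    (((a : ℂ) + s * I) ^ 2 / (2 * t)).re =
      ((a ^ 2 - s ^ 2) * (t⁻¹).re - 2 * a * s * (t⁻¹).im) / 2 := by
  have h : ((a : ℂ) + s * I) ^ 2 / (2 * t) =
      ((((a ^ 2 - s ^ 2) / 2 : ℝ) : ℂ) + ((a * s : ℝ) : ℂ) * I) * t⁻¹ := by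
    rw [div_eq_mul_inv, mul_inv]
    push_cast
    linear_combination (s : ℂ) ^ 2 / 2 * t⁻¹ * I_sq
  rw [h, Complex.mul_re]
  simp only [Complex.add_re, Complex.ofReal_re, Complex.mul_re, Complex.I_re, mul_zero,
    Complex.ofReal_im, Complex.I_im, mul_one, sub_self, add_zero, Complex.add_im, Complex.mul_im,
    zero_add]
  ring

private lemma PathJ_re2 (k kI a s : ℝ) :
    (((k : ℂ) + kI * I) * (cexp ((a : ℂ) + s * I) - 1 - ((a : ℂ) + s * I))).re =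
      k * (Real.exp a * Real.cos s - 1 - a) - kI * (Real.exp a * Real.sin s - s) := by
  have h1 : (cexp ((a : ℂ) + s * I)).re = Real.exp a * Real.cos s := by
    rw [Complex.exp_re]; simp
  have h2 : (cexp ((a : ℂ) + s * I)).im = Real.exp a * Real.sin s := by
    rw [Complex.exp_im]; simp
  rw [Complex.mul_re]
  simp only [Complex.sub_re, Complex.sub_im, h1, h2]
  simp

private lemma PathJ_f (t κ h : ℂ) :
    ‖f t κ 0 h‖ = Real.exp ((h ^ 2 / (2 * t)).re + (κ * (cexp h - 1 - h)).re) := by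
  unfold f
  rw [Complex.norm_exp, Complex.add_re, zero_add]

private lemma PathJ_outer {t : ℂ} {k kI : ℝ} (ht : 0 < t.re) (hti : t.im ≤ 0) (hk : 0 < k)
    (hkI : |kI| * V k t ≤ 1 / 1000) {a s : ℝ} (ha : |a| = cc k t * (1 / 10))
    (has : a * s = |a| * |s|) (hs : 1 / 10 ≤ |s|) :
    ‖f t (k + kI * I) 0 ((a : ℂ) + s * I)‖ ≤
      Real.exp (-(3 / 100 * ((t⁻¹).re + cc k t * (t⁻¹).im) * |s|)) *
        Real.exp (-(9 / 10 * k * (1 - Real.cos s))) := by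
  have hA : 0 < (t⁻¹).re := inv_re_pos ht
  have hB : 0 ≤ (t⁻¹).im := inv_im_nonneg ht hti
  have hc0 : 0 ≤ cc k t := cc_nonneg hk ht hti
  have hc1 : cc k t ≤ 1 / 4 := cc_le k t
  have hc2 : cc k t ≤ (t⁻¹).im / (4 * k) := cc_le' k t
  have hV : (V k t)⁻¹ ≤ 4 * ((t⁻¹).re + cc k t * (t⁻¹).im) := inv_V_le_path hk ht hti
  have hV0 : 0 < V k t := V_pos hk ht.le
  have hkc : cc k t * k ≤ (t⁻¹).im / 4 := by
    have h := mul_le_mul_of_nonneg_right hc2 hk.le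
    have e : (t⁻¹).im / (4 * k) * k = (t⁻¹).im / 4 := by field_simp
    rwa [e] at h
  have hkI2 : |kI| ≤ 4 / 1000 * ((t⁻¹).re + cc k t * (t⁻¹).im) := by
    have h1 : |kI| ≤ 1 / 1000 * (V k t)⁻¹ := by
      rw [← div_eq_mul_inv, le_div_iff₀ hV0]
      exact hkI
    linarith
  rw [PathJ_f, PathJ_re1, PathJ_re2, ← Real.exp_add]
  apply Real.exp_le_exp.2
  set A := (t⁻¹).re with hAd
  set B := (t⁻¹).im with hBd
  set c := cc k t with hcd
  set σ := |s| with hσ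
  have hσ0 : 0 ≤ σ := abs_nonneg s
  have hb : |a| ≤ 1 / 40 := by rw [ha]; linarith
  have ha2 : a ^ 2 = |a| ^ 2 := (sq_abs a).symm
  have hs2 : s ^ 2 = σ ^ 2 := (sq_abs s).symm
  have hcos : 0 ≤ 1 - Real.cos s := by linarith [Real.cos_le_one s]
  -- the quadratic part
  have q1 : ((a ^ 2 - s ^ 2) * A - 2 * a * s * B) / 2 ≤ -(15 / 320) * A * σ - c / 10 * B * σ := by
    have e1 : 2 * a * s * B = 2 * (|a| * σ) * B := by rw [← has]; ring
    rw [e1, ha2, hs2, ha]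
    have h1 : (c * (1 / 10)) ^ 2 ≤ σ ^ 2 / 16 := by
      have : c * (1 / 10) ≤ σ / 4 := by linarith
      have h0 : 0 ≤ c * (1 / 10) := by positivity
      nlinarith
    have h2 : σ / 10 ≤ σ ^ 2 := by nlinarith
    have h3 : ((c * (1 / 10)) ^ 2 - σ ^ 2) * A ≤ (-(15 / 160) * σ) * A := by
      apply mul_le_mul_of_nonneg_right _ hA.le
      linarith
    linarith
  -- the exponential part
  have e2 : k * (Real.exp a * Real.cos s - 1 - a) =
      k * (Real.exp a - 1 - a) - k * Real.exp a * (1 - Real.cos s) := by ring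
  have q2 : k * (Real.exp a - 1 - a) ≤ 13 / 100 * (c / 10) * B * σ := by
    have h1 : Real.exp a - 1 - a ≤ 52 / 100 * |a| ^ 2 := by
      have h2 := Real.exp_bound (x := a) (by linarith) (n := 3) (by norm_num)
      have h3 := (abs_le.1 h2).2
      simp only [Finset.sum_range_succ, Finset.sum_range_zero, Nat.factorial] at h3
      norm_num at h3
      have h4 : |a| ^ 3 ≤ 1 / 40 * |a| ^ 2 := by
        have : |a| ^ 3 = |a| * |a| ^ 2 := by ring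
        rw [this]
        exact mul_le_mul_of_nonneg_right hb (by positivity)
      have h5 : 0 ≤ |a| ^ 2 := by positivity
      rw [← sq_abs a] at h3
      linarith
    have h2 : k * |a| ^ 2 ≤ c / 10 * B / 40 := by
      rw [ha]
      have : k * (c * (1 / 10)) ^ 2 = c / 10 * (c * k) / 10 := by ring
      rw [this]
      have : c / 10 * (c * k) ≤ c / 10 * (B / 4) := mul_le_mul_of_nonneg_left hkc (by positivity)
      linarith
    have h3 : k * (Real.exp a - 1 - a) ≤ k * (52 / 100 * |a| ^ 2) :=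
      mul_le_mul_of_nonneg_left h1 hk.le
    have h4 : c / 10 * B * (1 / 10) ≤ c / 10 * B * σ :=
      mul_le_mul_of_nonneg_left hs (by positivity)
    linarith
  have hea : 97 / 100 ≤ Real.exp a := by
    have h1 := Real.add_one_le_exp a
    have h2 := neg_abs_le a
    linarith
  have hea2 : Real.exp a ≤ 11 / 10 := by
    have h1 : Real.exp a ≤ Real.exp (1 / 40) := Real.exp_le_exp.2 (by linarith [le_abs_self a])
    have h2 := Real.exp_bound (x := (1 / 40 : ℝ)) (by norm_num [abs_of_pos]) (n := 2) (by norm_num)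
    have h3 := (abs_le.1 h2).2
    simp only [Finset.sum_range_succ, Finset.sum_range_zero, Nat.factorial] at h3
    norm_num [abs_of_pos] at h3
    linarith
  have q3 : -(k * Real.exp a * (1 - Real.cos s)) ≤ -(9 / 10 * k * (1 - Real.cos s)) := by
    have h1 : 9 / 10 * k ≤ k * Real.exp a := by nlinarith
    have h2 := mul_le_mul_of_nonneg_right h1 hcos
    linarith
  have q4 : -(kI * (Real.exp a * Real.sin s - s)) ≤ 84 / 10000 * (A + c * B) * σ := by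
    have h1 : |Real.exp a * Real.sin s - s| ≤ 21 / 10 * σ := by
      have h2 : |Real.sin s| ≤ σ := Real.abs_sin_le_abs
      have h3 : |Real.exp a * Real.sin s| ≤ 11 / 10 * σ := by
        rw [abs_mul, abs_of_pos (Real.exp_pos a)]
        exact mul_le_mul hea2 h2 (abs_nonneg _) (by norm_num)
      calc |Real.exp a * Real.sin s - s| ≤ |Real.exp a * Real.sin s| + |s| := abs_sub _ _
        _ ≤ 11 / 10 * σ + σ := by linarith
        _ = 21 / 10 * σ := by ring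
    have h2 : -(kI * (Real.exp a * Real.sin s - s)) ≤ |kI| * |Real.exp a * Real.sin s - s| := by
      rw [← abs_mul]
      exact neg_le_abs _
    have h3 : |kI| * |Real.exp a * Real.sin s - s| ≤
        (4 / 1000 * (A + c * B)) * (21 / 10 * σ) :=
      mul_le_mul hkI2 h1 (abs_nonneg _) (by positivity)
    linarith
  have p1 : 0 ≤ A * σ := by positivity
  have p2 : 0 ≤ c * B * σ := by positivity
  rw [e2]
  nlinarith [q1, q2, q3, q4, p1, p2]

private lemma PathJ_Lam {t : ℂ} {k kI : ℝ} (ht : 0 < t.re) (hti : t.im ≤ 0) (hk : 0 < k)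
    (hkI : |kI| ≤ k / 50) :
    ‖t⁻¹ + ((k : ℂ) + kI * I)‖ ≤ (t⁻¹).re + (t⁻¹).im + 51 / 50 * k := by
  have hA : 0 < (t⁻¹).re := inv_re_pos ht
  have hB : 0 ≤ (t⁻¹).im := inv_im_nonneg ht hti
  refine (Complex.norm_le_abs_re_add_abs_im _).trans ?_
  have e1 : (t⁻¹ + ((k : ℂ) + kI * I)).re = (t⁻¹).re + k := by simp
  have e2 : (t⁻¹ + ((k : ℂ) + kI * I)).im = (t⁻¹).im + kI := by simp
  rw [e1, e2, abs_of_pos (by positivity)]
  have h1 : |(t⁻¹).im + kI| ≤ (t⁻¹).im + |kI| := by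
    refine (abs_add_le _ _).trans ?_
    rw [abs_of_nonneg hB]
  linarith

private lemma PathJ_B {t : ℂ} {k : ℝ} (ht : 0 < t.re) (hti : t.im ≤ 0) (hk : 0 < k) :
    (t⁻¹).im / 10 ≤ cc k t * (t⁻¹).im + k / 10 := by
  have hB : 0 ≤ (t⁻¹).im := inv_im_nonneg ht hti
  rcases le_total k (t⁻¹).im with h | h
  · have hc : cc k t = 1 / 4 := by
      unfold cc
      apply min_eq_left
      rw [div_le_div_iff₀ (by norm_num) (by positivity)]
      linarith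
    rw [hc]
    linarith
  · have hc0 : 0 ≤ cc k t := cc_nonneg hk ht hti
    have : 0 ≤ cc k t * (t⁻¹).im := by positivity
    linarith

private lemma PathJ_h (c s : ℝ) : ((c : ℂ) + I) * s = ((c * s : ℝ) : ℂ) + s * I := by
  push_cast
  ring

private lemma PathJ_gauss_re (t : ℂ) (k kI c s : ℝ) :
    ((t⁻¹ + ((k : ℂ) + kI * I)) * (((c : ℂ) + I) * s) ^ 2 / 2).re =
      -(s ^ 2 * ((1 - c ^ 2) * ((t⁻¹).re + k) / 2 + c * ((t⁻¹).im + kI))) := by
  have h : (t⁻¹ + ((k : ℂ) + kI * I)) * (((c : ℂ) + I) * s) ^ 2 / 2 =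
      (t⁻¹ + ((k : ℂ) + kI * I)) * ((((c ^ 2 - 1) * s ^ 2 / 2 : ℝ) : ℂ) + ((c * s ^ 2 : ℝ) : ℂ) * I) := by
    push_cast
    linear_combination (t⁻¹ + ((k : ℂ) + kI * I)) * (s : ℂ) ^ 2 / 2 * I_sq
  rw [h, Complex.mul_re]
  simp only [Complex.add_re, Complex.ofReal_re, Complex.mul_re, Complex.I_re, mul_zero,
    Complex.ofReal_im, Complex.I_im, mul_one, sub_self, add_zero, Complex.add_im, Complex.mul_im,
    zero_add]
  ring

/-- strong form: an extra `k s² / 40` -/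
private lemma PathJ_gauss {t : ℂ} {k kI : ℝ} (ht : 0 < t.re) (hti : t.im ≤ 0) (hk : 0 < k)
    (hkI : |kI| ≤ k / 50) (s : ℝ) :
    ((t⁻¹ + ((k : ℂ) + kI * I)) * (((cc k t : ℝ) + I) * s) ^ 2 / 2).re + k * s ^ 2 / 40 ≤
      -(‖t⁻¹ + ((k : ℂ) + kI * I)‖ / 10 * s ^ 2) := by
  rw [PathJ_gauss_re]
  have hA : 0 < (t⁻¹).re := inv_re_pos ht
  have hc0 : 0 ≤ cc k t := cc_nonneg hk ht hti
  have hc1 : cc k t ≤ 1 / 4 := cc_le k t
  have h1 := PathJ_Lam ht hti hk hkI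
  have h2 := PathJ_B ht hti hk
  have h3 : cc k t * kI ≥ -(k / 200) := by
    have h4 : -(cc k t * kI) ≤ cc k t * |kI| := by
      have := neg_abs_le kI
      nlinarith
    have h5 : cc k t * |kI| ≤ 1 / 4 * (k / 50) := mul_le_mul hc1 hkI (abs_nonneg _) (by norm_num)
    linarith
  have h4 : 15 / 32 * ((t⁻¹).re + k) ≤ (1 - cc k t ^ 2) * ((t⁻¹).re + k) / 2 := by
    have h5 : 15 / 16 ≤ 1 - cc k t ^ 2 := by nlinarith
    have h6 := mul_le_mul_of_nonneg_right h5 (by positivity : 0 ≤ (t⁻¹).re + k)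
    linarith
  have h5 : ‖t⁻¹ + ((k : ℂ) + kI * I)‖ / 10 + k / 40 ≤
      (1 - cc k t ^ 2) * ((t⁻¹).re + k) / 2 + cc k t * ((t⁻¹).im + kI) := by
    have e : cc k t * ((t⁻¹).im + kI) = cc k t * (t⁻¹).im + cc k t * kI := by ring
    rw [e]
    linarith
  have h6 := mul_le_mul_of_nonneg_right h5 (sq_nonneg s)
  linarith

/-- The second bound of `main_bound` holds for all real `s`. -/
private theorem PathJ_gb {t : ℂ} {k kI : ℝ} (ht : 0 < t.re) (hti : t.im ≤ 0) (hk : 0 < k)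
    (hkI : |kI| ≤ k / 50) (s : ℝ) :
    ‖cexp ((t⁻¹ + (k + kI * I)) * ((cc k t + I) * s) ^ 2 / 2)‖ ≤
      Real.exp (-(‖t⁻¹ + (k + kI * I)‖ / 10 * s ^ 2)) := by
  rw [Complex.norm_exp]
  apply Real.exp_le_exp.2
  have h := PathJ_gauss ht hti hk hkI s
  have : 0 ≤ k * s ^ 2 / 40 := by positivity
  linarith

private lemma PathJ_w {k kI c : ℝ} (hk : 0 < k) (hkI : |kI| ≤ k / 50) (hc0 : 0 ≤ c)
    (hc1 : c ≤ 1 / 4) {s : ℝ} (hs : |s| ≤ 1 / 10) :
    ‖((k : ℂ) + kI * I) * (cexp (((c : ℂ) + I) * s) - 1 - ((c : ℂ) + I) * s -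
      (((c : ℂ) + I) * s) ^ 2 / 2)‖ ≤ k / 4 * |s| ^ 3 := by
  have hh : ‖((c : ℂ) + I) * s‖ ≤ 1031 / 1000 * |s| := by
    rw [norm_mul, Complex.norm_real, Real.norm_eq_abs]
    apply mul_le_mul_of_nonneg_right _ (abs_nonneg s)
    rw [Complex.norm_def, Complex.normSq_apply]
    apply Real.sqrt_le_iff.2
    constructor
    · norm_num
    · simp only [Complex.add_re, Complex.ofReal_re, Complex.I_re, add_zero, Complex.add_im,
        Complex.ofReal_im, Complex.I_im, zero_add, mul_one]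
      nlinarith
  have hκ : ‖(k : ℂ) + kI * I‖ ≤ 1001 / 1000 * k := by
    rw [Complex.norm_def, Complex.normSq_apply]
    apply Real.sqrt_le_iff.2
    constructor
    · positivity
    · have h1 : kI * kI ≤ k / 50 * (k / 50) := by
        rw [← abs_mul_abs_self kI]
        exact mul_le_mul hkI hkI (abs_nonneg _) (by positivity)
      simp only [Complex.add_re, Complex.ofReal_re, Complex.mul_re, Complex.I_re, mul_zero,
        Complex.ofReal_im, Complex.I_im, mul_one, sub_self, add_zero, Complex.add_im,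
        Complex.mul_im, zero_add]
      nlinarith
  have hs0 : 0 ≤ |s| := abs_nonneg s
  have h1 : ‖((c : ℂ) + I) * s‖ ≤ 1 := by linarith
  have h2 := Complex.exp_bound (x := ((c : ℂ) + I) * s) h1 (n := 3) (by norm_num)
  simp only [Finset.sum_range_succ, Finset.sum_range_zero, Nat.factorial] at h2
  have e : cexp (((c : ℂ) + I) * s) - 1 - ((c : ℂ) + I) * s - (((c : ℂ) + I) * s) ^ 2 / 2 =
      cexp (((c : ℂ) + I) * s) - (0 + (((c : ℂ) + I) * s) ^ 0 / ((1 : ℕ) : ℂ) +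
        (((c : ℂ) + I) * s) ^ 1 / ((1 * 1 : ℕ) : ℂ) + (((c : ℂ) + I) * s) ^ 2 / (((1 + 1) * (1 * 1) : ℕ) : ℂ)) := by
    push_cast
    ring
  rw [norm_mul]
  have h3 : ‖cexp (((c : ℂ) + I) * s) - 1 - ((c : ℂ) + I) * s - (((c : ℂ) + I) * s) ^ 2 / 2‖ ≤
      (1031 / 1000 * |s|) ^ 3 * (2 / 9) := by
    rw [e]
    refine (h2.trans (le_of_eq ?_)).trans (mul_le_mul_of_nonneg_right
      (pow_le_pow_left₀ (norm_nonneg _) hh 3) (by norm_num : (0 : ℝ) ≤ 2 / 9))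
    norm_num
  refine (mul_le_mul hκ h3 (norm_nonneg _) (by positivity)).trans ?_
  have h4 : 0 ≤ k * |s| ^ 3 := by positivity
  nlinarith

theorem main_bound {t : ℂ} {k kI : ℝ} (ht : 0 < t.re) (hti : t.im ≤ 0) (hk : 0 < k)
    (hkI : |kI| ≤ k / 50) {s : ℝ} (hs : |s| ≤ 1 / 10) :
    ‖f t (k + kI * I) 0 ((cc k t + I) * s)‖ ≤
      Real.exp (-(‖t⁻¹ + (k + kI * I)‖ / 10 * s ^ 2)) ∧
    ‖cexp ((t⁻¹ + (k + kI * I)) * ((cc k t + I) * s) ^ 2 / 2)‖ ≤
      Real.exp (-(‖t⁻¹ + (k + kI * I)‖ / 10 * s ^ 2)) ∧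
    ‖f t (k + kI * I) 0 ((cc k t + I) * s) -
        cexp ((t⁻¹ + (k + kI * I)) * ((cc k t + I) * s) ^ 2 / 2)‖ ≤
      k / 4 * |s| ^ 3 * Real.exp (-(‖t⁻¹ + (k + kI * I)‖ / 10 * s ^ 2)) := by
  have hG := PathJ_gauss ht hti hk hkI s
  have hw := PathJ_w (c := cc k t) hk hkI (cc_nonneg hk ht hti) (cc_le k t) hs
  set h : ℂ := (cc k t + I) * s with hh
  set w : ℂ := ((k : ℂ) + kI * I) * (cexp h - 1 - h - h ^ 2 / 2) with hwd
  set Λ : ℂ := t⁻¹ + ((k : ℂ) + kI * I) with hΛ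
  have hw2 : ‖w‖ ≤ k * s ^ 2 / 40 := by
    have h1 : |s| ^ 3 ≤ 1 / 10 * s ^ 2 := by
      have : |s| ^ 3 = |s| * s ^ 2 := by rw [← sq_abs s]; ring
      rw [this]
      exact mul_le_mul_of_nonneg_right hs (sq_nonneg s)
    have h2 := mul_le_mul_of_nonneg_left h1 (by positivity : 0 ≤ k / 4)
    linarith
  have hf : f t ((k : ℂ) + kI * I) 0 h = cexp (Λ * h ^ 2 / 2) * cexp w := by
    unfold f
    rw [← Complex.exp_add, zero_add]
    congr 1
    rw [hwd, hΛ]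
    have : h ^ 2 / (2 * t) = t⁻¹ * h ^ 2 / 2 := by
      rw [div_eq_mul_inv, mul_inv]; ring
    rw [this]
    ring
  have hnorm : ‖cexp (Λ * h ^ 2 / 2)‖ * Real.exp ‖w‖ ≤ Real.exp (-(‖Λ‖ / 10 * s ^ 2)) := by
    rw [Complex.norm_exp, ← Real.exp_add]
    apply Real.exp_le_exp.2
    linarith
  refine ⟨?_, PathJ_gb ht hti hk hkI s, ?_⟩
  · rw [hf, norm_mul]
    refine le_trans ?_ hnorm
    refine mul_le_mul_of_nonneg_left ?_ (norm_nonneg _)
    rw [Complex.norm_exp]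
    exact Real.exp_le_exp.2 (Complex.re_le_norm w)
  · have e : f t ((k : ℂ) + kI * I) 0 h - cexp (Λ * h ^ 2 / 2) = cexp (Λ * h ^ 2 / 2) * (cexp w - 1) := by
      rw [hf]; ring
    rw [e, norm_mul]
    have h1 := Complex.norm_exp_sub_sum_le_norm_mul_exp w 1
    simp only [Finset.sum_range_one, pow_zero, Nat.factorial, Nat.cast_one, div_one, pow_one] at h1
    calc ‖cexp (Λ * h ^ 2 / 2)‖ * ‖cexp w - 1‖ ≤ ‖cexp (Λ * h ^ 2 / 2)‖ * (‖w‖ * Real.exp ‖w‖) :=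
          mul_le_mul_of_nonneg_left h1 (norm_nonneg _)
      _ = ‖w‖ * (‖cexp (Λ * h ^ 2 / 2)‖ * Real.exp ‖w‖) := by ring
      _ ≤ (k / 4 * |s| ^ 3) * Real.exp (-(‖Λ‖ / 10 * s ^ 2)) :=
          mul_le_mul hw hnorm (by positivity) (by positivity)

/-- The second bound of `main_bound` holds for all real `s`. -/
theorem gauss_bound {t : ℂ} {k kI : ℝ} (ht : 0 < t.re) (hti : t.im ≤ 0) (hk : 0 < k)
    (hkI : |kI| ≤ k / 50) (s : ℝ) :
    ‖cexp ((t⁻¹ + (k + kI * I)) * ((cc k t + I) * s) ^ 2 / 2)‖ ≤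
      Real.exp (-(‖t⁻¹ + (k + kI * I)‖ / 10 * s ^ 2)) :=
  PathJ_gb ht hti hk hkI s

theorem outer_bound_pos {t : ℂ} {k kI : ℝ} (ht : 0 < t.re) (hti : t.im ≤ 0) (hk : 0 < k)
    (hkI : |kI| * V k t ≤ 1 / 1000) {s : ℝ} (hs : 1 / 10 ≤ s) :
    ‖f t (k + kI * I) 0 (((cc k t * (1 / 10) : ℝ) : ℂ) + s * I)‖ ≤
      Real.exp (-(3 / 100 * ((t⁻¹).re + cc k t * (t⁻¹).im) * s)) *
        Real.exp (-(9 / 10 * k * (1 - Real.cos s))) := by
  have hc0 : 0 ≤ cc k t * (1 / 10) := mul_nonneg (cc_nonneg hk ht hti) (by norm_num)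
  have hs0 : 0 ≤ s := by linarith
  have h := PathJ_outer ht hti hk hkI (a := cc k t * (1 / 10)) (s := s) (abs_of_nonneg hc0)
    (by rw [abs_of_nonneg hc0, abs_of_nonneg hs0]) (by rwa [abs_of_nonneg hs0])
  rwa [abs_of_nonneg hs0] at h

theorem outer_bound_neg {t : ℂ} {k kI : ℝ} (ht : 0 < t.re) (hti : t.im ≤ 0) (hk : 0 < k)
    (hkI : |kI| * V k t ≤ 1 / 1000) {s : ℝ} (hs : s ≤ -(1 / 10)) :
    ‖f t (k + kI * I) 0 (-((cc k t * (1 / 10) : ℝ) : ℂ) + s * I)‖ ≤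
      Real.exp (-(3 / 100 * ((t⁻¹).re + cc k t * (t⁻¹).im) * |s|)) *
        Real.exp (-(9 / 10 * k * (1 - Real.cos s))) := by
  have hc0 : 0 ≤ cc k t * (1 / 10) := mul_nonneg (cc_nonneg hk ht hti) (by norm_num)
  have hs0 : s ≤ 0 := by linarith
  have h := PathJ_outer ht hti hk hkI (a := -(cc k t * (1 / 10))) (s := s)
    (by rw [abs_neg, abs_of_nonneg hc0])
    (by rw [abs_neg, abs_of_nonneg hc0, abs_of_nonpos hs0]; ring) (by rw [abs_of_nonpos hs0]; linarith)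
  have e : ((-(cc k t * (1 / 10)) : ℝ) : ℂ) = -((cc k t * (1 / 10) : ℝ) : ℂ) := Complex.ofReal_neg _
  rwa [e] at h

end SokalU
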