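import Pool.Agent.Lib_MP_af4de1_u.Basic

/-!
# Saddle points near the centre [SU-SAD]

`w = tk`, `‖1+w‖ ≥ 1`.
`saddle_exists`: the map `x ↦ (iη - (log(1+x) - x))/(1+w)` sends the closed ball of radius `r = 2|η|/‖1+w‖ ≤ 1/10` to itself
(`‖log(1+x) - x‖ ≤ ‖x‖²` for `‖x‖ ≤ 1/2`: `Complex.norm_log_one_add_sub_self_le`; `|η| + 4η² ≤ 2|η|`) and is a contraction with
constant `1/9` (derivative `x/(1+x)` of `x - log(1+x)`).
`saddle_dist`: `(1+w)(x-x') + (φ(x)-φ(x')) = i(η-η')`, `φ(x) = log(1+x)-x`, `‖φ(x)-φ(x')‖ ≤ ‖x-x'‖/9`.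
-/

namespace SokalU

open Complex

private theorem slit {x : ℂ} (hx : ‖x‖ ≤ 1 / 10) : 1 + x ∈ slitPlane := by
  left
  have h1 : |x.re| ≤ ‖x‖ := Complex.abs_re_le_norm x
  have h2 := (abs_le.1 h1).1
  rw [Complex.add_re, Complex.one_re]
  linarith

private theorem ne_zero' {x : ℂ} (hx : ‖x‖ ≤ 1 / 10) : 1 + x ≠ 0 := slitPlane_ne_zero (slit hx)

/-- `φ(x) = log(1+x) - x` is `1/9`-Lipschitz on `‖x‖ ≤ 1/10`. -/
theorem phi_lip {x x' : ℂ} (hx : ‖x‖ ≤ 1 / 10) (hx' : ‖x'‖ ≤ 1 / 10) :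
    ‖(log (1 + x) - x) - (log (1 + x') - x')‖ ≤ 1 / 9 * ‖x - x'‖ := by
  refine Convex.norm_image_sub_le_of_norm_hasDerivWithin_le (𝕜 := ℂ) (f := fun z => log (1 + z) - z)
    (f' := fun z => 1 / (1 + z) - 1) (s := Metric.closedBall (0 : ℂ) (1 / 10)) (C := 1 / 9) ?_ ?_
    (convex_closedBall _ _) (by simpa using hx') (by simpa using hx)
  · intro z hz
    have hz' : ‖z‖ ≤ 1 / 10 := by simpa using hz
    have h1 : HasDerivAt (fun z : ℂ => 1 + z) 1 z := (hasDerivAt_id z).const_add 1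
    exact ((h1.clog (slit hz')).sub (hasDerivAt_id z)).hasDerivWithinAt
  · intro z hz
    have hz' : ‖z‖ ≤ 1 / 10 := by simpa using hz
    have h1 : 1 / (1 + z) - 1 = -z / (1 + z) := by
      have := ne_zero' hz'
      field_simp
      ring
    have h2 : 9 / 10 ≤ ‖1 + z‖ := by
      have h3 : ‖(1 : ℂ)‖ ≤ ‖1 + z‖ + ‖z‖ := by
        have h4 : (1 : ℂ) = (1 + z) - z := by ring
        calc ‖(1 : ℂ)‖ = ‖(1 + z) - z‖ := by rw [← h4]
          _ ≤ ‖1 + z‖ + ‖z‖ := norm_sub_le _ _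
      rw [norm_one] at h3
      linarith
    change ‖1 / (1 + z) - 1‖ ≤ 1 / 9
    rw [h1, norm_div, norm_neg, div_le_iff₀ (by linarith)]
    linarith

theorem saddle_exists {k : ℝ} {t : ℂ} (hk : 0 < k) (ht : 0 ≤ t.re) {η : ℝ}
    (hη : |η| ≤ 1 / 20) : ∃ x : ℂ, ‖x‖ ≤ 2 * |η| / ‖1 + t * (k : ℂ)‖ ∧
      log (1 + x) + t * k * x = η * I := by
  have hN : 1 ≤ ‖1 + t * (k : ℂ)‖ := one_le_norm hk ht
  set N := ‖1 + t * (k : ℂ)‖ with hNd
  have hN0 : 0 < N := by linarith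
  have hne : (1 + t * (k : ℂ)) ≠ 0 := norm_pos_iff.1 (by rw [← hNd]; exact hN0)
  set r := 2 * |η| / N with hr
  have hη0 := abs_nonneg η
  have hr0 : 0 ≤ r := by positivity
  have hr1 : r ≤ 1 / 10 := by
    rw [hr, div_le_iff₀ hN0]
    nlinarith
  set g : ℂ → ℂ := fun x => (η * I - (log (1 + x) - x)) / (1 + t * (k : ℂ)) with hg
  have hmem : ∀ x : ℂ, x ∈ Metric.closedBall (0 : ℂ) r ↔ ‖x‖ ≤ r := fun x => by simp
  have hmaps : Set.MapsTo g (Metric.closedBall (0 : ℂ) r) (Metric.closedBall (0 : ℂ) r) := by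
    intro x hx
    rw [hmem] at hx ⊢
    have h1 := phi_lip (hx.trans hr1) (x' := 0) (by simp)
    simp only [add_zero, Complex.log_one, sub_zero] at h1
    rw [hg]
    simp only
    rw [norm_div, ← hNd, hr]
    gcongr
    refine (norm_sub_le _ _).trans ?_
    have h2 : ‖(η : ℂ) * I‖ = |η| := by
      rw [norm_mul, Complex.norm_I, mul_one, Complex.norm_real, Real.norm_eq_abs]
    rw [h2]
    have h3 : r ≤ 2 * |η| := by
      rw [hr]
      exact div_le_self (by positivity) hN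
    linarith
  have hlip : ∀ x ∈ Metric.closedBall (0 : ℂ) r, ∀ y ∈ Metric.closedBall (0 : ℂ) r,
      ‖g x - g y‖ ≤ 1 / 9 * ‖x - y‖ := by
    intro x hx y hy
    rw [hmem] at hx hy
    have h1 := phi_lip (hx.trans hr1) (hy.trans hr1)
    have h2 : g x - g y = -((log (1 + x) - x) - (log (1 + y) - y)) / (1 + t * (k : ℂ)) := by
      rw [hg]
      simp only
      rw [← sub_div]
      congr 1
      ring
    rw [h2, norm_div, norm_neg, ← hNd]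
    exact (div_le_self (norm_nonneg _) hN).trans h1
  have hc : ContractingWith (1 / 9 : NNReal) (hmaps.restrict g _ _) := by
    refine ⟨by
      rw [← NNReal.coe_lt_coe]
      norm_num, LipschitzWith.of_dist_le_mul fun x y => ?_⟩
    rw [Subtype.dist_eq, Subtype.dist_eq, dist_eq_norm, dist_eq_norm]
    have h1 := hlip x x.2 y y.2
    simpa using h1
  obtain ⟨x, hx, hfix, -⟩ := hc.exists_fixedPoint' Metric.isClosed_closedBall.isComplete hmaps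
    (x := (0 : ℂ)) (by simpa using hr0) (edist_ne_top _ _)
  refine ⟨x, (hmem x).1 hx, ?_⟩
  have h1 : (η * I - (log (1 + x) - x)) / (1 + t * (k : ℂ)) = x := hfix
  rw [div_eq_iff hne] at h1
  have h2 : η * I = (log (1 + x) - x) + x * (1 + t * (k : ℂ)) := by rw [← h1]; ring
  rw [h2]
  ring

theorem zp_saddle {k η : ℝ} {t x : ℂ} (hx : ‖x‖ ≤ 1 / 10)
    (h : log (1 + x) + t * k * x = η * I) : zp t (k * (1 + x)) = zp t k * cexp (η * I) := by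
  unfold zp
  rw [← h, Complex.exp_add, Complex.exp_log (ne_zero' hx)]
  have h1 : t * ((k : ℂ) * (1 + x)) - t / 2 = (t * k - t / 2) + t * k * x := by ring
  rw [h1, Complex.exp_add]
  ring

theorem saddle_dist {k η η' : ℝ} {t x x' : ℂ} (hk : 0 < k) (ht : 0 ≤ t.re)
    (hx : ‖x‖ ≤ 1 / 10) (hx' : ‖x'‖ ≤ 1 / 10) (h : log (1 + x) + t * k * x = η * I)
    (h' : log (1 + x') + t * k * x' = η' * I) :
    9 / 10 * |η - η'| ≤ ‖1 + t * (k : ℂ)‖ * ‖x - x'‖ ∧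
    ‖1 + t * (k : ℂ)‖ * ‖x - x'‖ ≤ 9 / 8 * |η - η'| := by
  have hN : 1 ≤ ‖1 + t * (k : ℂ)‖ := one_le_norm hk ht
  have h1 := phi_lip hx hx'
  have h2 : (1 + t * (k : ℂ)) * (x - x') + ((log (1 + x) - x) - (log (1 + x') - x')) =
      ((η - η' : ℝ) : ℂ) * I := by
    push_cast
    rw [sub_mul, ← h, ← h']
    ring
  have h3 : ‖((η - η' : ℝ) : ℂ) * I‖ = |η - η'| := by
    rw [norm_mul, Complex.norm_I, mul_one, Complex.norm_real, Real.norm_eq_abs]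
  have h4 : ‖(1 + t * (k : ℂ)) * (x - x')‖ = ‖1 + t * (k : ℂ)‖ * ‖x - x'‖ := norm_mul _ _
  have h5 : |η - η'| ≤ ‖1 + t * (k : ℂ)‖ * ‖x - x'‖ + 1 / 9 * ‖x - x'‖ := by
    rw [← h3, ← h2, ← h4]
    exact (norm_add_le _ _).trans (add_le_add le_rfl h1)
  have h6 : ‖1 + t * (k : ℂ)‖ * ‖x - x'‖ ≤ |η - η'| + 1 / 9 * ‖x - x'‖ := by
    rw [← h3, ← h2, ← h4]
    have h7 : (1 + t * (k : ℂ)) * (x - x') = ((1 + t * (k : ℂ)) * (x - x') +
        ((log (1 + x) - x) - (log (1 + x') - x'))) - ((log (1 + x) - x) - (log (1 + x') - x')) := by ring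
    calc ‖(1 + t * (k : ℂ)) * (x - x')‖ = ‖((1 + t * (k : ℂ)) * (x - x') +
        ((log (1 + x) - x) - (log (1 + x') - x'))) - ((log (1 + x) - x) - (log (1 + x') - x'))‖ := by
          rw [← h7]
      _ ≤ _ := (norm_sub_le _ _).trans (add_le_add le_rfl h1)
  have h8 : ‖x - x'‖ ≤ ‖1 + t * (k : ℂ)‖ * ‖x - x'‖ := le_mul_of_one_le_left (norm_nonneg _) hN
  constructor <;> linarith

/-- `x = iη/(1+w) + O(|x|²/|1+w|)` and `Re k/(1+w) = 1/V`, `k/‖1+w‖² ≤ 1/V`. -/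
theorem saddle_im {k η : ℝ} {t x : ℂ} (hk : 0 < k) (ht : 0 ≤ t.re) (hη : |η| ≤ 1 / 20)
    (hx : ‖x‖ ≤ 2 * |η| / ‖1 + t * (k : ℂ)‖) (h : log (1 + x) + t * k * x = η * I) :
    |k * x.im - η / V k t| ≤ 4 * η ^ 2 / V k t := by
  have hN : 1 ≤ ‖1 + t * (k : ℂ)‖ := one_le_norm hk ht
  have hN0 : 0 < ‖1 + t * (k : ℂ)‖ := by linarith
  have hne : (1 + t * (k : ℂ)) ≠ 0 := norm_pos_iff.1 hN0
  have hV := V_pos hk ht
  have hη0 := abs_nonneg η
  have hx1 : ‖x‖ ≤ 2 * |η| := hx.trans (div_le_self (by positivity) hN)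
  have hx2 : ‖x‖ ≤ 1 / 10 := by linarith
  have h1 : (k : ℂ) * x = η * I * ((k : ℂ) / (1 + t * (k : ℂ))) -
      (log (1 + x) - x) * ((k : ℂ) / (1 + t * (k : ℂ))) := by
    have h0 : η * I - (log (1 + x) - x) = x * (1 + t * (k : ℂ)) := by
      rw [← h]
      ring
    rw [← sub_mul, h0, mul_assoc, mul_div_cancel₀ _ hne, mul_comm]
  have h2 : k * x.im - η / V k t = -((log (1 + x) - x) * ((k : ℂ) / (1 + t * (k : ℂ)))).im := by
    have h3 : k * x.im = ((k : ℂ) * x).im := by simp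
    have h5 : (η * I * ((k : ℂ) / (1 + t * (k : ℂ)))).im = η / V k t := by
      rw [mul_assoc, Complex.im_ofReal_mul, Complex.I_mul_im, re_div hk ht, div_eq_mul_inv]
    rw [h3, h1, Complex.sub_im, h5]
    ring
  rw [h2, abs_neg]
  refine (Complex.abs_im_le_norm _).trans ?_
  have h4 : ‖log (1 + x) - x‖ ≤ ‖x‖ ^ 2 := by
    have h5 := Complex.norm_log_one_add_sub_self_le (z := x) (by linarith)
    refine h5.trans ?_
    have h6 : (1 - ‖x‖)⁻¹ ≤ 10 / 9 := by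
      rw [inv_le_comm₀ (by linarith) (by norm_num)]
      linarith
    have h7 : 0 ≤ ‖x‖ ^ 2 := by positivity
    nlinarith
  rw [norm_mul, norm_div, Complex.norm_real, Real.norm_of_nonneg hk.le]
  have h8 : ‖x‖ ^ 2 ≤ (2 * |η|) ^ 2 / ‖1 + t * (k : ℂ)‖ := by
    calc ‖x‖ ^ 2 ≤ (2 * |η| / ‖1 + t * (k : ℂ)‖) ^ 2 := pow_le_pow_left₀ (norm_nonneg _) hx 2
      _ = (2 * |η|) ^ 2 / ‖1 + t * (k : ℂ)‖ / ‖1 + t * (k : ℂ)‖ := by
        rw [div_pow, div_div, sq ‖1 + t * (k : ℂ)‖]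
      _ ≤ (2 * |η|) ^ 2 / ‖1 + t * (k : ℂ)‖ := div_le_self (by positivity) hN
  have h9 := k_div_le hk ht
  have h10 : (2 * |η|) ^ 2 = 4 * η ^ 2 := by rw [mul_pow, sq_abs]; norm_num
  calc ‖log (1 + x) - x‖ * (k / ‖1 + t * (k : ℂ)‖)
      ≤ (2 * |η|) ^ 2 / ‖1 + t * (k : ℂ)‖ * (k / ‖1 + t * (k : ℂ)‖) :=
        mul_le_mul_of_nonneg_right (h4.trans h8) (by positivity)
    _ = 4 * η ^ 2 * (k / ‖1 + t * (k : ℂ)‖ ^ 2) := by
        rw [h10]
        field_simp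
    _ ≤ 4 * η ^ 2 * (V k t)⁻¹ := mul_le_mul_of_nonneg_left h9 (by positivity)
    _ = 4 * η ^ 2 / V k t := by rw [div_eq_mul_inv]

end SokalU
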